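import Mathlib
import Pool.Agent.Helper206.Rat.Defs

/-!
# Complex volume forms of almost complex manifolds of real dimension six
-/

open scoped Manifold ContDiff Topology
open Set
open Pool.Agent.Helper206.Rat (AlmostComplex)

noncomputable section

namespace Pool.Agent.W2helper8.TW

variable {E : Type*} [NormedAddCommGroup E] [NormedSpace ℝ E] {H : Type*} [TopologicalSpace H]
  (I : ModelWithCorners ℝ E H) (X : Type*) [TopologicalSpace X] [ChartedSpace H X]

/-- Fields of complex valued trilinear forms on the tangent spaces of `X`. -/
abbrev TriField : Type _ :=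
  (x : X) → TangentSpace I x →L[ℝ] TangentSpace I x →L[ℝ] TangentSpace I x →L[ℝ] ℂ

variable {I X}

/-- The value of the trilinear form `Θ` at the point `x` on the tangent vectors `u`, `v`, `w`. -/
def triEval (Θ : TriField I X) (x : X) (u v w : TangentSpace I x) : ℂ := Θ x u v w

/-- The trilinear form `Θ` in the preferred chart `φ` at `x₀`, evaluated on three vectors of the
model space: at the point `y` it is the pull back of `Θ` by `φ⁻¹`. -/
def triInChart (Θ : TriField I X) (x₀ : X) (a b c y : E) : ℂ :=
  let D : E →L[ℝ] E := mfderiv 𝓘(ℝ, E) I (extChartAt I x₀).symm y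
  triEval Θ ((extChartAt I x₀).symm y) (D a) (D b) (D c)

/-- A nowhere vanishing smooth `(3,0)`-form on the almost complex manifold `(X, J)`: a smooth,
alternating complex valued trilinear form `Θ` with `Θ (J v, w, z) = i Θ (v, w, z)` (it follows from
the alternation that the same holds for the other two arguments) and `Θ ≠ 0` at each point. When
`X` has real dimension `6` it trivialises the canonical line bundle `Λ³ T*X` of `(X, J)`. -/
structure ComplexVolume (J : AlmostComplex I X) where
  /-- the form -/
  form : TriField I X
  alt₁ : ∀ x v w, triEval form x v v w = 0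
  alt₂ : ∀ x v w, triEval form x v w w = 0
  type : ∀ x v w z, triEval form x (J.J x v) w z = Complex.I * triEval form x v w z
  ne_zero : ∀ x, ∃ v w z, triEval form x v w z ≠ 0
  smooth : ∀ (x₀ : X) (a b c : E),
    ContDiffOn ℝ ∞ (triInChart form x₀ a b c) (extChartAt I x₀).target

end Pool.Agent.W2helper8.TW
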