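import Mathlib
import Pool.Agent.Helper206.Rat.Defs

/-!
# The quotient of a manifold by a free and properly discontinuous smooth action
-/

open scoped Manifold ContDiff Topology
open Set

noncomputable section

namespace Pool.Agent.W2helper8.TW

section Top

variable (G : Type*) [Group G] (M : Type*) [TopologicalSpace M] [MulAction G M]

/-- The quotient space. -/
def Quo : Type _ := Quotient (MulAction.orbitRel G M)

instance : TopologicalSpace (Quo G M) :=
  inferInstanceAs (TopologicalSpace (Quotient (MulAction.orbitRel G M)))

/-- The projection. -/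
def proj (x : M) : Quo G M := Quotient.mk (MulAction.orbitRel G M) x

/-- The projection to the quotient is a covering map with group `G`. -/
class IsCov : Prop where
  cov : IsQuotientCoveringMap (proj G M) G

variable {M}

omit [TopologicalSpace M] in
theorem proj_surj : Function.Surjective (proj G M) := Quotient.mk_surjective

omit [TopologicalSpace M] in
theorem proj_smul (g : G) (x : M) : proj G M (g • x) = proj G M x :=
  Quotient.sound ⟨g, rfl⟩

omit [TopologicalSpace M] in
theorem proj_eq {x y : M} (h : proj G M x = proj G M y) : ∃ g : G, g • y = x := by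
  have := Quotient.exact h
  exact this

variable [hc : IsCov G M]

theorem exists_loc (x : M) : ∃ e : OpenPartialHomeomorph M (Quo G M),
    x ∈ e.source ∧ proj G M = e :=
  hc.cov.isCoveringMap.isLocalHomeomorph x

/-- A local inverse of the projection, as a local homeomorphism. -/
def loc (x : M) : OpenPartialHomeomorph M (Quo G M) := (exists_loc G x).choose

theorem mem_loc (x : M) : x ∈ (loc G x).source := (exists_loc G x).choose_spec.1
theorem coe_loc (x : M) : (loc G x : M → Quo G M) = proj G M := (exists_loc G x).choose_spec.2.symm

theorem continuous_proj : Continuous (proj G M) := hc.cov.isCoveringMap.continuous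

/-- The representative of a point of the quotient. -/
def lift (q : Quo G M) : M := Quotient.out q

omit hc [TopologicalSpace M] in
theorem proj_lift (q : Quo G M) : proj G M (lift G q) = q := Quotient.out_eq _

theorem proj_loc_symm (a : M) {q : Quo G M} (hq : q ∈ (loc G a).target) :
    proj G M ((loc G a).symm q) = q := by
  rw [← coe_loc G a]
  exact (loc G a).right_inv hq

theorem loc_symm_proj' (a : M) {y : M} (hy : y ∈ (loc G a).source) :
    (loc G a).symm (proj G M y) = y := by
  rw [← coe_loc G a]
  exact (loc G a).left_inv hy

/-- Two local inverses differ by a group element. -/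
theorem loc_symm_proj (a x : M) (hx : proj G M x ∈ (loc G a).target) :
    ∃ g : G, (loc G a).symm (proj G M x) = g • x ∧
      ∀ᶠ y in 𝓝 x, (loc G a).symm (proj G M y) = g • y := by
  set z : M := (loc G a).symm (proj G M x) with hz
  have hzs : z ∈ (loc G a).source := (loc G a).map_target hx
  have hzx : proj G M z = proj G M x := proj_loc_symm G a hx
  obtain ⟨g, hg⟩ := proj_eq G hzx
  refine ⟨g, hg.symm, ?_⟩
  have hcs : ContinuousConstSMul G M := hc.cov.toContinuousConstSMul
  have hcont : ContinuousAt (fun y : M => g • y) x := (continuous_const_smul g).continuousAt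
  have hev : ∀ᶠ y in 𝓝 x, g • y ∈ (loc G a).source :=
    hcont.preimage_mem_nhds ((loc G a).open_source.mem_nhds (by rw [hg]; exact hzs))
  filter_upwards [hev] with y hy
  rw [← proj_smul G g y]
  exact loc_symm_proj' G a hy

end Top

section Mfd

variable {E : Type*} [NormedAddCommGroup E] [NormedSpace ℝ E] {H : Type*} [TopologicalSpace H]
  (I : ModelWithCorners ℝ E H) (G : Type*) [Group G] {M : Type*} [TopologicalSpace M]
  [MulAction G M] [ChartedSpace H M] [hc : IsCov G M]

/-- The chart of the quotient at the image of `x`. -/
def qchart (x : M) : OpenPartialHomeomorph (Quo G M) H := (loc G x).symm.trans (chartAt H x)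

instance : ChartedSpace H (Quo G M) where
  atlas := {e | ∃ x : M, e = qchart G x}
  chartAt q := qchart G (lift G q)
  mem_chart_source q := by
    have h1 : lift G q ∈ (loc G (lift G q)).source := mem_loc G _
    have h2 : q ∈ (loc G (lift G q)).target := by
      have := (loc G (lift G q)).map_source h1
      rwa [coe_loc, proj_lift] at this
    have h3 : (loc G (lift G q)).symm q = lift G q := by
      have := loc_symm_proj' G _ h1
      rwa [proj_lift] at this
    refine ⟨h2, ?_⟩
    change (loc G (lift G q)).symm q ∈ (chartAt H (lift G q)).source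
    rw [h3]
    exact mem_chart_source H _
  chart_mem_atlas q := ⟨_, rfl⟩

theorem chartAt_quo (q : Quo G M) : chartAt H q = qchart G (lift G q) := rfl

/-- Smoothness of the action. -/
class SmoothAct : Prop where
  smooth : ∀ g : G, ContMDiff I I ∞ (fun x : M => g • x)

end Mfd

section Mfd2

variable {E : Type*} [NormedAddCommGroup E] [NormedSpace ℝ E] {H : Type*} [TopologicalSpace H]
  (I : ModelWithCorners ℝ E H) (G : Type*) [Group G] {M : Type*} [TopologicalSpace M]
  [MulAction G M] [ChartedSpace H M] [hc : IsCov G M] [IsManifold I ∞ M]
  (hs : ∀ g : G, ContMDiff I I ∞ (fun x : M => g • x))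

include hs in
theorem isManifold_quo : IsManifold I ∞ (Quo G M) := by
  apply isManifold_of_contDiffOn
  rintro e e' ⟨a, rfl⟩ ⟨b, rfl⟩
  rintro z ⟨hz1, hz2⟩
  obtain ⟨h, rfl⟩ := hz2
  simp only [mem_preimage, ModelWithCorners.left_inv] at hz1
  -- the point of `M`
  have hsrc : h ∈ (chartAt H a).target ∧ (chartAt H a).symm h ∈ (loc G a).source := by
    have := hz1.1
    simpa [qchart] using this
  have hsrc2 : proj G M ((chartAt H a).symm h) ∈ (loc G b).target ∧
      (loc G b).symm (proj G M ((chartAt H a).symm h)) ∈ (chartAt H b).source := by
    have := hz1.2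
    simpa [qchart, coe_loc] using this
  set x : M := (chartAt H a).symm h with hx
  obtain ⟨g, hg1, hg2⟩ := loc_symm_proj G b x hsrc2.1
  have hga : g • x ∈ (chartAt H b).source := by rw [← hg1]; exact hsrc2.2
  -- the transition map is `φ_b ∘ g ∘ φ_a⁻¹`
  have h1 : ContMDiffWithinAt 𝓘(ℝ, E) 𝓘(ℝ, E) ∞
      (fun z : E => extChartAt I b (g • (extChartAt I a).symm z)) (range I) (I h) := by
    have hmem : I h ∈ (extChartAt I a).target := by
      rw [extChartAt_target]
      refine ⟨?_, mem_range_self _⟩
      simpa using hsrc.1
    have e1 : ContMDiffWithinAt 𝓘(ℝ, E) I ∞ (extChartAt I a).symm (range I) (I h) :=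
      contMDiffWithinAt_extChartAt_symm_range _ hmem
    have hval : (extChartAt I a).symm (I h) = x := by simp [hx]
    have e2 : ContMDiffAt I I ∞ (fun y : M => g • y) ((extChartAt I a).symm (I h)) := hs g _
    have e3 : ContMDiffAt I 𝓘(ℝ, E) ∞ (extChartAt I b) (g • (extChartAt I a).symm (I h)) := by
      rw [hval]
      exact contMDiffAt_extChartAt' hga
    exact e3.comp_contMDiffWithinAt (I h) (e2.comp_contMDiffWithinAt (I h) e1)
  have h2 := h1.contDiffWithinAt
  refine (h2.mono inter_subset_right).congr_of_eventuallyEq ?_ ?_
  · -- eventual equality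
    have hcont : ContinuousWithinAt (fun z : E => (extChartAt I a).symm z) (range I) (I h) := by
      have hmem : I h ∈ (extChartAt I a).target := by
        rw [extChartAt_target]
        refine ⟨?_, mem_range_self _⟩
        simpa using hsrc.1
      exact (continuousAt_extChartAt_symm'' hmem).continuousWithinAt
    have hval : (extChartAt I a).symm (I h) = x := by simp [hx]
    have := hcont.tendsto
    rw [hval] at this
    have hev := this.eventually hg2
    filter_upwards [nhdsWithin_mono _ inter_subset_right hev] with z hz
    simp only [Function.comp, OpenPartialHomeomorph.coe_trans, qchart,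
      OpenPartialHomeomorph.trans_symm_eq_symm_trans_symm, OpenPartialHomeomorph.symm_symm, coe_loc]
    simp only [extChartAt, OpenPartialHomeomorph.extend, PartialEquiv.coe_trans,
      PartialEquiv.coe_trans_symm, Function.comp, ModelWithCorners.toPartialEquiv_coe,
      ModelWithCorners.toPartialEquiv_coe_symm, OpenPartialHomeomorph.toFun_eq_coe,
      OpenPartialHomeomorph.coe_toPartialEquiv_symm] at hz ⊢
    rw [hz]
  · simp only [Function.comp, OpenPartialHomeomorph.coe_trans, qchart,
      OpenPartialHomeomorph.trans_symm_eq_symm_trans_symm, OpenPartialHomeomorph.symm_symm, coe_loc]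
    simp only [extChartAt, OpenPartialHomeomorph.extend, PartialEquiv.coe_trans,
      PartialEquiv.coe_trans_symm, Function.comp, ModelWithCorners.toPartialEquiv_coe,
      ModelWithCorners.toPartialEquiv_coe_symm, OpenPartialHomeomorph.toFun_eq_coe,
      OpenPartialHomeomorph.coe_toPartialEquiv_symm, ModelWithCorners.left_inv]
    rw [← hx, hg1]

end Mfd2

end Pool.Agent.W2helper8.TW
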