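import Mathlib
import Pool.Agent.W2helper8.TW.Quot

/-!
# Descent of invariant tensors to the quotient
-/

open scoped Manifold ContDiff Topology
open Set
open Pool.Agent.Helper206.Cover (BilinField EndoField formInChart endoInChart)
open Pool.Agent.Helper206.Rat (SymplecticForm AlmostComplex IsCompatible IsHolomorphic)

noncomputable section

namespace Pool.Agent.W2helper8.TW

variable {E : Type*} [NormedAddCommGroup E] [NormedSpace ℝ E] {H : Type*} [TopologicalSpace H]
  {I : ModelWithCorners ℝ E H} {G : Type*} [Group G] {M : Type*} [TopologicalSpace M]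
  [MulAction G M] [ChartedSpace H M] [hc : IsCov G M]

theorem extChartAt_quo_symm (q : Quo G M) :
    ((extChartAt I q).symm : E → Quo G M)
      = fun z => proj G M ((extChartAt I (lift G q)).symm z) := by
  funext z
  simp only [extChartAt, chartAt_quo, qchart, OpenPartialHomeomorph.extend,
    PartialEquiv.coe_trans_symm, Function.comp, ModelWithCorners.toPartialEquiv_coe_symm,
    OpenPartialHomeomorph.coe_toPartialEquiv_symm,
    OpenPartialHomeomorph.trans_symm_eq_symm_trans_symm, OpenPartialHomeomorph.coe_trans,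
    OpenPartialHomeomorph.symm_symm, coe_loc]

theorem extChartAt_quo_apply (q : Quo G M) (p : Quo G M) :
    extChartAt I q p = extChartAt I (lift G q) ((loc G (lift G q)).symm p) := by
  simp only [extChartAt, chartAt_quo, qchart, OpenPartialHomeomorph.extend,
    PartialEquiv.coe_trans, Function.comp, ModelWithCorners.toPartialEquiv_coe,
    OpenPartialHomeomorph.toFun_eq_coe, OpenPartialHomeomorph.coe_trans]

theorem mem_target_quo {q : Quo G M} {z : E} (hz : z ∈ (extChartAt I q).target) :
    z ∈ (extChartAt I (lift G q)).target ∧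
      (extChartAt I (lift G q)).symm z ∈ (loc G (lift G q)).source := by
  rw [extChartAt_target, chartAt_quo] at hz
  obtain ⟨h1, h2⟩ := hz
  have h3 : I.symm z ∈ (chartAt H (lift G q)).target ∧
      (chartAt H (lift G q)).symm (I.symm z) ∈ (loc G (lift G q)).source := by
    have := h1
    simpa [qchart] using this
  refine ⟨?_, ?_⟩
  · rw [extChartAt_target]
    exact ⟨h3.1, h2⟩
  · have := h3.2
    simpa [extChartAt, OpenPartialHomeomorph.extend] using this

variable (I) in
/-- The derivative of the projection, in the coordinates. -/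
theorem hasMFDerivAt_proj (hs : ∀ g : G, ContMDiff I I ∞ (fun x : M => g • x)) (x : M) :
    ∃ g : G, lift G (proj G M x) = g • x ∧
      HasMFDerivAt I I (proj G M) x
        (mfderiv I I (fun y : M => g • y) x : E →L[ℝ] E) := by
  set a : M := lift G (proj G M x) with ha
  have hpa : proj G M a = proj G M x := proj_lift G _
  have hx : proj G M x ∈ (loc G a).target := by
    rw [← hpa, ← coe_loc G a]
    exact (loc G a).map_source (mem_loc G a)
  obtain ⟨g, hg1, hg2⟩ := loc_symm_proj G a x hx
  have hga : a = g • x := by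
    rw [← hg1, ← hpa]
    exact (loc_symm_proj' G a (mem_loc G a)).symm
  refine ⟨g, hga, (continuous_proj G).continuousAt, ?_⟩
  have hd : HasMFDerivAt I I (fun y : M => g • y) x (mfderiv I I (fun y : M => g • y) x) :=
    ((hs g).mdifferentiableAt (by simp)).hasMFDerivAt
  have h2 := hd.2
  refine h2.congr_of_eventuallyEq ?_ ?_
  · have hcont : ContinuousWithinAt (fun z : E => (extChartAt I x).symm z) (range I)
        (extChartAt I x x) := (continuousAt_extChartAt_symm x).continuousWithinAt
    have := hcont.tendsto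
    rw [extChartAt_to_inv] at this
    filter_upwards [this.eventually hg2] with z hz
    simp only [writtenInExtChartAt, Function.comp]
    rw [extChartAt_quo_apply, ← ha, hz, hga]
  · simp only [writtenInExtChartAt, Function.comp, extChartAt_to_inv]
    rw [extChartAt_quo_apply, ← ha, hg1, ← hga]

/-- The descended field of bilinear forms. -/
def dform (B : BilinField I M) : BilinField I (Quo G M) := fun q =>
  (B (lift G q) : E →L[ℝ] E →L[ℝ] ℝ)

/-- The descended field of endomorphisms. -/
def dendo (A : EndoField I M) : EndoField I (Quo G M) := fun q =>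
  (A (lift G q) : E →L[ℝ] E)

variable (G) in
/-- Invariance of a field of bilinear forms. -/
def InvForm (B : BilinField I M) : Prop :=
  ∀ (g : G) (x : M) (v w : TangentSpace I x),
    B (g • x) (mfderiv I I (fun y : M => g • y) x v) (mfderiv I I (fun y : M => g • y) x w)
      = B x v w

variable (G) in
/-- Invariance of a field of endomorphisms. -/
def InvEndo (A : EndoField I M) : Prop :=
  ∀ (g : G) (x : M) (v : TangentSpace I x),
    A (g • x) (mfderiv I I (fun y : M => g • y) x v)
      = mfderiv I I (fun y : M => g • y) x (A x v)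

theorem dform_proj (hs : ∀ g : G, ContMDiff I I ∞ (fun x : M => g • x))
    {B : BilinField I M} (hB : InvForm G B) (x : M) (v w : TangentSpace I x) :
    dform B (proj G M x) (mfderiv I I (proj G M) x v) (mfderiv I I (proj G M) x w) = B x v w := by
  obtain ⟨g, hg, hd⟩ := hasMFDerivAt_proj I hs x
  rw [hd.mfderiv, ← hB g x v w]
  unfold dform
  rw [hg]
  rfl

theorem dendo_proj (hs : ∀ g : G, ContMDiff I I ∞ (fun x : M => g • x))
    {A : EndoField I M} (hA : InvEndo G A) (x : M) (v : TangentSpace I x) :
    dendo A (proj G M x) (mfderiv I I (proj G M) x v) = mfderiv I I (proj G M) x (A x v) := by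
  obtain ⟨g, hg, hd⟩ := hasMFDerivAt_proj I hs x
  rw [hd.mfderiv]
  have := hA g x v
  rw [← hg] at this
  exact this

theorem contMDiff_proj (hs : ∀ g : G, ContMDiff I I ∞ (fun x : M => g • x)) :
    ContMDiff I I ∞ (proj G M) := by
  intro x
  set a : M := lift G (proj G M x) with ha
  have hpa : proj G M a = proj G M x := proj_lift G _
  have hx : proj G M x ∈ (loc G a).target := by
    rw [← hpa, ← coe_loc G a]
    exact (loc G a).map_source (mem_loc G a)
  obtain ⟨g, hg1, hg2⟩ := loc_symm_proj G a x hx
  have hga : a = g • x := by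
    rw [← hg1, ← hpa]
    exact (loc_symm_proj' G a (mem_loc G a)).symm
  rw [contMDiffAt_iff]
  refine ⟨(continuous_proj G).continuousAt, ?_⟩
  have hd := (contMDiffAt_iff.1 (hs g x)).2
  refine hd.congr_of_eventuallyEq ?_ ?_
  · have hcont : ContinuousWithinAt (fun z : E => (extChartAt I x).symm z) (range I)
        (extChartAt I x x) := (continuousAt_extChartAt_symm x).continuousWithinAt
    have := hcont.tendsto
    rw [extChartAt_to_inv] at this
    filter_upwards [this.eventually hg2] with z hz
    simp only [Function.comp]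
    rw [extChartAt_quo_apply, ← ha, hz, hga]
  · simp only [Function.comp, extChartAt_to_inv]
    rw [extChartAt_quo_apply, ← ha, hg1, ← hga]

variable [IsManifold I ∞ M] [I.Boundaryless]

omit [MulAction G M] hc in
theorem mdiffAt_symm (a : M) {z : E} (hz : z ∈ (extChartAt I a).target) :
    MDifferentiableAt 𝓘(ℝ, E) I (extChartAt I a).symm z := by
  have h1 : ContMDiffOn 𝓘(ℝ, E) I ∞ (extChartAt I a).symm (extChartAt I a).target :=
    contMDiffOn_extChartAt_symm a
  have h2 := h1.contMDiffAt ((isOpen_extChartAt_target a).mem_nhds hz)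
  exact h2.mdifferentiableAt (by simp)

theorem mfderiv_quo_symm (hs : ∀ g : G, ContMDiff I I ∞ (fun x : M => g • x))
    (q : Quo G M) {z : E} (hz : z ∈ (extChartAt I q).target) (v : E) :
    mfderiv 𝓘(ℝ, E) I (extChartAt I q).symm z v
      = mfderiv I I (proj G M) ((extChartAt I (lift G q)).symm z)
          (mfderiv 𝓘(ℝ, E) I (extChartAt I (lift G q)).symm z v) := by
  have h1 := mdiffAt_symm (I := I) (lift G q) (mem_target_quo hz).1
  have h2 : MDifferentiableAt I I (proj G M) ((extChartAt I (lift G q)).symm z) :=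
    ((contMDiff_proj hs) _).mdifferentiableAt (by simp)
  have h3 := mfderiv_comp z h2 h1
  have h4 : ((extChartAt I q).symm : E → Quo G M)
      = (proj G M) ∘ ((extChartAt I (lift G q)).symm : E → M) := extChartAt_quo_symm q
  have h5 : mfderiv 𝓘(ℝ, E) I (extChartAt I q).symm z
      = mfderiv 𝓘(ℝ, E) I ((proj G M) ∘ ((extChartAt I (lift G q)).symm : E → M)) z := by
    rw [← h4]
  have h6 : (mfderiv 𝓘(ℝ, E) I (extChartAt I q).symm z : E →L[ℝ] E) v
      = (mfderiv 𝓘(ℝ, E) I ((proj G M) ∘ ((extChartAt I (lift G q)).symm : E → M)) z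
        : E →L[ℝ] E) v := by rw [h5]; rfl
  rw [h3] at h6
  exact h6

theorem formInChart_dform (hs : ∀ g : G, ContMDiff I I ∞ (fun x : M => g • x))
    {B : BilinField I M} (hB : InvForm G B) (q : Quo G M) {z : E}
    (hz : z ∈ (extChartAt I q).target) :
    formInChart (dform B : BilinField I (Quo G M)) q z = formInChart B (lift G q) z := by
  ext v w
  have h1 := dform_proj hs hB ((extChartAt I (lift G q)).symm z)
    (mfderiv 𝓘(ℝ, E) I (extChartAt I (lift G q)).symm z v)
    (mfderiv 𝓘(ℝ, E) I (extChartAt I (lift G q)).symm z w)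
  have h2 := mfderiv_quo_symm hs q hz v
  have h3 := mfderiv_quo_symm hs q hz w
  have h4 : (extChartAt I q).symm z = proj G M ((extChartAt I (lift G q)).symm z) := by
    rw [extChartAt_quo_symm]
  change (dform B ((extChartAt I q).symm z) : E →L[ℝ] E →L[ℝ] ℝ)
      (mfderiv 𝓘(ℝ, E) I (extChartAt I q).symm z v : E)
      (mfderiv 𝓘(ℝ, E) I (extChartAt I q).symm z w : E) = _
  rw [h2, h3, h4]
  exact h1

theorem endoInChart_dendo (hs : ∀ g : G, ContMDiff I I ∞ (fun x : M => g • x))
    {A : EndoField I M} (hA : InvEndo G A) (q : Quo G M) {z : E}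
    (hz : z ∈ (extChartAt I q).target) :
    endoInChart (dendo A : EndoField I (Quo G M)) q z = endoInChart A (lift G q) z := by
  ext v
  have hzs := mem_target_quo hz
  set y : M := (extChartAt I (lift G q)).symm z with hy
  have h1 := dendo_proj hs hA y
    (mfderiv 𝓘(ℝ, E) I (extChartAt I (lift G q)).symm z v)
  have h2 := mfderiv_quo_symm hs q hz v
  have h4 : (extChartAt I q).symm z = proj G M y := by
    rw [extChartAt_quo_symm]
  change (mvfderiv I (extChartAt I q) ((extChartAt I q).symm z) : E →L[ℝ] E)
    ((dendo A ((extChartAt I q).symm z) : E →L[ℝ] E)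
      (mfderiv 𝓘(ℝ, E) I (extChartAt I q).symm z v : E)) = _
  rw [h2, h4]
  have h5 : (dendo A (proj G M y) : E →L[ℝ] E)
      (mfderiv I I (proj G M) y (mfderiv 𝓘(ℝ, E) I (extChartAt I (lift G q)).symm z v) : E)
      = (mfderiv I I (proj G M) y
        (A y (mfderiv 𝓘(ℝ, E) I (extChartAt I (lift G q)).symm z v)) : E) := h1
  refine (congrArg (mvfderiv I (extChartAt I q) (proj G M y) : E →L[ℝ] E) h5).trans ?_
  -- the chain rule for the chart composed with the projection
  have hM : IsManifold I ∞ (Quo G M) := isManifold_quo I G hs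
  have hyq : proj G M y ∈ (chartAt H q).source := by
    have := (extChartAt I q).map_target hz
    rw [h4] at this
    rwa [extChartAt_source] at this
  have h6 : MDifferentiableAt I 𝓘(ℝ, E) (extChartAt I q) (proj G M y) :=
    (contMDiffAt_extChartAt' hyq : ContMDiffAt I 𝓘(ℝ, E) ∞ _ _).mdifferentiableAt (by simp)
  have h7 : MDifferentiableAt I I (proj G M) y :=
    ((contMDiff_proj hs) _).mdifferentiableAt (by simp)
  have h8 := mfderiv_comp y h6 h7
  have h9 : ((extChartAt I q : Quo G M → E) ∘ proj G M) =ᶠ[𝓝 y] (extChartAt I (lift G q)) := by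
    have : ∀ᶠ x in 𝓝 y, x ∈ (loc G (lift G q)).source :=
      (loc G (lift G q)).open_source.mem_nhds hzs.2
    filter_upwards [this] with x hx
    simp only [Function.comp]
    rw [extChartAt_quo_apply, loc_symm_proj' G _ hx]
  have h10 := h9.mfderiv_eq (I := I) (I' := 𝓘(ℝ, E))
  have h11 : (mfderiv I 𝓘(ℝ, E) (extChartAt I (lift G q)) y : E →L[ℝ] E)
      = (mfderiv I 𝓘(ℝ, E) ((extChartAt I q : Quo G M → E) ∘ proj G M) y : E →L[ℝ] E) := by
    exact h10.symm
  rw [h8] at h11
  have h12 := congrArg (fun L : E →L[ℝ] E =>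
    L (A y (mfderiv 𝓘(ℝ, E) I (extChartAt I (lift G q)).symm z v) : E)) h11
  exact h12.symm

end Pool.Agent.W2helper8.TW
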