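import Mathlib
import Pool.Agent.W2helper8.TW.Desc
import Pool.Agent.W2helper8.TW.Defs

/-!
# The descended structures on the quotient
-/

open scoped Manifold ContDiff Topology
open Set
open Pool.Agent.Helper206.Cover (BilinField EndoField formInChart endoInChart)
open Pool.Agent.Helper206.Rat (SymplecticForm AlmostComplex IsCompatible IsHolomorphic)

noncomputable section

namespace Pool.Agent.W2helper8.TW

variable {E : Type*} [NormedAddCommGroup E] [NormedSpace ℝ E] {H : Type*} [TopologicalSpace H]
  {I : ModelWithCorners ℝ E H} {G : Type*} [Group G] {M : Type*} [TopologicalSpace M]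
  [MulAction G M] [ChartedSpace H M] [hc : IsCov G M] [IsManifold I ∞ M] [I.Boundaryless]

theorem target_quo_subset (q : Quo G M) :
    (extChartAt I q).target ⊆ (extChartAt I (lift G q)).target :=
  fun _ hz => (mem_target_quo hz).1

theorem isOpen_target_quo (q : Quo G M) : IsOpen (extChartAt I q).target :=
  isOpen_extChartAt_target q

/-- The symplectic form of the quotient. -/
def dSymp (hs : ∀ g : G, ContMDiff I I ∞ (fun x : M => g • x)) (Ω : SymplecticForm I M)
    (hΩ : InvForm G Ω.form) : SymplecticForm I (Quo G M) where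
  form := dform Ω.form
  alt q v := Ω.alt (lift G q) v
  smooth q := by
    refine ((Ω.smooth (lift G q)).mono (target_quo_subset q)).congr ?_
    intro z hz
    exact formInChart_dform hs hΩ q hz
  closed q z hz a b c := by
    have hev : formInChart (dform Ω.form : BilinField I (Quo G M)) q
        =ᶠ[𝓝 z] formInChart Ω.form (lift G q) := by
      filter_upwards [(isOpen_target_quo q).mem_nhds hz] with y hy
      exact formInChart_dform hs hΩ q hy
    rw [hev.fderiv_eq]
    exact Ω.closed (lift G q) z (target_quo_subset q hz) a b c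
  nondegenerate q v h := Ω.nondegenerate (lift G q) v h

/-- The almost complex structure of the quotient. -/
def dAC (hs : ∀ g : G, ContMDiff I I ∞ (fun x : M => g • x)) (J : AlmostComplex I M)
    (hJ : InvEndo G J.J) : AlmostComplex I (Quo G M) where
  J := dendo J.J
  smooth q := by
    refine ((J.smooth (lift G q)).mono (target_quo_subset q)).congr ?_
    intro z hz
    exact endoInChart_dendo hs hJ q hz
  sq q v := J.sq (lift G q) v

theorem dAC_compatible (hs : ∀ g : G, ContMDiff I I ∞ (fun x : M => g • x))
    (Ω : SymplecticForm I M) (hΩ : InvForm G Ω.form) (J : AlmostComplex I M)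
    (hJ : InvEndo G J.J) (h : IsCompatible Ω J) : IsCompatible (dSymp hs Ω hΩ) (dAC hs J hJ) :=
  ⟨fun q v w => h.1 (lift G q) v w, fun q v hv => h.2 (lift G q) v hv⟩

/-- The descended field of trilinear forms. -/
def dtri (T : TriField I M) : TriField I (Quo G M) := fun q =>
  (T (lift G q) : E →L[ℝ] E →L[ℝ] E →L[ℝ] ℂ)

variable (G) in
/-- Invariance of a field of trilinear forms. -/
def InvTri (T : TriField I M) : Prop :=
  ∀ (g : G) (x : M) (u v w : TangentSpace I x),
    T (g • x) (mfderiv I I (fun y : M => g • y) x u) (mfderiv I I (fun y : M => g • y) x v)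
      (mfderiv I I (fun y : M => g • y) x w) = T x u v w

omit [IsManifold I ∞ M] [I.Boundaryless] in
theorem dtri_proj (hs : ∀ g : G, ContMDiff I I ∞ (fun x : M => g • x))
    {T : TriField I M} (hT : InvTri G T) (x : M) (u v w : TangentSpace I x) :
    dtri T (proj G M x) (mfderiv I I (proj G M) x u) (mfderiv I I (proj G M) x v)
      (mfderiv I I (proj G M) x w) = T x u v w := by
  obtain ⟨g, hg, hd⟩ := hasMFDerivAt_proj I hs x
  rw [hd.mfderiv, ← hT g x u v w]
  unfold dtri
  rw [hg]
  rfl

theorem triInChart_dtri (hs : ∀ g : G, ContMDiff I I ∞ (fun x : M => g • x))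
    {T : TriField I M} (hT : InvTri G T) (q : Quo G M) (a b c : E) {z : E}
    (hz : z ∈ (extChartAt I q).target) :
    triInChart (dtri T : TriField I (Quo G M)) q a b c z = triInChart T (lift G q) a b c z := by
  have h1 := dtri_proj hs hT ((extChartAt I (lift G q)).symm z)
    (mfderiv 𝓘(ℝ, E) I (extChartAt I (lift G q)).symm z a)
    (mfderiv 𝓘(ℝ, E) I (extChartAt I (lift G q)).symm z b)
    (mfderiv 𝓘(ℝ, E) I (extChartAt I (lift G q)).symm z c)
  have h4 : (extChartAt I q).symm z = proj G M ((extChartAt I (lift G q)).symm z) := by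
    rw [extChartAt_quo_symm]
  change (dtri T ((extChartAt I q).symm z) : E →L[ℝ] E →L[ℝ] E →L[ℝ] ℂ)
      (mfderiv 𝓘(ℝ, E) I (extChartAt I q).symm z a : E)
      (mfderiv 𝓘(ℝ, E) I (extChartAt I q).symm z b : E)
      (mfderiv 𝓘(ℝ, E) I (extChartAt I q).symm z c : E) = _
  rw [mfderiv_quo_symm hs q hz a, mfderiv_quo_symm hs q hz b, mfderiv_quo_symm hs q hz c, h4]
  exact h1

/-- The complex volume form of the quotient. -/
def dVol (hs : ∀ g : G, ContMDiff I I ∞ (fun x : M => g • x)) (J : AlmostComplex I M)
    (hJ : InvEndo G J.J) (V : ComplexVolume J) (hV : InvTri G V.form) :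
    ComplexVolume (dAC hs J hJ) where
  form := dtri V.form
  alt₁ q := V.alt₁ (lift G q)
  alt₂ q := V.alt₂ (lift G q)
  type q := V.type (lift G q)
  ne_zero q := V.ne_zero (lift G q)
  smooth q a b c := by
    refine ((V.smooth (lift G q) a b c).mono (target_quo_subset q)).congr ?_
    intro z hz
    exact triInChart_dtri hs hV q a b c hz

section Curve

variable {E' : Type*} [NormedAddCommGroup E'] [NormedSpace ℝ E'] {H' : Type*}
  [TopologicalSpace H'] {I' : ModelWithCorners ℝ E' H'} {S : Type*} [TopologicalSpace S]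
  [ChartedSpace H' S]

/-- Holomorphic curves descend to the quotient. -/
theorem holomorphic_proj (hs : ∀ g : G, ContMDiff I I ∞ (fun x : M => g • x))
    (J : AlmostComplex I M) (hJ : InvEndo G J.J) {j : EndoField I' S} {u : S → M}
    (hu : IsHolomorphic j J u) : IsHolomorphic j (dAC hs J hJ) (proj G M ∘ u) := by
  refine ⟨(contMDiff_proj hs).comp hu.1, ?_⟩
  intro z w
  have h1 : MDifferentiableAt I I (proj G M) (u z) :=
    ((contMDiff_proj hs) _).mdifferentiableAt (by simp)
  have h2 : MDifferentiableAt I' I u z := (hu.1 z).mdifferentiableAt (by simp)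
  rw [mfderiv_comp z h1 h2]
  change mfderiv I I (proj G M) (u z) (mfderiv I' I u z (j z w))
    = (dAC hs J hJ).J (proj G M (u z)) (mfderiv I I (proj G M) (u z) (mfderiv I' I u z w))
  rw [hu.2 z w]
  exact (dendo_proj hs hJ (u z) (mfderiv I' I u z w)).symm

end Curve

end Pool.Agent.W2helper8.TW
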