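import Mathlib
import Pool.Agent.W2helper8.TW.AmbTwo
import Pool.Agent.W2helper8.TW.DescTwo

/-!
# Invariance of pulled back tensors
-/

open scoped Manifold ContDiff Topology
open Set
open Pool.Agent.Helper206.Cover (BilinField EndoField formInChart endoInChart)
open Pool.Agent.Helper206.Rat (SymplecticForm AlmostComplex IsCompatible IsHolomorphic)

noncomputable section

namespace Pool.Agent.W2helper8.TW

variable {E : Type*} [NormedAddCommGroup E] [NormedSpace ℝ E]
  {H : Type*} [TopologicalSpace H]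
  {I : ModelWithCorners ℝ E H} {M : Type*} [TopologicalSpace M]
  [ChartedSpace H M]
  {V : Type*} [NormedAddCommGroup V] [NormedSpace ℝ V]
  {G : Type*} [Group G] [MulAction G M]

theorem mvfderiv_smul_apply (hs : ∀ g : G, ContMDiff I I ∞ (fun x : M => g • x))
    {F : M → V} (hF : ContMDiff I 𝓘(ℝ, V) ∞ F) (g : G) (R : V →L[ℝ] V)
    (hR : ∀ x : M, F (g • x) = R (F x)) (x : M) (v : TangentSpace I x) :
    mvfderiv I F (g • x) (mfderiv I I (fun y : M => g • y) x v) = R (mvfderiv I F x v) := by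
  have h1 : MDifferentiableAt I 𝓘(ℝ, V) F (g • x) := (hF _).mdifferentiableAt (by simp)
  have h2 : MDifferentiableAt I I (fun y : M => g • y) x := ((hs g) _).mdifferentiableAt (by simp)
  have h3 : MDifferentiableAt I 𝓘(ℝ, V) F x := (hF _).mdifferentiableAt (by simp)
  have h4 : MDifferentiableAt 𝓘(ℝ, V) 𝓘(ℝ, V) (R : V → V) (F x) :=
    R.contMDiff.mdifferentiableAt (n := ∞) (by simp)
  have h5 := mfderiv_comp x h1 h2
  have h6 := mfderiv_comp x h4 h3
  have h7 : (F ∘ fun y : M => g • y) = (R : V → V) ∘ F := by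
    funext y
    exact hR y
  have h8 : mfderiv 𝓘(ℝ, V) 𝓘(ℝ, V) (R : V → V) (F x) = R := by
    rw [mfderiv_eq_fderiv, ContinuousLinearMap.fderiv]
  have h9 : (mfderiv I 𝓘(ℝ, V) (F ∘ fun y : M => g • y) x : E →L[ℝ] V)
      = (mfderiv I 𝓘(ℝ, V) ((R : V → V) ∘ F) x : E →L[ℝ] V) := by rw [h7]
  rw [h5, h6, h8] at h9
  exact congrArg (fun L : E →L[ℝ] V => L v) h9

variable [FiniteDimensional ℝ E] [I.Boundaryless] [IsManifold I ∞ M] [FiniteDimensional ℝ V]
  {F : M → V} (D : AmbData I F)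

namespace AmbData

theorem invForm (hs : ∀ g : G, ContMDiff I I ∞ (fun x : M => g • x))
    (R : G → V →L[ℝ] V) (hR : ∀ (g : G) (x : M), F (g • x) = R g (F x))
    (hB : ∀ (g : G) (q a b : V), D.B (R g q) (R g a) (R g b) = D.B q a b) :
    InvForm G D.symp.form := by
  intro g x v w
  change D.form _ _ _ = D.form _ _ _
  rw [form_apply, form_apply, mvfderiv_smul_apply hs D.hF g (R g) (hR g),
    mvfderiv_smul_apply hs D.hF g (R g) (hR g), hR, hB]

theorem invEndo (hs : ∀ g : G, ContMDiff I I ∞ (fun x : M => g • x))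
    (R : G → V →L[ℝ] V) (hR : ∀ (g : G) (x : M), F (g • x) = R g (F x))
    (hA : ∀ (g : G) (q a : V), D.A (R g q) (R g a) = R g (D.A q a)) :
    InvEndo G D.ac.J := by
  intro g x v
  change D.J _ _ = mfderiv I I (fun y : M => g • y) x (D.J x v)
  apply D.inj (g • x)
  rw [J_spec, mvfderiv_smul_apply hs D.hF g (R g) (hR g),
    mvfderiv_smul_apply hs D.hF g (R g) (hR g), J_spec, hR, hA]

theorem invTri (hs : ∀ g : G, ContMDiff I I ∞ (fun x : M => g • x))
    (R : G → V →L[ℝ] V) (hR : ∀ (g : G) (x : M), F (g • x) = R g (F x))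
    (hT : ∀ (g : G) (q a b c : V), D.T (R g q) (R g a) (R g b) (R g c) = D.T q a b c) :
    InvTri G D.vol.form := by
  intro g x u v w
  change D.tri _ _ _ _ = D.tri _ _ _ _
  rw [tri_apply, tri_apply, mvfderiv_smul_apply hs D.hF g (R g) (hR g),
    mvfderiv_smul_apply hs D.hF g (R g) (hR g), mvfderiv_smul_apply hs D.hF g (R g) (hR g), hR,
    hT]

end AmbData

end Pool.Agent.W2helper8.TW
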