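import Mathlib
import Pool.Agent.Helper206.Cover.Defs

/-!
# Matrices: left multiplications by imaginary quaternions and boosts
-/

open scoped Matrix
open Matrix
open Pool.Agent.Helper206.Cover (R3 cross)

noncomputable section

namespace Pool.Agent.W2helper8.TW

/-- four-space -/
abbrev R4 : Type := EuclideanSpace ℝ (Fin 4)
/-- the index type -/
abbrev Ix : Type := Unit ⊕ Fin 4
/-- four by four matrices -/
abbrev M4 : Type := Matrix (Fin 4) (Fin 4) ℝ
/-- the matrices -/
abbrev V : Type := Matrix Ix Ix ℝ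

/-- left multiplication by the imaginary quaternion `u` -/
def Lm (u : R3) : M4 :=
  !![0, -u 0, -u 1, -u 2; u 0, 0, -u 2, u 1; u 1, u 2, 0, -u 0; u 2, -u 1, u 0, 0]

theorem Lm_add (u v : R3) : Lm (u + v) = Lm u + Lm v := by
  ext i j; fin_cases i <;> fin_cases j <;> simp [Lm] <;> ring

theorem Lm_smul (c : ℝ) (u : R3) : Lm (c • u) = c • Lm u := by
  ext i j; fin_cases i <;> fin_cases j <;> simp [Lm]

theorem Lm_transpose (u : R3) : (Lm u)ᵀ = -Lm u := by
  ext i j; fin_cases i <;> fin_cases j <;> simp [Lm]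

theorem Lm_mul (u v : R3) : Lm u * Lm v = -(inner ℝ u v) • (1 : M4) + Lm (cross u v) := by
  ext i j
  fin_cases i <;> fin_cases j <;>
    simp [Lm, Matrix.mul_apply, Fin.sum_univ_four, Fin.sum_univ_three, cross, PiLp.inner_apply] <;>
    ring

theorem Lm_inj {u v : R3} (h : Lm u = Lm v) : u = v := by
  ext i
  fin_cases i
  · have := congrFun (congrFun h 1) 0; simpa [Lm] using this
  · have := congrFun (congrFun h 2) 0; simpa [Lm] using this
  · have := congrFun (congrFun h 3) 0; simpa [Lm] using this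

theorem Lm_zero : Lm 0 = 0 := by
  ext i j; fin_cases i <;> fin_cases j <;> simp [Lm]

/-- the self-dual part of a skew matrix -/
def sdp (D : M4) : R3 :=
  !₂[(D 1 0 + D 3 2) / 2, (D 2 0 + D 1 3) / 2, (D 3 0 + D 2 1) / 2]

/-- the skew matrix with the given entries below the diagonal -/
def skewM (a b c d e f : ℝ) : M4 :=
  !![0, -a, -b, -c; a, 0, -d, -e; b, d, 0, -f; c, e, f, 0]

theorem eq_skewM {D : M4} (hD : Dᵀ = -D) :
    D = skewM (D 1 0) (D 2 0) (D 3 0) (D 2 1) (D 3 1) (D 3 2) := by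
  have h : ∀ i j, D i j = -D j i := by
    intro i j
    have := congrFun (congrFun hD j) i
    simpa using this
  have h0 : ∀ i, D i i = 0 := fun i => by have := h i i; linarith
  ext i j
  fin_cases i <;> fin_cases j <;> simp [skewM, h0]
  · exact h 0 1
  · exact h 0 2
  · exact h 0 3
  · exact h 1 2
  · exact h 1 3
  · exact h 2 3

theorem comm_skew {D : M4} (hD : Dᵀ = -D) (u : R3) :
    D * Lm u - Lm u * D = Lm ((2 : ℝ) • cross (sdp D) u) := by
  rw [eq_skewM hD]
  generalize D 1 0 = a, D 2 0 = b, D 3 0 = c, D 2 1 = d, D 3 1 = e, D 3 2 = f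
  ext i j
  fin_cases i <;> fin_cases j <;>
    simp [Lm, sdp, skewM, Matrix.mul_apply, Fin.sum_univ_four, cross] <;> ring

end Pool.Agent.W2helper8.TW
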