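import Mathlib
import Pool.Agent.W2helper8.TW.Alg

/-!
# Block matrices
-/

open scoped Matrix
open Matrix
open Pool.Agent.Helper206.Cover (R3 cross)

noncomputable section

namespace Pool.Agent.W2helper8.TW

/-- row -/
def rw' (y : R4) : Matrix Unit (Fin 4) ℝ := Matrix.of fun _ j => y j
/-- column -/
def cl (y : R4) : Matrix (Fin 4) Unit ℝ := Matrix.of fun i _ => y i
/-- scalar -/
def sc (c : ℝ) : Matrix Unit Unit ℝ := Matrix.of fun _ _ => c

@[simp] theorem rw'_apply (y : R4) (i : Unit) (j : Fin 4) : rw' y i j = y j := rfl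
@[simp] theorem cl_apply (y : R4) (i : Fin 4) (j : Unit) : cl y i j = y i := rfl
@[simp] theorem sc_apply (c : ℝ) (i j : Unit) : sc c i j = c := rfl

/-- the action of the imaginary quaternion `u` on `R4` -/
def act (u : R3) (y : R4) : R4 :=
  !₂[-(u 0 * y 1 + u 1 * y 2 + u 2 * y 3), u 0 * y 0 - u 2 * y 2 + u 1 * y 3,
    u 1 * y 0 + u 2 * y 1 - u 0 * y 3, u 2 * y 0 - u 1 * y 1 + u 0 * y 2]

theorem Lm_mul_cl (u : R3) (y : R4) : Lm u * cl y = cl (act u y) := by
  ext i j
  fin_cases i <;> simp [Lm, act, Matrix.mul_apply, Fin.sum_univ_four] <;> ring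

theorem rw_mul_Lm (u : R3) (y : R4) : rw' y * Lm u = rw' (-act u y) := by
  ext i j
  fin_cases j <;> simp [Lm, act, Matrix.mul_apply, Fin.sum_univ_four] <;> ring

theorem rw_mul_cl (y z : R4) : rw' y * cl z = sc (inner ℝ y z) := by
  ext i j
  simp [Matrix.mul_apply, Fin.sum_univ_four, PiLp.inner_apply]
  ring

theorem rw_transpose (y : R4) : (rw' y)ᵀ = cl y := rfl
theorem cl_transpose (y : R4) : (cl y)ᵀ = rw' y := rfl
theorem rw_add (y z : R4) : rw' (y + z) = rw' y + rw' z := rfl
theorem cl_add (y z : R4) : cl (y + z) = cl y + cl z := rfl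
theorem rw_smul (c : ℝ) (z : R4) : rw' (c • z) = c • rw' z := rfl
theorem cl_smul (c : ℝ) (z : R4) : cl (c • z) = c • cl z := rfl
theorem rw_neg (z : R4) : rw' (-z) = -rw' z := rfl
theorem cl_neg (z : R4) : cl (-z) = -cl z := rfl
theorem rw_zero : rw' 0 = 0 := rfl
theorem cl_zero : cl 0 = 0 := rfl
theorem sc_mul (a b : ℝ) : sc a * sc b = sc (a * b) := by ext; simp [Matrix.mul_apply]
theorem sc_add (a b : ℝ) : sc a + sc b = sc (a + b) := rfl
theorem sc_neg (a : ℝ) : -sc a = sc (-a) := rfl
theorem sc_zero : sc 0 = 0 := rfl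
theorem sc_one : sc 1 = 1 := by ext; simp
theorem sc_transpose (a : ℝ) : (sc a)ᵀ = sc a := rfl
theorem sc_mul_rw (a : ℝ) (y : R4) : sc a * rw' y = a • rw' y := by ext; simp [Matrix.mul_apply]
theorem cl_mul_sc (a : ℝ) (y : R4) : cl y * sc a = a • cl y := by
  ext; simp [Matrix.mul_apply]; ring
theorem trace_sc (a : ℝ) : (sc a).trace = a := by simp [Matrix.trace]
theorem trace_cl_rw (y z : R4) : (cl y * rw' z).trace = inner ℝ z y := by
  rw [Matrix.trace_mul_comm, rw_mul_cl, trace_sc]

theorem inner_act (u v : R3) (y z : R4) :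
    inner ℝ (act u y) (act v z) + inner ℝ (act v y) (act u z)
      = 2 * inner ℝ u v * inner ℝ y z := by
  simp [act, PiLp.inner_apply, Fin.sum_univ_four, Fin.sum_univ_three]
  ring

theorem inner_act_self (u : R3) (y z : R4) :
    inner ℝ (act u y) (act u z) = inner ℝ u u * inner ℝ y z := by
  have := inner_act u u y z
  linarith

theorem inner_act_left (u : R3) (y z : R4) : inner ℝ (act u y) z = -inner ℝ y (act u z) := by
  simp [act, PiLp.inner_apply, Fin.sum_univ_four]
  ring

theorem act_act (u v : R3) (y : R4) :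
    act u (act v y) = -(inner ℝ u v) • y + act (cross u v) y := by
  ext i
  fin_cases i <;>
    simp [act, PiLp.inner_apply, Fin.sum_univ_three, cross] <;> ring

theorem act_add (u : R3) (y z : R4) : act u (y + z) = act u y + act u z := by
  ext i
  fin_cases i <;> simp [act] <;> ring

theorem act_smul (u : R3) (c : ℝ) (z : R4) : act u (c • z) = c • act u z := by
  ext i
  fin_cases i <;> simp [act] <;> ring

theorem act_add' (u v : R3) (y : R4) : act (u + v) y = act u y + act v y := by
  ext i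
  fin_cases i <;> simp [act] <;> ring

theorem act_smul' (u : R3) (c : ℝ) (z : R4) : act (c • u) z = c • act u z := by
  ext i
  fin_cases i <;> simp [act] <;> ring

/-! ### The five by five matrices -/

/-- the quadratic form -/
def eta : V := fromBlocks (-1) 0 0 1

theorem eta_mul_eta : eta * eta = 1 := by
  simp [eta, fromBlocks_multiply]

theorem eta_transpose : etaᵀ = eta := by
  simp [eta, fromBlocks_transpose]

/-- the complex structure of the sphere of radius one, at the base point -/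
def Qm (u : R3) : V := fromBlocks 0 0 0 (Lm u)

/-- infinitesimal boosts -/
def Hm (y : R4) : V := fromBlocks 0 (rw' y) (cl y) 0

theorem Qm_add (u v : R3) : Qm (u + v) = Qm u + Qm v := by
  simp [Qm, Lm_add, fromBlocks_add]

theorem Qm_smul (c : ℝ) (u : R3) : Qm (c • u) = c • Qm u := by
  simp [Qm, Lm_smul, fromBlocks_smul]

theorem Hm_add (y z : R4) : Hm (y + z) = Hm y + Hm z := by
  simp [Hm, rw_add, cl_add, fromBlocks_add]

theorem Hm_smul (c : ℝ) (y : R4) : Hm (c • y) = c • Hm y := by
  simp [Hm, rw_smul, cl_smul, fromBlocks_smul]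

theorem Qm_inj {u v : R3} (h : Qm u = Qm v) : u = v :=
  Lm_inj (fromBlocks_inj.1 h).2.2.2

/-- the isometries -/
def IsIsom (g : V) : Prop := gᵀ * eta * g = eta

/-- the infinitesimal isometries -/
def IsSkew (X : V) : Prop := Xᵀ * eta = -(eta * X)

/-! ### The boosts -/

/-- the time coordinate -/
def t0 (x : R4) : ℝ := Real.sqrt (1 + ‖x‖ ^ 2)

theorem t0_sq (x : R4) : t0 x * t0 x = 1 + ‖x‖ ^ 2 := by
  rw [t0, Real.mul_self_sqrt (by positivity)]

theorem t0_pos (x : R4) : 0 < t0 x := Real.sqrt_pos.2 (by positivity)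

theorem one_le_t0 (x : R4) : 1 ≤ t0 x := by
  rw [t0]
  exact Real.one_le_sqrt.2 (by nlinarith [sq_nonneg ‖x‖])

/-- the boost with `s e₀ = (t₀, x)` -/
def bst (x : R4) : V :=
  fromBlocks (sc (t0 x)) (rw' x) (cl x) (1 + (1 + t0 x)⁻¹ • (cl x * rw' x))

/-- its inverse -/
def bst' (x : R4) : V :=
  fromBlocks (sc (t0 x)) (-rw' x) (-cl x) (1 + (1 + t0 x)⁻¹ • (cl x * rw' x))

theorem bst_transpose (x : R4) : (bst x)ᵀ = bst x := by
  simp [bst, fromBlocks_transpose, sc_transpose, rw_transpose, cl_transpose, transpose_mul]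

theorem bst_eta (x : R4) : eta * bst x * eta = bst' x := by
  simp [bst, bst', eta, fromBlocks_multiply]

theorem norm_aux (x : R4) : inner ℝ x x = t0 x * t0 x - 1 := by
  rw [t0_sq, real_inner_self_eq_norm_sq]; ring

theorem bst_isom_aux (x : R4) : bst x * eta * bst x = eta := by
  have h1 : (1 + t0 x) ≠ 0 := by have := t0_pos x; positivity
  have hn := norm_aux x
  have e1 : rw' x * cl x = sc (t0 x * t0 x - 1) := by rw [rw_mul_cl, hn]
  simp only [bst, eta, fromBlocks_multiply]
  refine fromBlocks_inj.2 ⟨?_, ?_, ?_, ?_⟩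
  · simp only [Matrix.mul_zero, Matrix.mul_one, Matrix.mul_neg,
      Matrix.neg_mul, zero_add, add_zero, sc_mul, e1]
    ext i j
    simp
    ring
  · simp only [Matrix.mul_zero, Matrix.mul_one, Matrix.mul_neg, Matrix.neg_mul,
      zero_add, add_zero, Matrix.mul_add, Matrix.mul_smul, ← Matrix.mul_assoc, e1, sc_mul_rw]
    match_scalars
    field_simp
    ring
  · simp only [Matrix.mul_zero, Matrix.mul_one, Matrix.mul_neg, Matrix.neg_mul,
      zero_add, add_zero, Matrix.add_mul, Matrix.smul_mul, Matrix.one_mul, Matrix.mul_assoc, e1,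
      cl_mul_sc]
    match_scalars
    field_simp
    ring
  · have e2 : cl x * rw' x * (cl x * rw' x) = (t0 x * t0 x - 1) • (cl x * rw' x) := by
      rw [Matrix.mul_assoc, ← Matrix.mul_assoc (rw' x), e1, sc_mul_rw, Matrix.mul_smul]
    simp only [Matrix.mul_zero, Matrix.mul_one, Matrix.mul_neg, Matrix.neg_mul,
      zero_add, add_zero, Matrix.add_mul, Matrix.smul_mul, Matrix.one_mul, Matrix.mul_add,
      Matrix.mul_smul, e2]
    match_scalars <;> field_simp <;> ring

theorem bst_isom (x : R4) : IsIsom (bst x) := by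
  rw [IsIsom, bst_transpose]; exact bst_isom_aux x

theorem bst_mul_bst' (x : R4) : bst x * bst' x = 1 := by
  rw [← bst_eta, ← Matrix.mul_assoc, ← Matrix.mul_assoc, bst_isom_aux, eta_mul_eta]

theorem bst'_mul_bst (x : R4) : bst' x * bst x = 1 := by
  rw [← bst_eta, Matrix.mul_assoc, Matrix.mul_assoc, ← Matrix.mul_assoc (bst x), bst_isom_aux,
    eta_mul_eta]

theorem IsIsom.inv_eq {g : V} (h : IsIsom g) : (eta * gᵀ * eta) * g = 1 := by
  rw [Matrix.mul_assoc, Matrix.mul_assoc, ← Matrix.mul_assoc gᵀ, h, eta_mul_eta]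

theorem IsIsom.mul_inv_eq {g : V} (h : IsIsom g) : g * (eta * gᵀ * eta) = 1 :=
  mul_eq_one_comm.1 h.inv_eq

theorem IsIsom.mul {g h : V} (hg : IsIsom g) (hh : IsIsom h) : IsIsom (g * h) := by
  unfold IsIsom at *
  rw [transpose_mul]
  calc hᵀ * gᵀ * eta * (g * h) = hᵀ * (gᵀ * eta * g) * h := by simp only [Matrix.mul_assoc]
    _ = eta := by rw [hg, hh]

theorem IsIsom.transpose {g : V} (h : IsIsom g) : g * eta * gᵀ = eta := by
  have h1 := h.mul_inv_eq
  calc g * eta * gᵀ = (g * (eta * gᵀ * eta)) * eta := by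
        simp only [Matrix.mul_assoc, eta_mul_eta, Matrix.mul_one]
    _ = eta := by rw [h1, Matrix.one_mul]

theorem bst'_isom (x : R4) : IsIsom (bst' x) := by
  have h := bst_isom x
  unfold IsIsom at *
  rw [← bst_eta, transpose_mul, transpose_mul, eta_transpose, bst_transpose]
  calc eta * (bst x * eta) * eta * (eta * bst x * eta)
      = eta * bst x * (eta * eta) * eta * bst x * eta := by simp only [Matrix.mul_assoc]
    _ = eta * (bst x * eta * bst x) * eta := by
        rw [eta_mul_eta, Matrix.mul_one]; simp only [Matrix.mul_assoc]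
    _ = eta := by rw [bst_isom_aux, eta_mul_eta, Matrix.one_mul]

end Pool.Agent.W2helper8.TW
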