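import Mathlib
import Pool.Agent.W2helper8.TW.Block

/-!
# Rotations of four-space preserve self-duality
-/

open scoped Matrix
open Matrix
open Pool.Agent.Helper206.Cover (R3 cross)

noncomputable section

namespace Pool.Agent.W2helper8.TW

/-- the dual of a skew matrix -/
def dual (A : M4) : M4 := skewM (A 3 2) (-A 3 1) (A 2 1) (A 3 0) (-A 2 0) (A 1 0)

theorem dual_Lm (u : R3) : dual (Lm u) = Lm u := by
  ext i j; fin_cases i <;> fin_cases j <;> simp [Lm, dual, skewM]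

/-- the axis of a matrix -/
def axis (A : M4) : R3 := !₂[A 1 0, A 2 0, A 3 0]

theorem axis_Lm (u : R3) : axis (Lm u) = u := by
  ext i; fin_cases i <;> simp [axis, Lm]

theorem eq_Lm_of_dual {A : M4} (hA : Aᵀ = -A) (h : dual A = A) : A = Lm (axis A) := by
  have e := eq_skewM hA
  have h21 : A 2 1 = A 3 0 := by
    have := congrFun (congrFun h 3) 0
    simpa [dual, skewM] using this
  have h31 : -A 3 1 = A 2 0 := by
    have := congrFun (congrFun h 2) 0
    simpa [dual, skewM] using this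
  have h32 : A 3 2 = A 1 0 := by
    have := congrFun (congrFun h 1) 0
    simpa [dual, skewM] using this
  have h31' : A 3 1 = -A 2 0 := by linarith
  rw [h21, h31', h32] at e
  rw [e]
  ext i j; fin_cases i <;> fin_cases j <;> simp [Lm, axis, skewM]

theorem dual_conj_aux (k A : M4) (hA : Aᵀ = -A) :
    kᵀ * dual (k * A * kᵀ) * k = k.det • dual A := by
  rw [eq_skewM hA]
  generalize A 1 0 = a, A 2 0 = b, A 3 0 = c, A 2 1 = d, A 3 1 = e, A 3 2 = f
  have hd : k.det = k 0 0 * (k 1 1 * (k 2 2 * k 3 3 - k 2 3 * k 3 2)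
      - k 1 2 * (k 2 1 * k 3 3 - k 2 3 * k 3 1) + k 1 3 * (k 2 1 * k 3 2 - k 2 2 * k 3 1))
    - k 0 1 * (k 1 0 * (k 2 2 * k 3 3 - k 2 3 * k 3 2)
      - k 1 2 * (k 2 0 * k 3 3 - k 2 3 * k 3 0) + k 1 3 * (k 2 0 * k 3 2 - k 2 2 * k 3 0))
    + k 0 2 * (k 1 0 * (k 2 1 * k 3 3 - k 2 3 * k 3 1)
      - k 1 1 * (k 2 0 * k 3 3 - k 2 3 * k 3 0) + k 1 3 * (k 2 0 * k 3 1 - k 2 1 * k 3 0))
    - k 0 3 * (k 1 0 * (k 2 1 * k 3 2 - k 2 2 * k 3 1)
      - k 1 1 * (k 2 0 * k 3 2 - k 2 2 * k 3 0) + k 1 2 * (k 2 0 * k 3 1 - k 2 1 * k 3 0)) := by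
    rw [Matrix.det_succ_row_zero]
    simp [Fin.sum_univ_four, Matrix.det_fin_three, Matrix.submatrix, Fin.succAbove]
    ring
  rw [hd]
  ext i j
  fin_cases i <;> fin_cases j <;>
    simp [dual, skewM, Matrix.mul_apply, Fin.sum_univ_four] <;> ring

theorem conj_Lm {k : M4} (hk : kᵀ * k = 1) (hd : k.det = 1) (u : R3) :
    k * Lm u * kᵀ = Lm (axis (k * Lm u * kᵀ)) := by
  have hk' : k * kᵀ = 1 := mul_eq_one_comm.1 hk
  have hs : (k * Lm u * kᵀ)ᵀ = -(k * Lm u * kᵀ) := by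
    rw [transpose_mul, transpose_mul, transpose_transpose, Lm_transpose]
    simp [Matrix.mul_assoc]
  apply eq_Lm_of_dual hs
  have h := dual_conj_aux k (Lm u) (Lm_transpose u)
  rw [hd, one_smul, dual_Lm] at h
  calc dual (k * Lm u * kᵀ)
      = (k * kᵀ) * dual (k * Lm u * kᵀ) * (k * kᵀ) := by rw [hk', Matrix.one_mul, Matrix.mul_one]
    _ = k * (kᵀ * dual (k * Lm u * kᵀ) * k) * kᵀ := by simp only [Matrix.mul_assoc]
    _ = k * Lm u * kᵀ := by rw [h]

end Pool.Agent.W2helper8.TW
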