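import Mathlib
import Pool.Agent.W2helper8.TW.Dual

/-!
# The action of `SO⁺(4,1)` on hyperbolic space and on its twistor space
-/

open scoped Matrix
open Matrix
open Pool.Agent.Helper206.Cover (R3 P1 cross)

noncomputable section

namespace Pool.Agent.W2helper8.TW

/-- the index of the time coordinate -/
abbrev o : Ix := Sum.inl ()

/-- proper orthochronous isometries -/
structure IsSO (g : V) : Prop where
  isom : IsIsom g
  pos : 0 < g o o
  det : g.det = 1

/-- the spatial part of the first column -/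
def col (g : V) : R4 := WithLp.toLp 2 fun i => g (Sum.inr i) o

theorem col_apply (g : V) (i : Fin 4) : col g i = g (Sum.inr i) o := rfl

theorem eta_apply_oo : eta o o = -1 := by simp [eta]

theorem isom_col {g : V} (hg : IsIsom g) : g o o * g o o = 1 + ‖col g‖ ^ 2 := by
  have h := congrFun (congrFun hg o) o
  rw [eta_apply_oo] at h
  simp only [Matrix.mul_apply, Fintype.sum_sum_type, eta, Matrix.fromBlocks_apply₁₁,
    Matrix.fromBlocks_apply₁₂, Matrix.fromBlocks_apply₂₁, Matrix.fromBlocks_apply₂₂,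
    Matrix.transpose_apply, Finset.univ_unique, Finset.sum_singleton, Fin.sum_univ_four,
    Matrix.one_apply, Matrix.neg_apply, Matrix.zero_apply] at h
  rw [EuclideanSpace.norm_sq_eq]
  simp only [Fin.sum_univ_four, col_apply, Real.norm_eq_abs, sq_abs]
  simp at h
  have e : g (Sum.inl PUnit.unit) o = g o o := rfl
  rw [e] at h
  linarith

theorem isom_row {g : V} (hg : IsIsom g) : g o o * g o o = 1 + ‖col gᵀ‖ ^ 2 := by
  have h1 : IsIsom gᵀ := by
    have := hg.transpose
    unfold IsIsom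
    rwa [transpose_transpose]
  have := isom_col h1
  simpa using this

theorem IsIsom.pos_mul {g h : V} (hg : IsIsom g) (hh : IsIsom h) (pg : 0 < g o o)
    (ph : 0 < h o o) : 0 < (g * h) o o := by
  have e : (g * h) o o = g o o * h o o + inner ℝ (col h) (col gᵀ) := by
    simp [Matrix.mul_apply, Fintype.sum_sum_type, PiLp.inner_apply, Fin.sum_univ_four, col_apply]
  have h1 := isom_row hg
  have h2 := isom_col hh
  have h3 : |inner ℝ (col h) (col gᵀ)| ≤ ‖col h‖ * ‖col gᵀ‖ := abs_real_inner_le_norm _ _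
  have h4 : ‖col gᵀ‖ < g o o := by nlinarith [norm_nonneg (col gᵀ)]
  have h5 : ‖col h‖ < h o o := by nlinarith [norm_nonneg (col h)]
  have h6 : ‖col h‖ * ‖col gᵀ‖ < g o o * h o o := by
    rw [mul_comm]
    exact mul_lt_mul'' h4 h5 (norm_nonneg _) (norm_nonneg _)
  have h7 := (abs_le.1 h3).1
  rw [e]
  linarith

theorem IsSO.mul {g h : V} (hg : IsSO g) (hh : IsSO h) : IsSO (g * h) :=
  ⟨hg.isom.mul hh.isom, hg.isom.pos_mul hh.isom hg.pos hh.pos, by
    rw [det_mul, hg.det, hh.det, one_mul]⟩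

theorem bst_oo (x : R4) : bst x o o = t0 x := by simp [bst]
theorem bst'_oo (x : R4) : bst' x o o = t0 x := by simp [bst']
theorem col_bst (x : R4) : col (bst x) = x := by
  ext i; simp [col, bst]

theorem det_bst (x : R4) : (bst x).det = 1 := by
  have hpos := t0_pos x
  have hne : t0 x ≠ 0 := hpos.ne'
  have h1 : 1 + t0 x ≠ 0 := by positivity
  have hi1 : sc (t0 x) * sc (t0 x)⁻¹ = 1 := by rw [sc_mul, mul_inv_cancel₀ hne, sc_one]
  have hi2 : sc (t0 x)⁻¹ * sc (t0 x) = 1 := by rw [sc_mul, inv_mul_cancel₀ hne, sc_one]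
  let _ : Invertible (sc (t0 x)) := ⟨sc (t0 x)⁻¹, hi2, hi1⟩
  have hinv : ⅟(sc (t0 x)) = sc (t0 x)⁻¹ := rfl
  rw [bst, det_fromBlocks₁₁, hinv]
  have e1 : 1 + (1 + t0 x)⁻¹ • (cl x * rw' x) - cl x * sc (t0 x)⁻¹ * rw' x
      = 1 + cl (((1 + t0 x)⁻¹ - (t0 x)⁻¹) • x) * rw' x := by
    rw [cl_mul_sc, cl_smul, Matrix.smul_mul, Matrix.smul_mul, sub_smul]
    abel
  rw [e1, det_one_add_mul_comm, rw_mul_cl]
  have e2 : (1 + sc (inner ℝ x (((1 + t0 x)⁻¹ - (t0 x)⁻¹) • x)) : Matrix Unit Unit ℝ)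
      = sc (1 + ((1 + t0 x)⁻¹ - (t0 x)⁻¹) * (t0 x * t0 x - 1)) := by
    rw [inner_smul_right, norm_aux, ← sc_one, sc_add]
  rw [e2, Matrix.det_unique, Matrix.det_unique]
  simp only [sc_apply]
  field_simp
  ring

theorem det_eta_sq : eta.det * eta.det = 1 := by rw [← det_mul, eta_mul_eta, det_one]

theorem det_bst' (x : R4) : (bst' x).det = 1 := by
  rw [← bst_eta, det_mul, det_mul, det_bst, mul_one, det_eta_sq]

theorem bst_so (x : R4) : IsSO (bst x) :=
  ⟨bst_isom x, by rw [bst_oo]; exact t0_pos x, det_bst x⟩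

theorem bst'_so (x : R4) : IsSO (bst' x) :=
  ⟨bst'_isom x, by rw [bst'_oo]; exact t0_pos x, det_bst' x⟩

/-- the motion of hyperbolic space -/
def mov (g : V) (x : R4) : R4 := col (g * bst x)

theorem oo_eq {g : V} (hg : IsSO g) : g o o = t0 (col g) := by
  have h := isom_col hg.isom
  rw [t0, ← h, Real.sqrt_mul_self hg.pos.le]

/-- the rotation part -/
def rot (g : V) (x : R4) : V := bst' (mov g x) * (g * bst x)

theorem rot_so {g : V} (hg : IsSO g) (x : R4) : IsSO (rot g x) :=
  (bst'_so _).mul (hg.mul (bst_so x))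

/-- an isometry with the same first column as the boost differs by a rotation -/
theorem first_col {h : V} (hh : IsSO h) :
    (∀ i : Fin 4, (bst' (col h) * h) (Sum.inr i) o = 0) ∧ (bst' (col h) * h) o o = 1 := by
  have h1 := bst'_mul_bst (col h)
  have hcol : ∀ j : Ix, h j o = bst (col h) j o := by
    rintro (⟨⟩ | j)
    · rw [show (Sum.inl PUnit.unit : Ix) = o from rfl, bst_oo]; exact oo_eq hh
    · simp [bst, col]
  have key : ∀ j : Ix, (bst' (col h) * h) j o = (1 : V) j o := by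
    intro j
    rw [← h1]
    simp only [Matrix.mul_apply, hcol]
  refine ⟨fun i => ?_, ?_⟩
  · rw [key]; simp
  · rw [key]; simp

/-- The rotation part is a block matrix. -/
theorem rot_block {k : V} (hk : IsSO k) (h1 : ∀ i : Fin 4, k (Sum.inr i) o = 0) (h2 : k o o = 1) :
    k = fromBlocks 1 0 0 k.toBlocks₂₂ ∧ (k.toBlocks₂₂)ᵀ * k.toBlocks₂₂ = 1 ∧
      k.toBlocks₂₂.det = 1 := by
  have hb : k = fromBlocks k.toBlocks₁₁ k.toBlocks₁₂ k.toBlocks₂₁ k.toBlocks₂₂ :=
    (fromBlocks_toBlocks k).symm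
  have e11 : k.toBlocks₁₁ = 1 := by
    ext i j
    change k (Sum.inl i) (Sum.inl j) = _
    have : k (Sum.inl i) (Sum.inl j) = k o o := rfl
    rw [this, h2]; simp
  have e21 : k.toBlocks₂₁ = 0 := by
    ext i j
    exact h1 i
  have hi := hk.isom
  rw [e11, e21] at hb
  have e12 : k.toBlocks₁₂ = 0 := by
    unfold IsIsom at hi
    rw [hb] at hi
    simp only [eta, fromBlocks_transpose, fromBlocks_multiply] at hi
    have := (fromBlocks_inj.1 hi).2.1
    simpa using this
  rw [e12] at hb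
  have hk2 : (k.toBlocks₂₂)ᵀ * k.toBlocks₂₂ = 1 := by
    unfold IsIsom at hi
    rw [hb] at hi
    simp only [eta, fromBlocks_transpose, fromBlocks_multiply] at hi
    have := (fromBlocks_inj.1 hi).2.2.2
    simpa using this
  refine ⟨hb, hk2, ?_⟩
  have hd := hk.det
  rw [hb, det_fromBlocks_zero₂₁] at hd
  simpa using hd

end Pool.Agent.W2helper8.TW
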