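import Mathlib
import Pool.Agent.W2helper8.TW.Act

/-!
# The twistor space of hyperbolic four-space
-/

open scoped Matrix
open Matrix
open Pool.Agent.Helper206.Cover (R3 P1 cross)

noncomputable section

namespace Pool.Agent.W2helper8.TW

/-- The twistor space `R⁴ × S²`. -/
abbrev Mt : Type := R4 × P1

/-- The embedding of the twistor space in the five by five matrices. -/
def Psi (m : Mt) : V := bst m.1 * Qm m.2 * bst' m.1

theorem norm_P1 (u : P1) : inner ℝ (u : R3) (u : R3) = (1 : ℝ) := by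
  have h : ‖(u : R3)‖ = 1 := by simp
  rw [real_inner_self_eq_norm_sq, h, one_pow]

/-- the inverse of an isometry -/
def giv (g : V) : V := eta * gᵀ * eta

theorem giv_mul {g : V} (hg : IsIsom g) : giv g * g = 1 := hg.inv_eq
theorem mul_giv {g : V} (hg : IsIsom g) : g * giv g = 1 := hg.mul_inv_eq

theorem giv_so {g : V} (hg : IsSO g) : IsSO (giv g) := by
  refine ⟨?_, ?_, ?_⟩
  · have h := hg.isom.transpose
    unfold IsIsom giv
    rw [transpose_mul, transpose_mul, eta_transpose, transpose_transpose]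
    calc eta * (g * eta) * eta * (eta * gᵀ * eta) = eta * g * eta * (eta * eta) * gᵀ * eta := by
          simp only [Matrix.mul_assoc]
      _ = eta * (g * eta * gᵀ) * eta := by
          rw [eta_mul_eta, Matrix.mul_one]; simp only [Matrix.mul_assoc]
      _ = eta := by rw [h, eta_mul_eta, Matrix.one_mul]
  · have : giv g o o = g o o := by
      simp [giv, eta, Matrix.mul_apply, Fintype.sum_sum_type]
    rw [this]; exact hg.pos
  · rw [giv, det_mul, det_mul, det_transpose, hg.det, mul_one, det_eta_sq]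

/-- the rotation block -/
def rb (g : V) (x : R4) : M4 := (rot g x).toBlocks₂₂

theorem rot_spec {g : V} (hg : IsSO g) (x : R4) :
    rot g x = fromBlocks 1 0 0 (rb g x) ∧ (rb g x)ᵀ * rb g x = 1 ∧ (rb g x).det = 1 := by
  have h := first_col (hg.mul (bst_so x))
  exact rot_block (rot_so hg x) h.1 h.2

theorem bst_rot {g : V} (x : R4) : bst (mov g x) * rot g x = g * bst x := by
  rw [rot, ← Matrix.mul_assoc, bst_mul_bst', Matrix.one_mul]

/-- the motion of the second coordinate -/
def movu (g : V) (x : R4) (u : R3) : R3 := axis (rb g x * Lm u * (rb g x)ᵀ)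

theorem Lm_movu {g : V} (hg : IsSO g) (x : R4) (u : R3) :
    Lm (movu g x u) = rb g x * Lm u * (rb g x)ᵀ :=
  (conj_Lm (rot_spec hg x).2.1 (rot_spec hg x).2.2 u).symm

theorem norm_movu {g : V} (hg : IsSO g) (x : R4) (u : P1) : movu g x u ∈ Metric.sphere (0 : R3) 1 := by
  have hk := (rot_spec hg x).2.1
  have hk' : rb g x * (rb g x)ᵀ = 1 := mul_eq_one_comm.1 hk
  have h1 : Lm (movu g x u) * Lm (movu g x u) = -1 := by
    rw [Lm_movu hg]
    calc rb g x * Lm u * (rb g x)ᵀ * (rb g x * Lm u * (rb g x)ᵀ)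
        = rb g x * Lm u * ((rb g x)ᵀ * rb g x) * Lm u * (rb g x)ᵀ := by
          simp only [Matrix.mul_assoc]
      _ = rb g x * (Lm u * Lm u) * (rb g x)ᵀ := by
          rw [hk, Matrix.mul_one]; simp only [Matrix.mul_assoc]
      _ = -1 := by
          have hc : cross (u : R3) u = 0 := by
            ext i; fin_cases i <;> simp [cross] <;> ring
          rw [Lm_mul, norm_P1, hc, Lm_zero, add_zero]
          simp [hk']
  have h2 : inner ℝ (movu g x u) (movu g x u) = (1 : ℝ) := by
    rw [Lm_mul] at h1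
    have h3 := congrFun (congrFun h1 0) 0
    have hc : cross (movu g x u) (movu g x u) = 0 := by
      ext i; fin_cases i <;> simp [cross] <;> ring
    rw [hc, Lm_zero] at h3
    simp only [Matrix.add_apply, Matrix.neg_apply, Matrix.smul_apply, Matrix.one_apply_eq,
      smul_eq_mul, mul_one, Matrix.zero_apply, add_zero, neg_mul] at h3
    linarith
  rw [mem_sphere_zero_iff_norm]
  rw [real_inner_self_eq_norm_sq] at h2
  have := norm_nonneg (movu g x u)
  nlinarith

/-- The group `SO⁺(4,1)`. -/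
def SOG : Type := {g : V // IsSO g}

instance : Group SOG where
  mul g h := ⟨g.1 * h.1, g.2.mul h.2⟩
  one := ⟨1, by
    refine ⟨?_, ?_, det_one⟩
    · simp [IsIsom]
    · simp⟩
  inv g := ⟨giv g.1, giv_so g.2⟩
  mul_assoc a b c := Subtype.ext (Matrix.mul_assoc _ _ _)
  one_mul a := Subtype.ext (Matrix.one_mul _)
  mul_one a := Subtype.ext (Matrix.mul_one _)
  inv_mul_cancel a := Subtype.ext (giv_mul a.2.isom)

theorem SOG.coe_mul (g h : SOG) : (g * h).1 = g.1 * h.1 := rfl
theorem SOG.coe_one : (1 : SOG).1 = 1 := rfl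
theorem SOG.coe_inv (g : SOG) : (g⁻¹).1 = giv g.1 := rfl

/-- the motion of the twistor space -/
def tact (g : SOG) (m : Mt) : Mt := (mov g.1 m.1, ⟨movu g.1 m.1 m.2, norm_movu g.2 m.1 m.2⟩)

theorem Psi_tact (g : SOG) (m : Mt) : Psi (tact g m) = g.1 * Psi m * giv g.1 := by
  obtain ⟨h1, h2, h3⟩ := rot_spec g.2 m.1
  have h2' : rb g.1 m.1 * (rb g.1 m.1)ᵀ = 1 := mul_eq_one_comm.1 h2
  have hq : Qm (movu g.1 m.1 m.2) = rot g.1 m.1 * Qm m.2 * fromBlocks 1 0 0 (rb g.1 m.1)ᵀ := by
    rw [h1, Qm, Qm, fromBlocks_multiply, fromBlocks_multiply, Lm_movu g.2]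
    simp
  have hr : rot g.1 m.1 * fromBlocks 1 0 0 (rb g.1 m.1)ᵀ = 1 := by
    rw [h1, fromBlocks_multiply]
    simp [h2']
  have hr' : fromBlocks 1 0 0 (rb g.1 m.1)ᵀ * rot g.1 m.1 = 1 := mul_eq_one_comm.1 hr
  have hb := bst_rot (g := g.1) m.1
  -- the inverse of `g * bst x`
  have hinv : fromBlocks 1 0 0 (rb g.1 m.1)ᵀ * bst' (mov g.1 m.1) = bst' m.1 * giv g.1 := by
    have e1 : (fromBlocks 1 0 0 (rb g.1 m.1)ᵀ * bst' (mov g.1 m.1)) * (g.1 * bst m.1) = 1 := by
      rw [← hb, Matrix.mul_assoc, ← Matrix.mul_assoc (bst' _), bst'_mul_bst, Matrix.one_mul, hr']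
    have e2 : (g.1 * bst m.1) * (bst' m.1 * giv g.1) = 1 := by
      rw [Matrix.mul_assoc, ← Matrix.mul_assoc (bst _), bst_mul_bst', Matrix.one_mul,
        mul_giv g.2.isom]
    calc _ = (fromBlocks 1 0 0 (rb g.1 m.1)ᵀ * bst' (mov g.1 m.1))
          * ((g.1 * bst m.1) * (bst' m.1 * giv g.1)) := by rw [e2, Matrix.mul_one]
      _ = _ := by rw [← Matrix.mul_assoc, e1, Matrix.one_mul]
  change bst (mov g.1 m.1) * Qm (movu g.1 m.1 m.2) * bst' (mov g.1 m.1) = _
  rw [hq]
  calc bst (mov g.1 m.1) * (rot g.1 m.1 * Qm m.2 * fromBlocks 1 0 0 (rb g.1 m.1)ᵀ)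
        * bst' (mov g.1 m.1)
      = (bst (mov g.1 m.1) * rot g.1 m.1) * Qm m.2
        * (fromBlocks 1 0 0 (rb g.1 m.1)ᵀ * bst' (mov g.1 m.1)) := by simp only [Matrix.mul_assoc]
    _ = g.1 * Psi m * giv g.1 := by
        rw [hb, hinv, Psi]; simp only [Matrix.mul_assoc]

theorem Psi_injective : Function.Injective Psi := by
  rintro ⟨x, u⟩ ⟨y, w⟩ h
  have h0 : bst x * Qm u * bst' x = bst y * Qm w * bst' y := h
  set k : V := bst' x * bst y with hk
  have hkso : IsSO k := (bst'_so x).mul (bst_so y)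
  have e1 : Qm u * k = k * Qm w := by
    calc Qm u * k = (bst' x * bst x) * Qm u * (bst' x * bst y) := by
          rw [bst'_mul_bst, Matrix.one_mul]
      _ = bst' x * (bst x * Qm u * bst' x) * bst y := by simp only [Matrix.mul_assoc]
      _ = bst' x * (bst y * Qm w * bst' y) * bst y := by rw [h0]
      _ = bst' x * bst y * Qm w * (bst' y * bst y) := by simp only [Matrix.mul_assoc]
      _ = k * Qm w := by rw [bst'_mul_bst, Matrix.mul_one]
  have e2 : act u (col k) = 0 := by
    have e3 : Lm u * cl (col k) = 0 := by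
      have hkb : k = fromBlocks k.toBlocks₁₁ k.toBlocks₁₂ k.toBlocks₂₁ k.toBlocks₂₂ :=
        (fromBlocks_toBlocks k).symm
      rw [hkb, Qm, Qm, fromBlocks_multiply, fromBlocks_multiply] at e1
      have e4 := (fromBlocks_inj.1 e1).2.2.1
      have e5 : k.toBlocks₂₁ = cl (col k) := by
        ext i j; rfl
      rw [e5] at e4
      simpa using e4
    rw [Lm_mul_cl] at e3
    ext i
    exact congrFun (congrFun e3 i) ()
  have e6 : ‖col k‖ ^ 2 = 0 := by
    have := inner_act_self (u : R3) (col k) (col k)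
    rw [e2, norm_P1, one_mul, inner_zero_left, real_inner_self_eq_norm_sq] at this
    exact this.symm
  have e7 : col k = 0 := by
    rw [sq_eq_zero_iff, norm_eq_zero] at e6; exact e6
  have e8 : k o o = 1 := by
    rw [oo_eq hkso, t0, e7]; simp
  have e9 : bst y = bst x * k := by
    rw [hk, ← Matrix.mul_assoc, bst_mul_bst', Matrix.one_mul]
  have e10 : y = x := by
    rw [← col_bst y, ← col_bst x, e9]
    ext i
    simp only [col_apply, Matrix.mul_apply, Fintype.sum_sum_type]
    have hz : ∀ j : Fin 4, k (Sum.inr j) o = 0 := fun j => by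
      have := congrArg (fun z : R4 => z j) e7
      simpa [col_apply] using this
    have h1 : k (Sum.inl PUnit.unit) o = 1 := e8
    simp [hz, h1]
  subst e10
  have e11 : Qm u = Qm w := by
    calc Qm u = (bst' y * bst y) * Qm u * (bst' y * bst y) := by
          rw [bst'_mul_bst, Matrix.one_mul, Matrix.mul_one]
      _ = bst' y * (bst y * Qm u * bst' y) * bst y := by simp only [Matrix.mul_assoc]
      _ = bst' y * (bst y * Qm w * bst' y) * bst y := by rw [h0]
      _ = (bst' y * bst y) * Qm w * (bst' y * bst y) := by simp only [Matrix.mul_assoc]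
      _ = Qm w := by rw [bst'_mul_bst, Matrix.one_mul, Matrix.mul_one]
  have e12 : u = w := Subtype.ext (Qm_inj e11)
  rw [e12]

instance : MulAction SOG Mt where
  smul := tact
  one_smul m := by
    apply Psi_injective
    change Psi (tact 1 m) = Psi m
    rw [Psi_tact, SOG.coe_one]
    simp [giv, eta_mul_eta]
  mul_smul g h m := by
    apply Psi_injective
    change Psi (tact (g * h) m) = Psi (tact g (tact h m))
    rw [Psi_tact, Psi_tact, Psi_tact, SOG.coe_mul]
    have : giv (g.1 * h.1) = giv h.1 * giv g.1 := by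
      unfold giv
      rw [transpose_mul]
      calc eta * (h.1ᵀ * g.1ᵀ) * eta = eta * h.1ᵀ * 1 * g.1ᵀ * eta := by
            simp only [Matrix.mul_assoc, Matrix.one_mul]
        _ = _ := by rw [← eta_mul_eta]; simp only [Matrix.mul_assoc]
    rw [this]
    simp only [Matrix.mul_assoc]

theorem smul_def (g : SOG) (m : Mt) : g • m = tact g m := rfl

theorem Psi_smul (g : SOG) (m : Mt) : Psi (g • m) = g.1 * Psi m * giv g.1 := Psi_tact g m

end Pool.Agent.W2helper8.TW
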