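import Mathlib
import Pool.Agent.W2helper8.TW.Twist

/-!
# Smoothness
-/

open scoped Matrix Manifold ContDiff Topology
open Matrix
open Pool.Agent.Helper206.Cover (R3 P1 cross)

noncomputable section

namespace Pool.Agent.W2helper8.TW

/-- the normed algebra of matrices -/
def VV : Type := Matrix Ix Ix ℝ

instance instRingVV : Ring VV := inferInstanceAs (Ring (Matrix Ix Ix ℝ))
instance instAlgebraVV : Algebra ℝ VV := inferInstanceAs (Algebra ℝ (Matrix Ix Ix ℝ))

/-- the operator norm -/
@[instance_reducible] def auxNorm : NormedRing (Matrix Ix Ix ℝ) :=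
  Matrix.linftyOpNormedRing (n := Ix) (α := ℝ)

instance instNormedRingVV : NormedRing VV where
  toRing := instRingVV
  toNorm := auxNorm.toNorm
  toMetricSpace := auxNorm.toMetricSpace
  dist_eq := auxNorm.dist_eq
  norm_mul_le := auxNorm.norm_mul_le

instance instNormedAlgebraVV : NormedAlgebra ℝ VV where
  toAlgebra := instAlgebraVV
  norm_smul_le := (Matrix.linftyOpNormedAlgebra (n := Ix) (R := ℝ) (α := ℝ)).norm_smul_le

instance : FiniteDimensional ℝ VV := inferInstanceAs (FiniteDimensional ℝ (Matrix Ix Ix ℝ))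

section Ent

variable {X : Type*} [NormedAddCommGroup X] [NormedSpace ℝ X]

/-- all entries are smooth -/
def EntS {m n : Type*} (f : X → Matrix m n ℝ) : Prop := ∀ i j, ContDiff ℝ ∞ (fun x => f x i j)

theorem EntS.mul {l m n : Type*} [Fintype m] {f : X → Matrix l m ℝ} {g : X → Matrix m n ℝ}
    (hf : EntS f) (hg : EntS g) : EntS (fun x => f x * g x) := by
  intro i j
  simp only [Matrix.mul_apply]
  exact ContDiff.sum fun k _ => (hf i k).mul (hg k j)

theorem EntS.add {m n : Type*} {f g : X → Matrix m n ℝ}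
    (hf : EntS f) (hg : EntS g) : EntS (fun x => f x + g x) :=
  fun i j => (hf i j).add (hg i j)

theorem EntS.neg {m n : Type*} {f : X → Matrix m n ℝ}
    (hf : EntS f) : EntS (fun x => -f x) :=
  fun i j => (hf i j).neg

theorem EntS.smul {m n : Type*} {f : X → Matrix m n ℝ} {c : X → ℝ} (hc : ContDiff ℝ ∞ c)
    (hf : EntS f) : EntS (fun x => c x • f x) :=
  fun i j => hc.mul (hf i j)

theorem EntS.const {m n : Type*} (A : Matrix m n ℝ) : EntS (fun _ : X => A) :=
  fun _ _ => contDiff_const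

theorem EntS.transpose {m n : Type*} {f : X → Matrix m n ℝ}
    (hf : EntS f) : EntS (fun x => (f x)ᵀ) := fun i j => hf j i

theorem EntS.blocks {l m n o : Type*} {A : X → Matrix n l ℝ} {B : X → Matrix n m ℝ}
    {C : X → Matrix o l ℝ} {D : X → Matrix o m ℝ} (hA : EntS A) (hB : EntS B) (hC : EntS C)
    (hD : EntS D) : EntS (fun x => fromBlocks (A x) (B x) (C x) (D x)) := by
  rintro (i | i) (j | j)
  · exact hA i j
  · exact hB i j
  · exact hC i j
  · exact hD i j

theorem EntS.block22 {l m n o : Type*} {A : X → Matrix (n ⊕ o) (l ⊕ m) ℝ} (hA : EntS A) :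
    EntS (fun x => (A x).toBlocks₂₂) := fun i j => hA (Sum.inr i) (Sum.inr j)

theorem EntS.comp {Y : Type*} [NormedAddCommGroup Y] [NormedSpace ℝ Y] {m n : Type*}
    {f : X → Matrix m n ℝ} (hf : EntS f) {g : Y → X} (hg : ContDiff ℝ ∞ g) :
    EntS (fun y => f (g y)) := fun i j => (hf i j).comp hg

/-- the matrix units -/
def unitM (i j : Ix) : VV := Matrix.single i j (1 : ℝ)

theorem contDiff_of_ent {f : X → VV} (hf : EntS (m := Ix) (n := Ix) f) : ContDiff ℝ ∞ f := by
  have h : f = fun x => ∑ i, ∑ j, f x i j • unitM i j := by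
    funext x
    have h1 : (f x : Matrix Ix Ix ℝ)
        = ∑ i, ∑ j, (f x : Matrix Ix Ix ℝ) i j • Matrix.single i j (1 : ℝ) := by
      conv_lhs => rw [Matrix.matrix_eq_sum_single (f x : Matrix Ix Ix ℝ)]
      refine Finset.sum_congr rfl fun i _ => Finset.sum_congr rfl fun j _ => ?_
      rw [Matrix.smul_single, smul_eq_mul, mul_one]
    exact h1
  rw [h]
  exact ContDiff.sum fun i _ => ContDiff.sum fun j _ => (hf i j).smul contDiff_const

/-- an entry as a linear functional -/
def entL (i j : Ix) : VV →L[ℝ] ℝ :=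
  LinearMap.toContinuousLinearMap
    { toFun := fun A => A i j
      map_add' := fun _ _ => rfl
      map_smul' := fun _ _ => rfl }

theorem entL_apply (i j : Ix) (A : VV) : entL i j A = A i j := rfl

theorem ent_of_contDiff {f : X → VV} (hf : ContDiff ℝ ∞ f) : EntS (m := Ix) (n := Ix) f :=
  fun i j => (entL i j).contDiff.comp hf

end Ent

theorem contDiff_coord4 (i : Fin 4) : ContDiff ℝ ∞ (fun x : R4 => x i) :=
  (EuclideanSpace.proj i : R4 →L[ℝ] ℝ).contDiff

theorem contDiff_coord3 (i : Fin 3) : ContDiff ℝ ∞ (fun x : R3 => x i) :=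
  (EuclideanSpace.proj i : R3 →L[ℝ] ℝ).contDiff

theorem contDiff_t0 : ContDiff ℝ ∞ t0 := by
  have h1 : ContDiff ℝ ∞ (fun x : R4 => 1 + ‖x‖ ^ 2) := contDiff_const.add (contDiff_norm_sq ℝ)
  exact h1.sqrt fun x => by positivity

theorem ent_rw : EntS (rw' : R4 → _) := fun _ j => contDiff_coord4 j
theorem ent_cl : EntS (cl : R4 → _) := fun i _ => contDiff_coord4 i

theorem contDiff_inv_t0 : ContDiff ℝ ∞ (fun x => (1 + t0 x)⁻¹) := by
  refine (contDiff_const.add contDiff_t0).inv fun x => ?_
  have := t0_pos x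
  positivity

theorem ent_bst : EntS bst :=
  EntS.blocks (fun _ _ => contDiff_t0) ent_rw ent_cl
    ((EntS.const 1).add ((ent_cl.mul ent_rw).smul contDiff_inv_t0))

theorem ent_bst' : EntS bst' :=
  EntS.blocks (fun _ _ => contDiff_t0) ent_rw.neg ent_cl.neg
    ((EntS.const 1).add ((ent_cl.mul ent_rw).smul contDiff_inv_t0))

theorem ent_Lm : EntS (Lm : R3 → _) := by
  intro i j
  have h0 := contDiff_coord3 0
  have h1 := contDiff_coord3 1
  have h2 := contDiff_coord3 2
  have hz : ContDiff ℝ ∞ (fun _ : R3 => (0 : ℝ)) := contDiff_const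
  fin_cases i <;> fin_cases j <;>
    first
    | exact hz
    | exact h0
    | exact h1
    | exact h2
    | exact h0.neg
    | exact h1.neg
    | exact h2.neg

theorem ent_Qm : EntS (Qm : R3 → _) :=
  EntS.blocks (EntS.const 0) (EntS.const 0) (EntS.const 0) ent_Lm

/-- the smooth extension of `Psi` -/
def PsiE (p : R4 × R3) : VV := (bst p.1 * Qm p.2 * bst' p.1 : V)

theorem ent_PsiE : EntS (m := Ix) (n := Ix) PsiE :=
  ((ent_bst.comp contDiff_fst).mul (ent_Qm.comp contDiff_snd)).mul (ent_bst'.comp contDiff_fst)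

theorem contDiff_PsiE : ContDiff ℝ ∞ PsiE := contDiff_of_ent ent_PsiE

/-- the boosts in `VV` -/
def bstV (x : R4) : VV := bst x
/-- the boosts in `VV` -/
def bstV' (x : R4) : VV := bst' x

theorem contDiff_bst : ContDiff ℝ ∞ bstV := contDiff_of_ent ent_bst
theorem contDiff_bst' : ContDiff ℝ ∞ bstV' := contDiff_of_ent ent_bst'

theorem contDiff_col {X : Type*} [NormedAddCommGroup X] [NormedSpace ℝ X] {f : X → V}
    (hf : EntS f) : ContDiff ℝ ∞ (fun x => col (f x)) := by
  rw [contDiff_euclidean]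
  exact fun i => hf _ _

theorem ent_mul_bst (g : V) : EntS (fun x => g * bst x) := (EntS.const g).mul ent_bst

theorem contDiff_mov (g : V) : ContDiff ℝ ∞ (mov g) := contDiff_col (ent_mul_bst g)

theorem ent_rot (g : V) : EntS (rot g) := (ent_bst'.comp (contDiff_mov g)).mul (ent_mul_bst g)

theorem ent_rb (g : V) : EntS (rb g) := (ent_rot g).block22

theorem contDiff_movu (g : V) : ContDiff ℝ ∞ (fun p : R4 × R3 => movu g p.1 p.2) := by
  have h : EntS (fun p : R4 × R3 => rb g p.1 * Lm p.2 * (rb g p.1)ᵀ) :=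
    (((ent_rb g).comp contDiff_fst).mul (ent_Lm.comp contDiff_snd)).mul
      ((ent_rb g).transpose.comp contDiff_fst)
  rw [contDiff_euclidean]
  intro i
  fin_cases i
  · exact h 1 0
  · exact h 2 0
  · exact h 3 0

end Pool.Agent.W2helper8.TW
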