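import Mathlib
import Pool.Agent.W2helper8.TW.Smooth
import Pool.Agent.Helper206.Cover.Geometry

/-!
# The derivative of the embedding of the twistor space
-/

open scoped Matrix Manifold ContDiff Topology
open Matrix
open Pool.Agent.Helper206.Cover (R3 P1 cross dInc)

noncomputable section

namespace Pool.Agent.W2helper8.TW

attribute [local irreducible] bst bst' Qm mov movu PsiE

theorem fact3 : Fact (Module.finrank ℝ R3 = 2 + 1) := ⟨by simp⟩

attribute [local instance] fact3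

/-- the model vector space of the twistor space -/
abbrev ET : Type := R4 × EuclideanSpace ℝ (Fin 2)
/-- the model of the twistor space -/
abbrev IT : ModelWithCorners ℝ ET (ModelProd R4 (EuclideanSpace ℝ (Fin 2))) :=
  𝓘(ℝ, R4).prod (𝓡 2)

/-- the inclusion of the twistor space in a vector space -/
def inc (m : Mt) : R4 × R3 := (m.1, (m.2 : R3))

theorem contMDiff_inc : ContMDiff IT 𝓘(ℝ, R4 × R3) ∞ inc :=
  contMDiff_fst.prodMk_space
    ((contMDiff_coe_sphere (n := 2) (E := R3)).comp contMDiff_snd)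

/-- the embedding -/
def PsiV (m : Mt) : VV := Psi m

theorem PsiV_eq (m : Mt) : PsiV m = PsiE (inc m) := by
  unfold PsiE PsiV Psi inc
  rfl

theorem PsiV_comp : PsiV = PsiE ∘ inc := funext PsiV_eq

theorem contMDiff_PsiE : ContMDiff 𝓘(ℝ, R4 × R3) 𝓘(ℝ, VV) ∞ PsiE := contDiff_PsiE.contMDiff

theorem contMDiff_Psi : ContMDiff IT 𝓘(ℝ, VV) ∞ PsiV := by
  rw [PsiV_comp]
  exact contMDiff_PsiE.comp contMDiff_inc

theorem hasMFDerivAt_inc (m : Mt) :
    HasMFDerivAt IT 𝓘(ℝ, R4 × R3) inc m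
      (((ContinuousLinearMap.fst ℝ R4 (EuclideanSpace ℝ (Fin 2))).prod
        ((dInc m.2 : EuclideanSpace ℝ (Fin 2) →L[ℝ] R3).comp
          (ContinuousLinearMap.snd ℝ R4 (EuclideanSpace ℝ (Fin 2))))) : ET →L[ℝ] R4 × R3) := by
  have h1 : HasMFDerivAt IT 𝓘(ℝ, R4) (fun m : Mt => m.1) m
      (ContinuousLinearMap.fst ℝ R4 (EuclideanSpace ℝ (Fin 2))) := hasMFDerivAt_fst (M := R4) m
  have h2 : HasMFDerivAt IT (𝓡 2) (fun m : Mt => m.2) m
      (ContinuousLinearMap.snd ℝ R4 (EuclideanSpace ℝ (Fin 2))) := hasMFDerivAt_snd (M := R4) m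
  have h3 : HasMFDerivAt (𝓡 2) 𝓘(ℝ, R3) (fun z : P1 => (z : R3)) m.2
      (dInc m.2 : EuclideanSpace ℝ (Fin 2) →L[ℝ] R3) :=
    (((contMDiff_coe_sphere (n := 2) (E := R3) (m := ∞)) m.2).mdifferentiableAt
      (by simp)).hasMFDerivAt
  have h4 := h3.comp m h2
  exact ⟨(contMDiff_inc m).continuousAt, h1.2.prodMk h4.2⟩

theorem mvfderiv_Psi (m : Mt) (v : TangentSpace IT m) :
    mvfderiv IT PsiV m v = fderiv ℝ PsiE (inc m) ((v : ET).1, dInc m.2 (v : ET).2) := by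
  have h1 : HasMFDerivAt 𝓘(ℝ, R4 × R3) 𝓘(ℝ, VV) PsiE (inc m) (fderiv ℝ PsiE (inc m)) :=
    ((contDiff_PsiE.differentiable (by simp)) (inc m)).hasFDerivAt.hasMFDerivAt
  have h2 := h1.comp m (hasMFDerivAt_inc m)
  have h3 := h2.mfderiv
  rw [← PsiV_comp] at h3
  have h4 : (mfderiv IT 𝓘(ℝ, VV) PsiV m : ET →L[ℝ] VV)
      = (fderiv ℝ PsiE (inc m)).comp
        (((ContinuousLinearMap.fst ℝ R4 (EuclideanSpace ℝ (Fin 2))).prod
        ((dInc m.2 : EuclideanSpace ℝ (Fin 2) →L[ℝ] R3).comp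
          (ContinuousLinearMap.snd ℝ R4 (EuclideanSpace ℝ (Fin 2))))) : ET →L[ℝ] R4 × R3) := h3
  exact congrArg (fun L : ET →L[ℝ] VV => L v) h4

theorem contMDiff_movu' (g : SOG) :
    ContMDiff IT 𝓘(ℝ, R3) ∞ (fun m : Mt => movu g.1 m.1 m.2) := by
  have e : (fun m : Mt => movu g.1 m.1 m.2) = (fun p : R4 × R3 => movu g.1 p.1 p.2) ∘ inc := rfl
  rw [e]
  exact (contDiff_movu g.1).contMDiff.comp contMDiff_inc

theorem contMDiff_mov' (g : SOG) : ContMDiff IT 𝓘(ℝ, R4) ∞ (fun m : Mt => mov g.1 m.1) := by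
  have e : (fun m : Mt => mov g.1 m.1) = (mov g.1) ∘ Prod.fst := rfl
  rw [e]
  exact (contDiff_mov g.1).contMDiff.comp contMDiff_fst

theorem contMDiff_tact (g : SOG) : ContMDiff IT IT ∞ (tact g) := by
  have h1 := contMDiff_mov' g
  have h2 := contMDiff_movu' g
  have h3 : ContMDiff IT (𝓡 2) ∞
      (fun m : Mt => (⟨movu g.1 m.1 m.2, norm_movu g.2 m.1 m.2⟩ : P1)) :=
    h2.codRestrict_sphere (n := 2) fun m => norm_movu g.2 m.1 m.2
  have e : tact g = fun m : Mt =>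
      ((mov g.1 m.1, (⟨movu g.1 m.1 m.2, norm_movu g.2 m.1 m.2⟩ : P1)) : R4 × P1) := rfl
  rw [e]
  exact h1.prodMk h3

end Pool.Agent.W2helper8.TW
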