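import Mathlib
import Pool.Agent.W2helper8.TW.Deriv

/-!
# The tangent spaces of the twistor space
-/

open scoped Matrix Manifold ContDiff Topology
open Matrix
open Pool.Agent.Helper206.Cover (R3 P1 cross dInc tanProj)

noncomputable section

namespace Pool.Agent.W2helper8.TW

attribute [local instance] fact3

/-- conversion -/
def toV (A : VV) : V := A
/-- conversion -/
def toVV (A : V) : VV := A

theorem toV_mul (A B : VV) : toV (A * B) = toV A * toV B := rfl
theorem toV_add (A B : VV) : toV (A + B) = toV A + toV B := rfl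
theorem toV_sub (A B : VV) : toV (A - B) = toV A - toV B := rfl
theorem toV_neg (A : VV) : toV (-A) = -toV A := rfl
theorem toV_smul (c : ℝ) (A : VV) : toV (c • A) = c • toV A := rfl
theorem toV_one : toV 1 = 1 := rfl
theorem toV_zero : toV 0 = 0 := rfl
theorem toVV_mul (A B : V) : toVV (A * B) = toVV A * toVV B := rfl
theorem toVV_add (A B : V) : toVV (A + B) = toVV A + toVV B := rfl
theorem toVV_sub (A B : V) : toVV (A - B) = toVV A - toVV B := rfl
theorem toVV_neg (A : V) : toVV (-A) = -toVV A := rfl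
theorem toVV_smul (c : ℝ) (A : V) : toVV (c • A) = c • toVV A := rfl
theorem toVV_one : toVV 1 = 1 := rfl
theorem toVV_zero : toVV 0 = 0 := rfl

/-- The derivative of the boost. -/
def dbst (x a : R4) : V := toV (fderiv ℝ bstV x a)

theorem hasDerivAt_line {F : Type*} [NormedAddCommGroup F] [NormedSpace ℝ F]
    {G : Type*} [NormedAddCommGroup G] [NormedSpace ℝ G] {f : F → G} (hf : ContDiff ℝ ∞ f)
    (x a : F) : HasDerivAt (fun t : ℝ => f (x + t • a)) (fderiv ℝ f x a) 0 := by
  have h1 : HasDerivAt (fun t : ℝ => x + t • a) a 0 := by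
    simpa using ((hasDerivAt_id (0 : ℝ)).smul_const a).const_add x
  have h2 : HasFDerivAt f (fderiv ℝ f x) (x + (0 : ℝ) • a) := by
    rw [zero_smul, add_zero]
    exact (hf.differentiable (by simp) x).hasFDerivAt
  exact h2.comp_hasDerivAt (0 : ℝ) h1

/-- `Q` in the normed algebra -/
def QmV (u : R3) : VV := toVV (Qm u)

theorem contDiff_QmV : ContDiff ℝ ∞ QmV := contDiff_of_ent ent_Qm

theorem QmV_line (u w : R3) (t : ℝ) : QmV (u + t • w) = QmV u + t • QmV w := by
  unfold QmV
  rw [Qm_add, Qm_smul]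
  rfl

theorem fderiv_QmV (u w : R3) : fderiv ℝ QmV u w = QmV w := by
  have h1 := hasDerivAt_line contDiff_QmV u w
  have h2 : HasDerivAt (fun t : ℝ => QmV u + t • QmV w) (QmV w) 0 := by
    simpa using ((hasDerivAt_id (0 : ℝ)).smul_const (QmV w)).const_add (QmV u)
  have h3 : (fun t : ℝ => QmV (u + t • w)) = fun t : ℝ => QmV u + t • QmV w :=
    funext (QmV_line u w)
  rw [h3] at h1
  exact h1.unique h2

theorem bstV_mul (x : R4) : bstV x * bstV' x = 1 := bst_mul_bst' x
theorem bstV'_mul (x : R4) : bstV' x * bstV x = 1 := bst'_mul_bst x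

theorem PsiE_def (p : R4 × R3) : PsiE p = bstV p.1 * QmV p.2 * bstV' p.1 := rfl

theorem deriv_bst' (x a : R4) :
    fderiv ℝ bstV' x a = -(bstV' x * fderiv ℝ bstV x a * bstV' x) := by
  have h1 := hasDerivAt_line contDiff_bst x a
  have h2 := hasDerivAt_line contDiff_bst' x a
  have h3 := h1.mul h2
  have h4 : (fun t : ℝ => bstV (x + t • a)) * (fun t : ℝ => bstV' (x + t • a))
      = fun _ => (1 : VV) := funext fun t => bstV_mul _
  rw [h4] at h3
  have h5 := h3.unique (hasDerivAt_const (0 : ℝ) (1 : VV))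
  simp only [zero_smul, add_zero] at h5
  have h6 : bstV x * fderiv ℝ bstV' x a = -(fderiv ℝ bstV x a * bstV' x) :=
    eq_neg_of_add_eq_zero_right h5
  calc fderiv ℝ bstV' x a = (bstV' x * bstV x) * fderiv ℝ bstV' x a := by
        rw [bstV'_mul, one_mul]
    _ = bstV' x * (bstV x * fderiv ℝ bstV' x a) := mul_assoc _ _ _
    _ = _ := by rw [h6, mul_neg, mul_assoc]

/-- the infinitesimal isometry given by the boosts -/
def alp (x a : R4) : VV := bstV' x * fderiv ℝ bstV x a

theorem fderiv_PsiE (x : R4) (u : R3) (a : R4) (w : R3) :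
    fderiv ℝ PsiE (x, u) (a, w)
      = bstV x * (alp x a * QmV u - QmV u * alp x a + QmV w) * bstV' x := by
  have h0 := hasDerivAt_line contDiff_PsiE (x, u) (a, w)
  have h1 := hasDerivAt_line contDiff_bst x a
  have h2 := hasDerivAt_line contDiff_bst' x a
  have h3 := hasDerivAt_line contDiff_QmV u w
  rw [fderiv_QmV] at h3
  have h4 := (h1.mul h3).mul h2
  have h5 : (fun t : ℝ => PsiE ((x, u) + t • (a, w)))
      = ((fun t : ℝ => bstV (x + t • a)) * fun t : ℝ => QmV (u + t • w))
        * fun t : ℝ => bstV' (x + t • a) := by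
    funext t
    rfl
  rw [h5] at h0
  have h6 := h0.unique h4
  rw [h6]
  simp only [zero_smul, add_zero, Pi.mul_apply]
  rw [deriv_bst', alp]
  have e1 := bstV_mul x
  have e2 : bstV x * (bstV' x * fderiv ℝ bstV x a) = fderiv ℝ bstV x a := by
    rw [← mul_assoc, e1, one_mul]
  calc (fderiv ℝ bstV x a * QmV u + bstV x * QmV w) * bstV' x
        + bstV x * QmV u * -(bstV' x * fderiv ℝ bstV x a * bstV' x)
      = (bstV x * (bstV' x * fderiv ℝ bstV x a)) * QmV u * bstV' x
        + bstV x * QmV w * bstV' x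
        - bstV x * (QmV u * (bstV' x * fderiv ℝ bstV x a)) * bstV' x := by
          rw [e2]; noncomm_ring
    _ = _ := by noncomm_ring

theorem dbst_apply (x a : R4) (i j : Ix) :
    dbst x a i j = fderiv ℝ (fun y : R4 => bst y i j) x a := by
  have h1 : HasFDerivAt bstV (fderiv ℝ bstV x) x :=
    (contDiff_bst.differentiable (by simp) x).hasFDerivAt
  have h2 := (entL i j).hasFDerivAt.comp x h1
  have h3 := h2.fderiv
  have h4 : fderiv ℝ (fun y : R4 => bst y i j) x = (entL i j).comp (fderiv ℝ bstV x) := h3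
  rw [h4]
  rfl

theorem bst_symm (y : R4) (i j : Ix) : bst y i j = bst y j i := by
  conv_lhs => rw [← bst_transpose]
  rfl

theorem dbst_transpose (x a : R4) : (dbst x a)ᵀ = dbst x a := by
  ext i j
  rw [Matrix.transpose_apply, dbst_apply, dbst_apply]
  congr 2
  funext y
  exact bst_symm y j i

theorem col_dbst (x a : R4) : col (dbst x a) = a := by
  ext i
  rw [col_apply, dbst_apply]
  have h : (fun y : R4 => bst y (Sum.inr i) o) = fun y : R4 => y i := by
    funext y
    simp [bst]
  rw [h]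
  have := ((EuclideanSpace.proj i : R4 →L[ℝ] ℝ)).fderiv (x := x)
  exact congrArg (fun L : R4 →L[ℝ] ℝ => L a) this

/-- the infinitesimal isometry as a matrix -/
def alpM (x a : R4) : V := bst' x * dbst x a

theorem alp_eq (x a : R4) : alp x a = toVV (alpM x a) := rfl

theorem dbst_rel (x a : R4) : dbst x a * eta * bst x + bst x * eta * dbst x a = 0 := by
  have h1 := hasDerivAt_line contDiff_bst x a
  have h2 := (h1.mul (hasDerivAt_const (0 : ℝ) (toVV eta))).mul h1
  have h4 : ((fun t : ℝ => bstV (x + t • a)) * fun _ => toVV eta)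
      * (fun t : ℝ => bstV (x + t • a)) = fun _ => toVV eta :=
    funext fun t => bst_isom_aux _
  rw [h4] at h2
  have h5 := h2.unique (hasDerivAt_const (0 : ℝ) (toVV eta))
  simp only [zero_smul, add_zero, mul_zero, Pi.mul_apply] at h5
  exact h5

theorem alpM_skew (x a : R4) : (alpM x a)ᵀ * eta = -(eta * alpM x a) := by
  have h := dbst_rel x a
  have e : bst' x = eta * bst x * eta := (bst_eta x).symm
  rw [alpM, e]
  simp only [transpose_mul, eta_transpose, bst_transpose, dbst_transpose]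
  rw [eq_neg_iff_add_eq_zero]
  calc dbst x a * (eta * (bst x * eta)) * eta + eta * (eta * bst x * eta * dbst x a)
      = dbst x a * eta * bst x * (eta * eta) + (eta * eta) * (bst x * eta * dbst x a) := by
        simp only [Matrix.mul_assoc]
    _ = 0 := by rw [eta_mul_eta, Matrix.mul_one, Matrix.one_mul, h]

/-- A skew matrix in block form. -/
theorem skew_blocks {X : V} (h : Xᵀ * eta = -(eta * X)) :
    X = fromBlocks 0 (rw' (col X)) (cl (col X)) X.toBlocks₂₂ ∧
      (X.toBlocks₂₂)ᵀ = -X.toBlocks₂₂ := by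
  have hb : X = fromBlocks X.toBlocks₁₁ X.toBlocks₁₂ X.toBlocks₂₁ X.toBlocks₂₂ :=
    (fromBlocks_toBlocks X).symm
  have h' := h
  rw [hb] at h'
  simp only [eta, fromBlocks_transpose, fromBlocks_multiply, fromBlocks_neg] at h'
  obtain ⟨h11, h12, h21, h22⟩ := fromBlocks_inj.1 h'
  have e21 : X.toBlocks₂₁ = cl (col X) := by ext i j; rfl
  have e11 : X.toBlocks₁₁ = 0 := by
    ext i j
    have := congrFun (congrFun h11 i) j
    simp at this
    have hij : X.toBlocks₁₁ i j = X.toBlocks₁₁ j i := rfl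
    rw [Matrix.zero_apply]
    linarith
  have e12 : X.toBlocks₁₂ = rw' (col X) := by
    ext i j
    have := congrFun (congrFun h21 j) i
    simp at this
    have h2 : X.toBlocks₂₁ j i = col X j := rfl
    rw [rw'_apply]
    linarith
  refine ⟨?_, ?_⟩
  · conv_lhs => rw [hb, e11, e12, e21]
  · simpa using h22

theorem comm_skew5 {X : V} (h : Xᵀ * eta = -(eta * X)) (u : R3) :
    X * Qm u - Qm u * X
      = Hm (-act u (col X)) + Qm ((2 : ℝ) • cross (sdp X.toBlocks₂₂) u) := by
  obtain ⟨hb, hs⟩ := skew_blocks h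
  have hc := comm_skew hs u
  rw [Qm, Hm, Qm, ← hc]
  conv_lhs => rw [hb]
  simp only [fromBlocks_multiply, fromBlocks_add, sub_eq_add_neg, fromBlocks_neg,
    Matrix.mul_zero, Matrix.zero_mul, zero_add, add_zero, rw_mul_Lm, Lm_mul_cl, rw_neg, cl_neg,
    neg_zero]

/-- the horizontal component of a tangent vector -/
def ty (m : Mt) (v : ET) : R4 := -act m.2 (col (alpM m.1 v.1))

/-- the vertical component of a tangent vector -/
def tw (m : Mt) (v : ET) : R3 :=
  (2 : ℝ) • cross (sdp (alpM m.1 v.1).toBlocks₂₂) m.2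
    + dInc m.2 (v.2 : EuclideanSpace ℝ (Fin 2))

/-- the tangent vectors at the base points -/
def tvec (y : R4) (w : R3) : V := Hm y + Qm w

/-- translation of a matrix from the base point -/
def cj (x : R4) (X : V) : V := bst x * X * bst' x

theorem mvfderiv_PsiV (m : Mt) (v : TangentSpace IT m) :
    mvfderiv IT PsiV m v = toVV (cj m.1 (tvec (ty m v) (tw m v))) := by
  rw [mvfderiv_Psi, inc, fderiv_PsiE, alp_eq]
  have h := comm_skew5 (alpM_skew m.1 (v : ET).1) m.2
  have e : toVV (alpM m.1 (v : ET).1) * QmV m.2 - QmV m.2 * toVV (alpM m.1 (v : ET).1)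
      = toVV (Hm (-act m.2 (col (alpM m.1 (v : ET).1)))
        + Qm ((2 : ℝ) • cross (sdp (alpM m.1 (v : ET).1).toBlocks₂₂) m.2)) := by
    rw [← h]
    rfl
  simp only [e]
  have e2 : Hm (-act m.2 (col (alpM m.1 (v : ET).1)))
        + Qm ((2 : ℝ) • cross (sdp (alpM m.1 (v : ET).1).toBlocks₂₂) m.2)
        + Qm (dInc m.2 (v : ET).2) = tvec (ty m v) (tw m v) := by
    unfold tvec tw ty
    rw [Qm_add, add_assoc]
  rw [cj, ← e2]
  rfl

theorem inner_cross_right (a b : R3) : inner ℝ b (cross a b) = (0 : ℝ) := by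
  simp [cross, PiLp.inner_apply, Fin.sum_univ_three]
  ring

theorem inner_cross_left (a b : R3) : inner ℝ a (cross a b) = (0 : ℝ) := by
  simp [cross, PiLp.inner_apply, Fin.sum_univ_three]
  ring

theorem tw_orth (m : Mt) (v : ET) : inner ℝ (m.2 : R3) (tw m v) = (0 : ℝ) := by
  unfold tw
  rw [inner_add_right, inner_smul_right, inner_cross_right, mul_zero, zero_add]
  exact Pool.Agent.Helper206.Cover.inner_dInc m.2 v.2

theorem act_eq_zero {u : P1} {y : R4} (h : act u y = 0) : y = 0 := by
  have h1 := inner_act_self (u : R3) y y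
  rw [h, norm_P1, one_mul, inner_zero_left, real_inner_self_eq_norm_sq] at h1
  have h2 : ‖y‖ ^ 2 = 0 := h1.symm
  rwa [sq_eq_zero_iff, norm_eq_zero] at h2

theorem tan_zero (m : Mt) (v : ET) (hy : ty m v = 0) (hw : tw m v = 0) : v = 0 := by
  have h1 : col (alpM m.1 v.1) = 0 := act_eq_zero (neg_eq_zero.1 hy)
  obtain ⟨hb, -⟩ := skew_blocks (alpM_skew m.1 v.1)
  have h2 : dbst m.1 v.1 = bst m.1 * alpM m.1 v.1 := by
    rw [alpM, ← Matrix.mul_assoc, bst_mul_bst', Matrix.one_mul]
  have h3 : v.1 = 0 := by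
    rw [← col_dbst m.1 v.1, h2, hb, h1, rw_zero, cl_zero]
    ext i
    simp [col, Matrix.mul_apply, Fintype.sum_sum_type]
  have h4 : alpM m.1 v.1 = 0 := by
    rw [h3, alpM, dbst, ContinuousLinearMap.map_zero, toV_zero, Matrix.mul_zero]
  have h5 : dInc m.2 (v.2 : EuclideanSpace ℝ (Fin 2)) = 0 := by
    have h6 : sdp ((0 : V).toBlocks₂₂) = 0 := by
      ext i; fin_cases i <;> simp [sdp, Matrix.toBlocks₂₂]
    have h7 : cross (0 : R3) m.2 = 0 := by
      ext i; fin_cases i <;> simp [cross]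
    unfold tw at hw
    rw [h4, h6, h7, smul_zero, zero_add] at hw
    exact hw
  have h8 : v.2 = 0 := by
    apply Pool.Agent.Helper206.Cover.dInc_injective m.2
    exact h5.trans (map_zero (dInc m.2)).symm
  exact Prod.ext h3 h8

theorem cj_inv (x : R4) (X : V) : bst' x * cj x X * bst x = X := by
  rw [cj]
  calc bst' x * (bst x * X * bst' x) * bst x = (bst' x * bst x) * X * (bst' x * bst x) := by
        simp only [Matrix.mul_assoc]
    _ = X := by rw [bst'_mul_bst, Matrix.one_mul, Matrix.mul_one]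

theorem cj_injective (x : R4) : Function.Injective (cj x) := by
  intro X Y h
  rw [← cj_inv x X, h, cj_inv]

theorem tvec_inj {y y' : R4} {w w' : R3} (h : tvec y w = tvec y' w') : y = y' ∧ w = w' := by
  rw [tvec, tvec, Hm, Qm, Hm, Qm, fromBlocks_add, fromBlocks_add] at h
  obtain ⟨-, -, h3, h4⟩ := fromBlocks_inj.1 h
  rw [add_zero, add_zero] at h3
  rw [zero_add, zero_add] at h4
  refine ⟨?_, Lm_inj h4⟩
  ext i
  exact congrFun (congrFun h3 i) ()

theorem mvfderiv_injective (m : Mt) : Function.Injective (mvfderiv IT PsiV m) := by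
  intro v w h
  have h1 : mvfderiv IT PsiV m (v - w) = 0 := by
    rw [ContinuousLinearMap.map_sub, h, sub_self]
  have h0 : cj m.1 (tvec (ty m (v - w)) (tw m (v - w))) = cj m.1 (tvec 0 0) := by
    have h2 := mvfderiv_PsiV m (v - w)
    rw [h1] at h2
    have h3 : toVV (cj m.1 (tvec (ty m (v - w)) (tw m (v - w)))) = toVV 0 := h2.symm
    have h4 : tvec 0 0 = 0 := by
      simp [tvec, Hm, Qm, Lm_zero, rw_zero, cl_zero]
    rw [h4]
    have h5 : cj m.1 0 = 0 := by simp [cj]
    rw [h5]
    exact h3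
  obtain ⟨hy, hw⟩ := tvec_inj (cj_injective _ h0)
  have := tan_zero m (v - w) hy hw
  exact sub_eq_zero.1 this

theorem tvec_add (y y' : R4) (w w' : R3) : tvec (y + y') (w + w') = tvec y w + tvec y' w' := by
  rw [tvec, tvec, tvec, Hm_add, Qm_add]; abel

theorem tvec_smul (c : ℝ) (y : R4) (w : R3) : tvec (c • y) (c • w) = c • tvec y w := by
  rw [tvec, tvec, Hm_smul, Qm_smul, smul_add]

theorem cj_add (x : R4) (X Y : V) : cj x (X + Y) = cj x X + cj x Y := by
  rw [cj, cj, cj, Matrix.mul_add, Matrix.add_mul]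

theorem cj_smul (x : R4) (c : ℝ) (X : V) : cj x (c • X) = c • cj x X := by
  rw [cj, cj, Matrix.mul_smul, Matrix.smul_mul]

theorem tyw_add (m : Mt) (v w : ET) :
    ty m (v + w) = ty m v + ty m w ∧ tw m (v + w) = tw m v + tw m w := by
  apply tvec_inj
  apply cj_injective m.1
  rw [tvec_add, cj_add]
  have h1 := mvfderiv_PsiV m (v + w)
  have h2 := mvfderiv_PsiV m v
  have h3 := mvfderiv_PsiV m w
  have h4 : mvfderiv IT PsiV m ((v + w : ET) : TangentSpace IT m)
      = mvfderiv IT PsiV m v + mvfderiv IT PsiV m w := (mvfderiv IT PsiV m).map_add v w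
  have h5 : toVV (cj m.1 (tvec (ty m (v + w)) (tw m (v + w))))
      = toVV (cj m.1 (tvec (ty m v) (tw m v))) + toVV (cj m.1 (tvec (ty m w) (tw m w))) := by
    rw [← h1, ← h2, ← h3]
    exact h4
  exact h5

theorem tyw_smul (m : Mt) (c : ℝ) (v : ET) :
    ty m (c • v) = c • ty m v ∧ tw m (c • v) = c • tw m v := by
  apply tvec_inj
  apply cj_injective m.1
  rw [tvec_smul, cj_smul]
  have h1 := mvfderiv_PsiV m (c • v)
  have h2 := mvfderiv_PsiV m v
  have h4 : mvfderiv IT PsiV m ((c • v : ET) : TangentSpace IT m)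
      = c • mvfderiv IT PsiV m v := (mvfderiv IT PsiV m).map_smul c v
  have h5 : toVV (cj m.1 (tvec (ty m (c • v)) (tw m (c • v))))
      = c • toVV (cj m.1 (tvec (ty m v) (tw m v))) := by
    rw [← h1, ← h2]
    exact h4
  exact h5

/-- the coordinates of a tangent vector as a linear map -/
def Lam (m : Mt) : ET →ₗ[ℝ] ET where
  toFun v := (ty m v, (tanProj m.2 (tw m v) : EuclideanSpace ℝ (Fin 2)))
  map_add' v w := by
    rw [(tyw_add m v w).1, (tyw_add m v w).2]
    refine Prod.ext rfl ?_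
    exact (tanProj m.2).map_add _ _
  map_smul' c v := by
    rw [(tyw_smul m c v).1, (tyw_smul m c v).2]
    refine Prod.ext rfl ?_
    exact (tanProj m.2).map_smul _ _

theorem eq_of_tanProj {u : P1} {w w' : R3} (h : inner ℝ (u : R3) w = (0 : ℝ))
    (h' : inner ℝ (u : R3) w' = (0 : ℝ)) (e : tanProj u w = tanProj u w') : w = w' := by
  have h1 := Pool.Agent.Helper206.Cover.dInc_tanProj u w
  have h2 := Pool.Agent.Helper206.Cover.dInc_tanProj u w'
  rw [h, zero_smul, sub_zero] at h1
  rw [h', zero_smul, sub_zero] at h2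
  rw [← h1, ← h2, e]

theorem Lam_injective (m : Mt) : Function.Injective (Lam m) := by
  rw [injective_iff_map_eq_zero]
  intro v hv
  have h1 : ty m v = 0 := congrArg Prod.fst hv
  have h2 : (tanProj m.2 (tw m v) : EuclideanSpace ℝ (Fin 2)) = 0 := congrArg Prod.snd hv
  have h3 : tw m v = 0 := by
    refine eq_of_tanProj (tw_orth m v) (inner_zero_right _) ?_
    exact h2.trans ((tanProj m.2).map_zero).symm
  exact tan_zero m v h1 h3

theorem exists_tan (m : Mt) (y : R4) (w : R3) (hw : inner ℝ (m.2 : R3) w = (0 : ℝ)) :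
    ∃ v : TangentSpace IT m, mvfderiv IT PsiV m v = toVV (cj m.1 (tvec y w)) := by
  have hs : Function.Surjective (Lam m) :=
    LinearMap.injective_iff_surjective.1 (Lam_injective m)
  obtain ⟨v, hv⟩ := hs (y, (tanProj m.2 w : EuclideanSpace ℝ (Fin 2)))
  refine ⟨(v : ET), ?_⟩
  have h1 : ty m v = y := congrArg Prod.fst hv
  have h2 : (tanProj m.2 (tw m v) : EuclideanSpace ℝ (Fin 2)) = tanProj m.2 w :=
    congrArg Prod.snd hv
  have h3 : tw m v = w := eq_of_tanProj (tw_orth m v) hw h2
  have h4 := mvfderiv_PsiV m v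
  rw [h1, h3] at h4
  exact h4

end Pool.Agent.W2helper8.TW
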