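import Mathlib
import Pool.Agent.W2helper8.TW.Tan

/-!
# Identities at the base points
-/

open scoped Matrix Manifold ContDiff Topology
open Matrix
open Pool.Agent.Helper206.Cover (R3 P1 cross dInc tanProj)

noncomputable section

namespace Pool.Agent.W2helper8.TW

/-! ### Cross products -/

theorem cross_self (a : R3) : cross a a = 0 := by
  ext i; fin_cases i <;> simp [cross] <;> ring

theorem cross_anti (a b : R3) : cross a b = -cross b a := by
  ext i; fin_cases i <;> simp [cross] <;> ring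

theorem inner3 (a b : R3) : (inner ℝ a b : ℝ) = a 0 * b 0 + a 1 * b 1 + a 2 * b 2 := by
  simp [PiLp.inner_apply, Fin.sum_univ_three]
  ring

theorem cross_cross (u a : R3) :
    cross u (cross u a) = (inner ℝ u a : ℝ) • u - (inner ℝ u u : ℝ) • a := by
  rw [inner3, inner3]
  ext i; fin_cases i <;> simp [cross] <;> ring

theorem cross_triple (u a b : R3) :
    cross u (cross a b) = (inner ℝ u b : ℝ) • a - (inner ℝ u a : ℝ) • b := by
  rw [inner3, inner3]
  ext i; fin_cases i <;> simp [cross] <;> ring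

/-- three vectors orthogonal to a unit vector are dependent -/
theorem triple_zero {u a b c : R3} (hu : inner ℝ u u = (1 : ℝ)) (ha : inner ℝ u a = (0 : ℝ))
    (hb : inner ℝ u b = (0 : ℝ)) (hc : inner ℝ u c = (0 : ℝ)) :
    inner ℝ (cross a b) c = (0 : ℝ) := by
  have h1 := cross_cross u (cross a b)
  have h0 : cross u (cross a b) = 0 := by
    rw [cross_triple, ha, hb, zero_smul, zero_smul, sub_zero]
  rw [h0, hu, one_smul] at h1
  have h2 : cross u (0 : R3) = 0 := by ext i; fin_cases i <;> simp [cross]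
  rw [h2] at h1
  have h3 : cross a b = (inner ℝ u (cross a b) : ℝ) • u := (sub_eq_zero.1 h1.symm).symm
  rw [h3, inner_smul_left, hc, mul_zero]

theorem inner_cross_cross {u a b : R3} (hu : inner ℝ u u = (1 : ℝ)) (ha : inner ℝ u a = (0 : ℝ)) :
    inner ℝ (cross u a) (cross u b) = (inner ℝ a b : ℝ) := by
  have : inner ℝ (cross u a) (cross u b)
      = inner ℝ u u * inner ℝ a b - inner ℝ u a * (inner ℝ u b : ℝ) := by
    rw [inner3, inner3, inner3, inner3, inner3]
    simp [cross]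
    ring
  rw [this, hu, ha]; ring

/-! ### Products at the base point -/

theorem Lm_sq {u : R3} (hu : inner ℝ u u = (1 : ℝ)) : Lm u * Lm u = -1 := by
  rw [Lm_mul, hu, cross_self, Lm_zero, add_zero]
  simp

theorem Lm_anti {u w : R3} (h : inner ℝ u w = (0 : ℝ)) : Lm w * Lm u = -(Lm u * Lm w) := by
  rw [Lm_mul, Lm_mul, real_inner_comm, h, cross_anti w u]
  have : Lm (-cross u w) = -Lm (cross u w) := by
    ext i j; fin_cases i <;> fin_cases j <;> simp [Lm]
  rw [this]
  simp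

theorem Lm_neg (w : R3) : Lm (-w) = -Lm w := by
  ext i j; fin_cases i <;> fin_cases j <;> simp [Lm]

theorem QXQ {u w : R3} (y : R4) (hu : inner ℝ u u = (1 : ℝ)) (h : inner ℝ u w = (0 : ℝ)) :
    Qm u * tvec y w * Qm u = tvec 0 w := by
  rw [tvec, tvec, Hm, Hm, Qm, Qm, fromBlocks_add, fromBlocks_add, fromBlocks_multiply,
    fromBlocks_multiply]
  refine fromBlocks_inj.2 ⟨?_, ?_, ?_, ?_⟩
  · simp
  · simp [rw_zero]
  · simp [cl_zero]
  · simp only [zero_add, Matrix.zero_mul, Matrix.mul_zero]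
    rw [Matrix.mul_assoc, Lm_anti h, Matrix.mul_neg, ← Matrix.mul_assoc, Lm_sq hu]
    simp

theorem trace_blocks (A : Matrix Unit Unit ℝ) (B : Matrix Unit (Fin 4) ℝ)
    (C : Matrix (Fin 4) Unit ℝ) (D : M4) : (fromBlocks A B C D).trace = A.trace + D.trace := by
  simp [Matrix.trace, Fintype.sum_sum_type]

theorem trace_Lm (w : R3) : (Lm w).trace = 0 := by
  simp [Matrix.trace, Fin.sum_univ_four, Lm]

theorem trace_Lm3 (a b c : R3) : (Lm a * Lm b * Lm c).trace = -4 * inner ℝ (cross a b) c := by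
  rw [Lm_mul, Matrix.add_mul, Matrix.smul_mul, Matrix.one_mul, Lm_mul, Matrix.trace_add,
    Matrix.trace_smul, trace_Lm, Matrix.trace_add, Matrix.trace_smul, trace_Lm, Matrix.trace_one]
  simp
  ring

theorem tvec_eq (y : R4) (w : R3) : tvec y w = fromBlocks 0 (rw' y) (cl y) (Lm w) := by
  rw [tvec, Hm, Qm, fromBlocks_add]; simp

theorem trace3 (y₁ y₂ y₃ : R4) (w₁ w₂ w₃ : R3) :
    (tvec y₁ w₁ * tvec y₂ w₂ * tvec y₃ w₃).trace
      = inner ℝ y₁ (act w₂ y₃) + inner ℝ y₃ (act w₁ y₂) + inner ℝ y₂ (act w₃ y₁)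
        - 4 * inner ℝ (cross w₁ w₂) w₃ := by
  rw [tvec_eq, tvec_eq, tvec_eq, fromBlocks_multiply, fromBlocks_multiply, trace_blocks]
  simp only [Matrix.zero_mul, Matrix.mul_zero, zero_add, add_zero, Matrix.add_mul]
  rw [Matrix.mul_assoc, Lm_mul_cl, rw_mul_cl, trace_sc, Matrix.trace_add, Matrix.trace_add,
    Lm_mul_cl, trace_cl_rw, Matrix.mul_assoc (cl y₁), rw_mul_Lm, trace_cl_rw, trace_Lm3,
    inner_neg_left, inner_act_left]
  ring

theorem trace4 {u : R3} (hu : inner ℝ u u = (1 : ℝ)) (y₁ y₂ y₃ : R4) (w₁ w₂ w₃ : R3) :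
    (tvec y₁ w₁ * tvec y₂ w₂ * (Qm u * Qm u) * tvec y₃ w₃).trace
      = -(inner ℝ y₁ (act w₂ y₃) + inner ℝ y₂ (act w₃ y₁)
        - 4 * inner ℝ (cross w₁ w₂) w₃) := by
  have hq : Qm u * Qm u = fromBlocks 0 0 0 (-1) := by
    rw [Qm, fromBlocks_multiply, Lm_sq hu]; simp
  rw [hq, tvec_eq, tvec_eq, tvec_eq, fromBlocks_multiply, fromBlocks_multiply,
    fromBlocks_multiply, trace_blocks]
  simp only [Matrix.zero_mul, Matrix.mul_zero, zero_add, add_zero, Matrix.add_mul,
    Matrix.mul_neg, Matrix.mul_one, Matrix.neg_mul]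
  rw [Matrix.mul_assoc, Lm_mul_cl, rw_mul_cl, Matrix.trace_neg, trace_sc, Matrix.trace_neg,
    Matrix.trace_add,
    Matrix.mul_assoc (cl y₁), rw_mul_Lm, trace_cl_rw, trace_Lm3,
    inner_neg_left, inner_act_left]
  ring

end Pool.Agent.W2helper8.TW
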