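import Mathlib
import Pool.Agent.W2helper8.TW.Base

/-!
# The ambient tensors
-/

open scoped Matrix Manifold ContDiff Topology
open Matrix
open Pool.Agent.Helper206.Cover (R3 P1 cross dInc tanProj)

noncomputable section

namespace Pool.Agent.W2helper8.TW

/-- the trace -/
def trL : VV →L[ℝ] ℝ :=
  LinearMap.toContinuousLinearMap
    { toFun := fun A => (toV A).trace
      map_add' := fun A B => by rw [toV_add, Matrix.trace_add]
      map_smul' := fun c A => by rw [toV_smul, Matrix.trace_smul]; rfl }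

theorem trL_apply (A : VV) : trL A = (toV A).trace := rfl

theorem trL_comm (A B : VV) : trL (A * B) = trL (B * A) := by
  rw [trL_apply, trL_apply, toV_mul, toV_mul, Matrix.trace_mul_comm]

/-- a bilinear map as a continuous bilinear map -/
def clm2 {W : Type*} [NormedAddCommGroup W] [NormedSpace ℝ W] (f : VV →ₗ[ℝ] VV →ₗ[ℝ] W) :
    VV →L[ℝ] VV →L[ℝ] W :=
  LinearMap.toContinuousLinearMap
    ((LinearMap.toContinuousLinearMap : (VV →ₗ[ℝ] W) ≃ₗ[ℝ] (VV →L[ℝ] W)).toLinearMap ∘ₗ f)

theorem clm2_apply {W : Type*} [NormedAddCommGroup W] [NormedSpace ℝ W]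
    (f : VV →ₗ[ℝ] VV →ₗ[ℝ] W) (a b : VV) : clm2 f a b = f a b := rfl

/-- the symplectic form as a function -/
def bf (Q X Y : VV) : ℝ :=
  -(1 / 2) * trL (Q * (X * Y - Y * X))
    - (3 / 8) * (trL (Q * X * (Q * Q) * Y) - trL (Q * Y * (Q * Q) * X))

/-- the ambient two-form -/
def Bt (Q : VV) : VV →L[ℝ] VV →L[ℝ] ℝ :=
  clm2 (LinearMap.mk₂ ℝ (bf Q)
    (by
      intro a b c
      simp only [bf, mul_add, add_mul, mul_sub, ContinuousLinearMap.map_add,
        ContinuousLinearMap.map_sub]
      ring)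
    (by
      intro t a b
      simp only [bf, mul_smul_comm, smul_mul_assoc, mul_sub, ContinuousLinearMap.map_sub,
        ContinuousLinearMap.map_smul, smul_eq_mul]
      ring)
    (by
      intro a b c
      simp only [bf, mul_add, add_mul, mul_sub, ContinuousLinearMap.map_add,
        ContinuousLinearMap.map_sub]
      ring)
    (by
      intro t a b
      simp only [bf, mul_smul_comm, smul_mul_assoc, mul_sub, ContinuousLinearMap.map_sub,
        ContinuousLinearMap.map_smul, smul_eq_mul]
      ring))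

theorem Bt_apply (Q X Y : VV) : Bt Q X Y = bf Q X Y := rfl

theorem contDiff_Bt : ContDiff ℝ ∞ Bt := by
  refine contDiff_clm_apply_iff.2 fun X => contDiff_clm_apply_iff.2 fun Y => ?_
  simp only [Bt_apply, bf]
  have h : ∀ f : VV → VV, ContDiff ℝ ∞ f → ContDiff ℝ ∞ (fun Q => trL (f Q)) :=
    fun f hf => trL.contDiff.comp hf
  refine ContDiff.sub (contDiff_const.mul (h _ ?_))
    (contDiff_const.mul ((h _ ?_).sub (h _ ?_)))
  · exact contDiff_id.mul contDiff_const
  · exact ((contDiff_id.mul contDiff_const).mul (contDiff_id.mul contDiff_id)).mul contDiff_const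
  · exact ((contDiff_id.mul contDiff_const).mul (contDiff_id.mul contDiff_id)).mul contDiff_const

theorem Bt_alt (Q X : VV) : Bt Q X X = 0 := by
  rw [Bt_apply, bf, sub_self, sub_self, mul_zero, ContinuousLinearMap.map_zero]
  ring

/-- the derivative of the ambient two-form -/
def dbf (Q W X Y : VV) : ℝ :=
  -(1 / 2) * trL (W * (X * Y - Y * X))
    - (3 / 8) * ((trL (W * X * (Q * Q) * Y) + trL (Q * X * W * Q * Y) + trL (Q * X * Q * W * Y))
      - (trL (W * Y * (Q * Q) * X) + trL (Q * Y * W * Q * X) + trL (Q * Y * Q * W * X)))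

theorem fderiv_Bt (Q W X Y : VV) : fderiv ℝ Bt Q W X Y = dbf Q W X Y := by
  have h1 := hasDerivAt_line contDiff_Bt Q W
  have h2 : HasDerivAt (fun t : ℝ => Bt (Q + t • W) X) (fderiv ℝ Bt Q W X) 0 :=
    HasFDerivAt.comp_hasDerivAt (l := fun L : VV →L[ℝ] VV →L[ℝ] ℝ => L X) (0 : ℝ)
      (ContinuousLinearMap.apply ℝ (VV →L[ℝ] ℝ) X).hasFDerivAt h1
  have h3 : HasDerivAt (fun t : ℝ => Bt (Q + t • W) X Y) (fderiv ℝ Bt Q W X Y) 0 :=
    HasFDerivAt.comp_hasDerivAt (l := fun L : VV →L[ℝ] ℝ => L Y) (0 : ℝ)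
      (ContinuousLinearMap.apply ℝ ℝ Y).hasFDerivAt h2
  have hl : HasDerivAt (fun t : ℝ => Q + t • W) W 0 := by
    simpa using ((hasDerivAt_id (0 : ℝ)).smul_const W).const_add Q
  have hc : ∀ A : VV, HasDerivAt (fun _ : ℝ => A) 0 0 := fun A => hasDerivAt_const _ _
  have ht : ∀ {f : ℝ → VV} {f' : VV}, HasDerivAt f f' 0 →
      HasDerivAt (fun t => trL (f t)) (trL f') 0 := fun hf =>
    trL.hasFDerivAt.comp_hasDerivAt (0 : ℝ) hf
  have e1 := ht (hl.mul (hc (X * Y - Y * X)))
  have e2 := ht (((hl.mul (hc X)).mul (hl.mul hl)).mul (hc Y))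
  have e3 := ht (((hl.mul (hc Y)).mul (hl.mul hl)).mul (hc X))
  have e4 := (e1.const_mul (-(1 / 2 : ℝ))).sub ((e2.sub e3).const_mul (3 / 8 : ℝ))
  have e5 := h3.unique e4
  rw [e5]
  simp only [Pi.mul_apply, zero_smul, add_zero, mul_zero, dbf, ContinuousLinearMap.map_add,
    ContinuousLinearMap.map_sub, add_mul, mul_add, mul_assoc]
  ring

/-! ### The almost complex structure -/

/-- the almost complex structure as a function -/
def af (Q X : VV) : VV := -(Q * X) + X * Q - (2 : ℝ) • (Q * X * (Q * Q)) + Q * Q * X * Q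

/-- the ambient endomorphism field -/
def At (Q : VV) : VV →L[ℝ] VV :=
  LinearMap.toContinuousLinearMap
    { toFun := af Q
      map_add' := by
        intro a b
        simp only [af, mul_add, add_mul, smul_add]
        abel
      map_smul' := by
        intro t a
        simp only [af, mul_smul_comm, smul_mul_assoc, RingHom.id_apply, smul_add, smul_sub,
          smul_neg]
        rw [smul_comm t (2 : ℝ)] }

theorem At_apply (Q X : VV) : At Q X = af Q X := rfl

theorem contDiff_At : ContDiff ℝ ∞ At := by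
  refine contDiff_clm_apply_iff.2 fun X => ?_
  simp only [At_apply, af]
  have hi : ContDiff ℝ ∞ (fun Q : VV => Q) := contDiff_id
  have hc : ∀ A : VV, ContDiff ℝ ∞ (fun _ : VV => A) := fun A => contDiff_const
  exact ((((hi.mul (hc X)).neg.add ((hc X).mul hi)).sub
    (((hi.mul (hc X)).mul (hi.mul hi)).const_smul (2 : ℝ)))).add
      (((hi.mul hi).mul (hc X)).mul hi)

/-! ### The trilinear form -/

/-- the real part of the trilinear form -/
def th (Q X Y W : VV) : ℝ := trL ((1 + Q * Q) * (W * X * Y + X * Y * W + Y * W * X))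

theorem th_add₁ (Q a b Y W : VV) : th Q (a + b) Y W = th Q a Y W + th Q b Y W := by
  simp only [th, mul_add, add_mul, ContinuousLinearMap.map_add]
  ring

theorem th_smul₁ (Q : VV) (t : ℝ) (a Y W : VV) : th Q (t • a) Y W = t * th Q a Y W := by
  simp only [th, mul_smul_comm, smul_mul_assoc, ← smul_add, ContinuousLinearMap.map_smul,
    smul_eq_mul]

theorem th_add₂ (Q X a b W : VV) : th Q X (a + b) W = th Q X a W + th Q X b W := by
  simp only [th, mul_add, add_mul, ContinuousLinearMap.map_add]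
  ring

theorem th_smul₂ (Q : VV) (t : ℝ) (X a W : VV) : th Q X (t • a) W = t * th Q X a W := by
  simp only [th, mul_smul_comm, smul_mul_assoc, ← smul_add, ContinuousLinearMap.map_smul,
    smul_eq_mul]

theorem th_add₃ (Q X Y a b : VV) : th Q X Y (a + b) = th Q X Y a + th Q X Y b := by
  simp only [th, mul_add, add_mul, ContinuousLinearMap.map_add]
  ring

theorem th_smul₃ (Q : VV) (t : ℝ) (X Y a : VV) : th Q X Y (t • a) = t * th Q X Y a := by
  simp only [th, mul_smul_comm, smul_mul_assoc, ← smul_add, ContinuousLinearMap.map_smul,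
    smul_eq_mul]

/-- the trilinear form as a function -/
def tf (Q X Y W : VV) : ℂ := (th Q X Y W : ℂ) - Complex.I * (th Q (At Q X) Y W : ℂ)

/-- the trilinear form, two arguments -/
def tf2 (Q X : VV) : VV →L[ℝ] VV →L[ℝ] ℂ :=
  clm2 (LinearMap.mk₂ ℝ (tf Q X)
    (by
      intro a b c
      simp only [tf, th_add₂]
      push_cast
      ring)
    (by
      intro t a b
      simp only [tf, th_smul₂]
      push_cast
      rw [Complex.real_smul]
      ring)
    (by
      intro a b c
      simp only [tf, th_add₃]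
      push_cast
      ring)
    (by
      intro t a b
      simp only [tf, th_smul₃]
      push_cast
      rw [Complex.real_smul]
      ring))

theorem tf2_apply (Q X Y W : VV) : tf2 Q X Y W = tf Q X Y W := rfl

/-- the ambient trilinear form -/
def Tt (Q : VV) : VV →L[ℝ] VV →L[ℝ] VV →L[ℝ] ℂ :=
  LinearMap.toContinuousLinearMap
    { toFun := tf2 Q
      map_add' := by
        intro a b
        ext Y W
        rw [_root_.add_apply, _root_.add_apply, tf2_apply, tf2_apply, tf2_apply, tf, tf, tf,
          ContinuousLinearMap.map_add, th_add₁, th_add₁]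
        push_cast
        ring
      map_smul' := by
        intro t a
        ext Y W
        rw [RingHom.id_apply, _root_.smul_apply, _root_.smul_apply, tf2_apply, tf2_apply, tf, tf,
          ContinuousLinearMap.map_smul, th_smul₁, th_smul₁, Complex.real_smul]
        push_cast
        ring }

theorem Tt_apply (Q X Y W : VV) : Tt Q X Y W = tf Q X Y W := rfl

theorem contDiff_th {X : Type*} [NormedAddCommGroup X] [NormedSpace ℝ X] {q a b c : X → VV}
    (hq : ContDiff ℝ ∞ q) (ha : ContDiff ℝ ∞ a) (hb : ContDiff ℝ ∞ b) (hc : ContDiff ℝ ∞ c) :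
    ContDiff ℝ ∞ (fun x => th (q x) (a x) (b x) (c x)) := by
  have h : ContDiff ℝ ∞ (fun x => (1 + q x * q x) * (c x * a x * b x + a x * b x * c x
      + b x * c x * a x)) :=
    (contDiff_const.add (hq.mul hq)).mul
      ((((hc.mul ha).mul hb).add ((ha.mul hb).mul hc)).add ((hb.mul hc).mul ha))
  exact trL.contDiff.comp h

theorem contDiff_Tt :
    ContDiff ℝ ∞ (fun p : VV × VV × VV × VV => Tt p.1 p.2.1 p.2.2.1 p.2.2.2) := by
  simp only [Tt_apply, tf]
  have h1 : ContDiff ℝ ∞ (fun p : VV × VV × VV × VV => p.1) := contDiff_fst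
  have h2 : ContDiff ℝ ∞ (fun p : VV × VV × VV × VV => p.2.1) := contDiff_fst.comp contDiff_snd
  have h3 : ContDiff ℝ ∞ (fun p : VV × VV × VV × VV => p.2.2.1) :=
    contDiff_fst.comp (contDiff_snd.comp contDiff_snd)
  have h4 : ContDiff ℝ ∞ (fun p : VV × VV × VV × VV => p.2.2.2) :=
    contDiff_snd.comp (contDiff_snd.comp contDiff_snd)
  have h5 : ContDiff ℝ ∞ (fun p : VV × VV × VV × VV => At p.1 p.2.1) :=
    (contDiff_At.comp h1).clm_apply h2
  have e1 := Complex.ofRealCLM.contDiff.comp (contDiff_th h1 h2 h3 h4)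
  have e2 := Complex.ofRealCLM.contDiff.comp (contDiff_th h1 h5 h3 h4)
  exact e1.sub (contDiff_const.mul e2)

/-! ### Conjugation -/

/-- conjugation -/
def cg (g g' X : VV) : VV := g * X * g'

section Conj

variable {g g' : VV} (h : g' * g = 1) (h' : g * g' = 1)

include h in
theorem cg_mul (X Y : VV) : cg g g' X * cg g g' Y = cg g g' (X * Y) := by
  unfold cg
  calc g * X * g' * (g * Y * g') = g * X * (g' * g) * Y * g' := by noncomm_ring
    _ = _ := by rw [h]; noncomm_ring

theorem cg_add (X Y : VV) : cg g g' X + cg g g' Y = cg g g' (X + Y) := by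
  unfold cg; noncomm_ring

theorem cg_sub (X Y : VV) : cg g g' X - cg g g' Y = cg g g' (X - Y) := by
  unfold cg; noncomm_ring

theorem cg_neg (X : VV) : -cg g g' X = cg g g' (-X) := by
  unfold cg; noncomm_ring

theorem cg_smul (t : ℝ) (X : VV) : t • cg g g' X = cg g g' (t • X) := by
  unfold cg; rw [mul_smul_comm, smul_mul_assoc]

include h' in
theorem one_eq_cg : (1 : VV) = cg g g' 1 := by
  unfold cg; rw [mul_one, h']

include h in
theorem trL_cg (X : VV) : trL (cg g g' X) = trL X := by
  unfold cg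
  rw [trL_comm, ← mul_assoc, h, one_mul]

include h in
theorem bf_cg (Q X Y : VV) : bf (cg g g' Q) (cg g g' X) (cg g g' Y) = bf Q X Y := by
  simp only [bf, cg_mul h, cg_sub, trL_cg h]

include h in
theorem dbf_cg (Q W X Y : VV) :
    dbf (cg g g' Q) (cg g g' W) (cg g g' X) (cg g g' Y) = dbf Q W X Y := by
  simp only [dbf, cg_mul h, cg_sub, trL_cg h]

include h in
theorem af_cg (Q X : VV) : af (cg g g' Q) (cg g g' X) = cg g g' (af Q X) := by
  simp only [af, cg_mul h, cg_sub, cg_add, cg_neg, cg_smul]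

include h h' in
theorem th_cg (Q X Y W : VV) :
    th (cg g g' Q) (cg g g' X) (cg g g' Y) (cg g g' W) = th Q X Y W := by
  simp only [th]
  rw [one_eq_cg h']
  simp only [cg_mul h, cg_add, trL_cg h]
  rw [show cg g g' 1 = 1 from (one_eq_cg h').symm]

include h h' in
theorem tf_cg (Q X Y W : VV) :
    tf (cg g g' Q) (cg g g' X) (cg g g' Y) (cg g g' W) = tf Q X Y W := by
  simp only [tf, At_apply]
  rw [af_cg h, th_cg h h', th_cg h h']

end Conj

end Pool.Agent.W2helper8.TW
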