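import Mathlib
import Pool.Agent.W2helper8.TW.Tensor
import Pool.Agent.W2helper8.TW.AmbInv

/-!
# The twistor space of hyperbolic four-space as an almost Kähler manifold
-/

open scoped Matrix Manifold ContDiff Topology
open Matrix
open Pool.Agent.Helper206.Cover (R3 P1 cross dInc tanProj)

noncomputable section

namespace Pool.Agent.W2helper8.TW

attribute [local instance] fact3

/-- tangent vectors at the base point in the algebra -/
def tv (y : R4) (w : R3) : VV := toVV (tvec y w)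

theorem QmV_eq (u : R3) : QmV u = tv 0 u := by
  have : tvec 0 u = Qm u := by
    rw [tvec, Hm, rw_zero, cl_zero]
    simp
  rw [tv, this]; rfl

theorem QmV_mul {u w : R3} (h : inner ℝ u w = (0 : ℝ)) : QmV u * QmV w = QmV (cross u w) := by
  have : Qm u * Qm w = Qm (cross u w) := by
    rw [Qm, Qm, Qm, fromBlocks_multiply, Lm_mul, h]
    simp
  exact this

theorem QXQV {u w : R3} (y : R4) (hu : inner ℝ u u = (1 : ℝ)) (h : inner ℝ u w = (0 : ℝ)) :
    QmV u * tv y w * QmV u = QmV w := by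
  rw [QmV_eq w]
  exact QXQ y hu h

theorem sdp_Lm (w : R3) : sdp (Lm w) = w := by
  ext i; fin_cases i <;> simp [sdp, Lm]

theorem tvec_skew (y : R4) (w : R3) : (tvec y w)ᵀ * eta = -(eta * tvec y w) := by
  rw [tvec_eq, eta, fromBlocks_transpose, fromBlocks_multiply, fromBlocks_multiply, Lm_transpose,
    rw_transpose, cl_transpose]
  simp [fromBlocks_neg]

theorem comm_tv (u w : R3) (y : R4) :
    tv y w * QmV u - QmV u * tv y w = tv (-act u y) ((2 : ℝ) • cross w u) := by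
  have h := comm_skew5 (tvec_skew y w) u
  have h1 : col (tvec y w) = y := by
    rw [tvec_eq]; ext i; simp [col]
  have h2 : (tvec y w).toBlocks₂₂ = Lm w := by
    rw [tvec_eq]; exact toBlocks_fromBlocks₂₂ _ _ _ _
  rw [h1, h2, sdp_Lm] at h
  exact h

theorem tv_add (y y' : R4) (w w' : R3) : tv (y + y') (w + w') = tv y w + tv y' w' := by
  rw [tv, tvec_add]; rfl

theorem af_base {u w : R3} (y : R4) (hu : inner ℝ u u = (1 : ℝ)) (h : inner ℝ u w = (0 : ℝ)) :
    af (QmV u) (tv y w) = tv (-act u y) (cross u w) := by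
  have e1 := QXQV y hu h
  have h' : inner ℝ w u = (0 : ℝ) := by rw [real_inner_comm]; exact h
  have e2 : af (QmV u) (tv y w) = (tv y w * QmV u - QmV u * tv y w)
      - (2 : ℝ) • (QmV u * tv y w * QmV u * QmV u) + QmV u * (QmV u * tv y w * QmV u) := by
    unfold af
    rw [show QmV u * tv y w * (QmV u * QmV u) = QmV u * tv y w * QmV u * QmV u by
      rw [mul_assoc (QmV u * tv y w)]]
    rw [show QmV u * QmV u * tv y w * QmV u = QmV u * (QmV u * tv y w * QmV u) by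
      simp only [mul_assoc]]
    abel
  rw [e2, e1, comm_tv, QmV_mul h, QmV_mul h', cross_anti w u, QmV_eq, QmV_eq]
  have e3 : (2 : ℝ) • tv 0 (-cross u w) = tv 0 (-((2 : ℝ) • cross u w)) := by
    rw [tv, tv, ← toVV_smul, ← tvec_smul, smul_zero, smul_neg]
  have e4 : ∀ (a : R4) (b : R3), -tv a b = tv (-a) (-b) := by
    intro a b
    have := tvec_smul (-1) a b
    rw [neg_one_smul, neg_one_smul, neg_one_smul] at this
    rw [tv, tv, this]; rfl
  rw [e3, sub_eq_add_neg, e4, ← tv_add, ← tv_add]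
  congr 1
  · simp
  · module

/-- the trace of a triple product at the base point -/
theorem trL3 (y₁ y₂ y₃ : R4) (w₁ w₂ w₃ : R3) :
    trL (tv y₁ w₁ * tv y₂ w₂ * tv y₃ w₃)
      = inner ℝ y₁ (act w₂ y₃) + inner ℝ y₃ (act w₁ y₂) + inner ℝ y₂ (act w₃ y₁)
        - 4 * inner ℝ (cross w₁ w₂) w₃ := trace3 y₁ y₂ y₃ w₁ w₂ w₃

theorem trL4 {u : R3} (hu : inner ℝ u u = (1 : ℝ)) (y₁ y₂ y₃ : R4) (w₁ w₂ w₃ : R3) :
    trL (tv y₁ w₁ * tv y₂ w₂ * (QmV u * QmV u) * tv y₃ w₃)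
      = -(inner ℝ y₁ (act w₂ y₃) + inner ℝ y₂ (act w₃ y₁)
        - 4 * inner ℝ (cross w₁ w₂) w₃) := trace4 hu y₁ y₂ y₃ w₁ w₂ w₃

theorem act_zero_right (w : R3) : act w 0 = 0 := by
  have := act_smul w 0 0
  simpa using this

theorem m_anti (a b : R4) (w : R3) : inner ℝ a (act w b) = -(inner ℝ b (act w a) : ℝ) := by
  rw [real_inner_comm, inner_act_left]

theorem cross_inner_anti (u a b : R3) : inner ℝ (cross u a) b = -(inner ℝ (cross u b) a : ℝ) := by
  rw [inner3, inner3]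
  simp [cross]
  ring

theorem bf_base {u w w' : R3} (y y' : R4) (hu : inner ℝ u u = (1 : ℝ)) :
    bf (QmV u) (tv y w) (tv y' w')
      = -(inner ℝ (act u y) y' : ℝ) + inner ℝ (cross u w) w' := by
  have e0 : QmV u * (tv y w * tv y' w' - tv y' w' * tv y w)
      = tv 0 u * tv y w * tv y' w' - tv 0 u * tv y' w' * tv y w := by
    rw [QmV_eq]; noncomm_ring
  rw [bf, e0, ContinuousLinearMap.map_sub, trL3, trL3]
  rw [show QmV u * tv y w * (QmV u * QmV u) * tv y' w'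
    = tv 0 u * tv y w * (QmV u * QmV u) * tv y' w' by rw [QmV_eq]]
  rw [show QmV u * tv y' w' * (QmV u * QmV u) * tv y w
    = tv 0 u * tv y' w' * (QmV u * QmV u) * tv y w by rw [QmV_eq]]
  rw [trL4 hu, trL4 hu]
  simp only [inner_zero_left, act_zero_right, inner_zero_right]
  rw [cross_inner_anti u w' w, m_anti y y' u, real_inner_comm y' (act u y)]
  ring

/-- the derivative of the form at the base point -/
theorem dbf_base {u w₁ w₂ w₃ : R3} (y₁ y₂ y₃ : R4) (hu : inner ℝ u u = (1 : ℝ))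
    (h₁ : inner ℝ u w₁ = (0 : ℝ)) (h₂ : inner ℝ u w₂ = (0 : ℝ)) (h₃ : inner ℝ u w₃ = (0 : ℝ)) :
    dbf (QmV u) (tv y₁ w₁) (tv y₂ w₂) (tv y₃ w₃)
      = -(inner ℝ y₃ (act w₁ y₂) : ℝ)
        + (1 / 2) * (inner ℝ y₂ (act w₃ y₁) - inner ℝ y₃ (act w₂ y₁)) := by
  have e1 : tv y₁ w₁ * (tv y₂ w₂ * tv y₃ w₃ - tv y₃ w₃ * tv y₂ w₂)
      = tv y₁ w₁ * tv y₂ w₂ * tv y₃ w₃ - tv y₁ w₁ * tv y₃ w₃ * tv y₂ w₂ := by
    noncomm_ring
  have e2 : ∀ (X W Y : VV), trL (QmV u * X * W * QmV u * Y) = trL (X * W * (QmV u * Y * QmV u)) := by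
    intro X W Y
    rw [show QmV u * X * W * QmV u * Y = QmV u * (X * W * QmV u * Y) by simp only [mul_assoc],
      trL_comm]
    simp only [mul_assoc]
  have t0 : ∀ {a b c : R3}, inner ℝ u a = (0 : ℝ) → inner ℝ u b = (0 : ℝ) →
      inner ℝ u c = (0 : ℝ) → inner ℝ (cross a b) c = (0 : ℝ) := fun ha hb hc =>
    triple_zero hu ha hb hc
  rw [dbf, e1, ContinuousLinearMap.map_sub, trL3, trL3, trL4 hu, trL4 hu, e2, e2, QXQV y₃ hu h₃,
    QXQV y₂ hu h₂, QmV_eq w₃, QmV_eq w₂, trL3, trL3, trL3, trL3,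
    t0 h₁ h₂ h₃, t0 h₁ h₃ h₂, t0 h₂ h₁ h₃, t0 h₃ h₁ h₂]
  simp only [inner_zero_left, act_zero_right, inner_zero_right]
  rw [m_anti y₁ y₂ w₃, m_anti y₁ y₃ w₂, m_anti y₂ y₃ w₁]
  ring

theorem dbf_cyc {u w₁ w₂ w₃ : R3} (y₁ y₂ y₃ : R4) (hu : inner ℝ u u = (1 : ℝ))
    (h₁ : inner ℝ u w₁ = (0 : ℝ)) (h₂ : inner ℝ u w₂ = (0 : ℝ)) (h₃ : inner ℝ u w₃ = (0 : ℝ)) :
    dbf (QmV u) (tv y₁ w₁) (tv y₂ w₂) (tv y₃ w₃) + dbf (QmV u) (tv y₂ w₂) (tv y₃ w₃) (tv y₁ w₁)
      + dbf (QmV u) (tv y₃ w₃) (tv y₁ w₁) (tv y₂ w₂) = 0 := by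
  rw [dbf_base y₁ y₂ y₃ hu h₁ h₂ h₃, dbf_base y₂ y₃ y₁ hu h₂ h₃ h₁, dbf_base y₃ y₁ y₂ hu h₃ h₁ h₂,
    m_anti y₁ y₃ w₂, m_anti y₁ y₂ w₃, m_anti y₂ y₃ w₁]
  ring

theorem th_base {u : R3} (y₁ y₂ y₃ : R4) (w₁ w₂ w₃ : R3) (hu : inner ℝ u u = (1 : ℝ)) :
    th (QmV u) (tv y₁ w₁) (tv y₂ w₂) (tv y₃ w₃)
      = inner ℝ y₃ (act w₁ y₂) + inner ℝ y₁ (act w₂ y₃) + inner ℝ y₂ (act w₃ y₁) := by
  have e : ∀ (a b c : VV), trL ((1 + QmV u * QmV u) * (a * b * c))
      = trL (a * b * c) + trL (b * c * (QmV u * QmV u) * a) := by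
    intro a b c
    rw [add_mul, one_mul, ContinuousLinearMap.map_add]
    congr 1
    rw [show b * c * (QmV u * QmV u) * a = b * c * ((QmV u * QmV u) * a) by
      simp only [mul_assoc], trL_comm (b * c)]
    simp only [mul_assoc]
  rw [th, mul_add, mul_add, ContinuousLinearMap.map_add, ContinuousLinearMap.map_add, e, e, e,
    trL3, trL3, trL3, trL4 hu, trL4 hu, trL4 hu]
  have c1 : inner ℝ (cross w₃ w₁) w₂ = (inner ℝ (cross w₁ w₂) w₃ : ℝ) := by
    rw [inner3, inner3]; simp [cross]; ring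
  have c2 : inner ℝ (cross w₂ w₃) w₁ = (inner ℝ (cross w₁ w₂) w₃ : ℝ) := by
    rw [inner3, inner3]; simp [cross]; ring
  rw [c1, c2]
  ring

/-! ### The data -/

/-- conjugation by the boost -/
abbrev cb (x : R4) (X : VV) : VV := cg (bstV x) (bstV' x) X

theorem PsiV_cb (m : Mt) : PsiV m = cb m.1 (QmV m.2) := rfl

theorem mv_cb (m : Mt) (v : TangentSpace IT m) :
    mvfderiv IT PsiV m v = cb m.1 (tv (ty m v) (tw m v)) := mvfderiv_PsiV m v

theorem exists_tan' (m : Mt) (y : R4) (w : R3) (hw : inner ℝ (m.2 : R3) w = (0 : ℝ)) :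
    ∃ v : TangentSpace IT m, mvfderiv IT PsiV m v = cb m.1 (tv y w) := exists_tan m y w hw

theorem At_tan (m : Mt) (v : TangentSpace IT m) :
    At (PsiV m) (mvfderiv IT PsiV m v)
      = cb m.1 (tv (-act m.2 (ty m v)) (cross m.2 (tw m v))) := by
  rw [At_apply, mv_cb, PsiV_cb, af_cg (bstV'_mul _), af_base _ (norm_P1 m.2) (tw_orth m v)]

theorem tv_neg (a : R4) (b : R3) : tv (-a) (-b) = -tv a b := by
  have := tvec_smul (-1) a b
  rw [neg_one_smul, neg_one_smul, neg_one_smul] at this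
  rw [tv, tv, this]; rfl

theorem act_act_self (u : P1) (y : R4) : act u (act u y) = -y := by
  rw [act_act, norm_P1, cross_self]
  have : act 0 y = 0 := by
    have := act_smul' 0 0 y
    simpa using this
  rw [this, add_zero, neg_one_smul]

theorem act_neg (u : R3) (y : R4) : act u (-y) = -act u y := by
  have := act_smul u (-1) y
  rwa [neg_one_smul, neg_one_smul] at this

theorem cross_cross_orth {u : P1} {w : R3} (h : inner ℝ (u : R3) w = (0 : ℝ)) :
    cross (u : R3) (cross u w) = -w := by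
  rw [cross_cross, h, norm_P1, zero_smul, one_smul, zero_sub]

theorem At_At_tan (m : Mt) (v : TangentSpace IT m) :
    At (PsiV m) (At (PsiV m) (mvfderiv IT PsiV m v)) = -mvfderiv IT PsiV m v := by
  rw [At_tan, At_apply, PsiV_cb, af_cg (bstV'_mul _),
    af_base _ (norm_P1 m.2) (inner_cross_left _ _), mv_cb, cg_neg, ← tv_neg]
  congr 2
  · rw [act_neg, act_act_self, neg_neg]
  · exact cross_cross_orth (tw_orth m v)

theorem Bt_tan (m : Mt) (y y' : R4) (w w' : R3) :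
    Bt (PsiV m) (cb m.1 (tv y w)) (cb m.1 (tv y' w'))
      = -(inner ℝ (act m.2 y) y' : ℝ) + inner ℝ (cross m.2 w) w' := by
  rw [Bt_apply, PsiV_cb, bf_cg (bstV'_mul _), bf_base y y' (norm_P1 m.2)]

theorem th_alt {u : P1} (y₁ y₂ : R4) (w₁ w₂ : R3) :
    th (QmV u) (tv y₁ w₁) (tv y₁ w₁) (tv y₂ w₂) = 0 := by
  rw [th_base _ _ _ _ _ _ (norm_P1 u), m_anti y₁ y₂ w₁]
  have : inner ℝ y₁ (act w₂ y₁) = (0 : ℝ) := by
    have := m_anti y₁ y₁ w₂
    linarith
  rw [this]; ring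

theorem th_alt' {u : P1} (y₁ y₂ : R4) (w₁ w₂ : R3) :
    th (QmV u) (tv y₁ w₁) (tv y₂ w₂) (tv y₂ w₂) = 0 := by
  rw [th_base _ _ _ _ _ _ (norm_P1 u), m_anti y₁ y₂ w₂]
  have : inner ℝ y₂ (act w₁ y₂) = (0 : ℝ) := by
    have := m_anti y₂ y₂ w₁
    linarith
  rw [this]; ring

/-- the mixed term vanishes -/
theorem th_mix {u : P1} {w₁ w₂ : R3} (y₁ y₂ : R4) (h₁ : inner ℝ (u : R3) w₁ = (0 : ℝ))
    (h₂ : inner ℝ (u : R3) w₂ = (0 : ℝ)) :
    th (QmV u) (tv (-act u y₁) (cross u w₁)) (tv y₁ w₁) (tv y₂ w₂) = 0 := by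
  rw [th_base _ _ _ _ _ _ (norm_P1 u)]
  have e1 : act (cross (u : R3) w₁) y₁ = act u (act w₁ y₁) := by
    rw [act_act, h₁, neg_zero, zero_smul, zero_add]
  have e2 : inner ℝ y₁ (act w₂ (act u y₁)) = (0 : ℝ) := by
    rw [act_act, real_inner_comm (u : R3) w₂, h₂, neg_zero, zero_smul, zero_add]
    have := m_anti y₁ y₁ (cross w₂ u)
    linarith
  have h₁' : inner ℝ w₁ (u : R3) = (0 : ℝ) := by rw [real_inner_comm]; exact h₁
  have e3 : inner ℝ (act u y₁) (act w₁ y₂) + inner ℝ (act w₁ y₁) (act u y₂) = (0 : ℝ) := by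
    rw [inner_act, h₁]; ring
  have e4 : inner ℝ y₂ (act u (act w₁ y₁)) = -(inner ℝ (act w₁ y₁) (act u y₂) : ℝ) := m_anti _ _ _
  rw [e1, e4, inner_neg_left, act_neg, inner_neg_right, e2]
  linarith

/-- The ambient tensors pull back to an almost Kähler structure with a complex volume form. -/
def data : AmbData IT PsiV where
  hF := contMDiff_Psi
  inj := mvfderiv_injective
  B := Bt
  hB := contDiff_Bt
  altB := Bt_alt
  closed m a b c := by
    rw [fderiv_Bt, fderiv_Bt, fderiv_Bt, mv_cb, mv_cb, mv_cb, PsiV_cb, dbf_cg (bstV'_mul _),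
      dbf_cg (bstV'_mul _), dbf_cg (bstV'_mul _)]
    exact dbf_cyc _ _ _ (norm_P1 m.2) (tw_orth m a) (tw_orth m b) (tw_orth m c)
  A := At
  hA := contDiff_At
  Amap m v := by
    rw [At_tan]
    exact exists_tan' m _ _ (inner_cross_left _ _)
  Asq := At_At_tan
  comp m v w := by
    rw [At_tan, At_tan, Bt_tan, mv_cb, mv_cb, Bt_tan]
    rw [cross_cross_orth (tw_orth m v), act_neg, act_act_self, neg_neg, inner_neg_right,
      inner_neg_left, m_anti (ty m v) (ty m w), real_inner_comm (act m.2 (ty m v)) (ty m w),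
      real_inner_comm (cross m.2 (tw m w)) (tw m v)]
    rw [show inner ℝ (cross (m.2 : R3) (tw m w)) (tw m v)
      = -(inner ℝ (cross (m.2 : R3) (tw m v)) (tw m w) : ℝ) from cross_inner_anti _ _ _]
    ring
  pos m v hv := by
    rw [At_tan, mv_cb, Bt_tan, inner_neg_right, neg_neg, inner_act_self, norm_P1, one_mul,
      inner_cross_cross (norm_P1 m.2) (tw_orth m v), real_inner_self_eq_norm_sq,
      real_inner_self_eq_norm_sq]
    by_contra hcon
    have h1 : ‖ty m v‖ ^ 2 = 0 := by nlinarith [sq_nonneg ‖ty m v‖, sq_nonneg ‖tw m v‖]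
    have h2 : ‖tw m v‖ ^ 2 = 0 := by nlinarith [sq_nonneg ‖ty m v‖, sq_nonneg ‖tw m v‖]
    rw [sq_eq_zero_iff, norm_eq_zero] at h1 h2
    exact hv (tan_zero m v h1 h2)
  T := Tt
  hT := contDiff_Tt
  altT₁ m v w := by
    rw [Tt_apply, tf, At_tan, mv_cb, mv_cb, PsiV_cb, th_cg (bstV'_mul _) (bstV_mul _),
      th_cg (bstV'_mul _) (bstV_mul _), th_alt, th_mix _ _ (tw_orth m v) (tw_orth m w)]
    simp
  altT₂ m v w := by
    rw [Tt_apply, tf, At_tan, mv_cb, mv_cb, PsiV_cb, th_cg (bstV'_mul _) (bstV_mul _),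
      th_cg (bstV'_mul _) (bstV_mul _), th_alt', th_alt']
    simp
  typeT m u v w := by
    rw [Tt_apply, Tt_apply, tf, tf, At_At_tan]
    have : th (PsiV m) (-mvfderiv IT PsiV m u) (mvfderiv IT PsiV m v) (mvfderiv IT PsiV m w)
        = -th (PsiV m) (mvfderiv IT PsiV m u) (mvfderiv IT PsiV m v) (mvfderiv IT PsiV m w) := by
      have := th_smul₁ (PsiV m) (-1) (mvfderiv IT PsiV m u) (mvfderiv IT PsiV m v)
        (mvfderiv IT PsiV m w)
      rw [neg_one_smul] at this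
      rw [this]; ring
    rw [this]
    push_cast
    ring_nf
    rw [Complex.I_sq]
    ring
  neT m := by
    -- a nonzero vector orthogonal to `m.2`
    set e : EuclideanSpace ℝ (Fin 2) := EuclideanSpace.single 0 1 with he
    have he0 : e ≠ 0 := by
      intro h
      have := congrArg (fun z : EuclideanSpace ℝ (Fin 2) => z 0) h
      simp [he] at this
    set w : R3 := dInc m.2 (e : TangentSpace (𝓡 2) m.2) with hw
    have hw1 : inner ℝ (m.2 : R3) w = (0 : ℝ) := Pool.Agent.Helper206.Cover.inner_dInc m.2 e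
    have hw0 : w ≠ 0 := by
      intro h
      apply he0
      apply Pool.Agent.Helper206.Cover.dInc_injective m.2
      exact h.trans ((dInc m.2).map_zero).symm
    set y : R4 := EuclideanSpace.single 0 1 with hy
    have hy0 : inner ℝ y y = (1 : ℝ) := by
      rw [real_inner_self_eq_norm_sq, hy]
      simp
    obtain ⟨a, ha⟩ := exists_tan' m 0 w hw1
    obtain ⟨b, hb⟩ := exists_tan' m y 0 (inner_zero_right _)
    obtain ⟨c, hc⟩ := exists_tan' m (act w y) 0 (inner_zero_right _)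
    refine ⟨a, b, c, ?_⟩
    have h1 : th (PsiV m) (mvfderiv IT PsiV m a) (mvfderiv IT PsiV m b) (mvfderiv IT PsiV m c)
        = inner ℝ w w := by
      rw [ha, hb, hc, PsiV_cb, th_cg (bstV'_mul _) (bstV_mul _), th_base _ _ _ _ _ _ (norm_P1 m.2),
        inner_act_self, hy0]
      have : ∀ z : R4, act 0 z = 0 := by
        intro z
        have := act_smul' 0 0 z
        simpa using this
      simp [this]
    intro h
    have h2 := congrArg Complex.re h
    rw [Tt_apply, tf, h1] at h2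
    rw [Complex.sub_re, Complex.ofReal_re, Complex.mul_re, Complex.I_re, Complex.I_im,
      Complex.ofReal_im, Complex.zero_re, zero_mul, mul_zero, sub_zero, sub_zero,
      real_inner_self_eq_norm_sq, sq_eq_zero_iff, norm_eq_zero] at h2
    exact hw0 h2

end Pool.Agent.W2helper8.TW
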