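import Mathlib
import Pool.Agent.W2helper8.TW.Data

/-!
# The fibres of the twistor space are holomorphic spheres; invariance
-/

open scoped Matrix Manifold ContDiff Topology
open Matrix
open Pool.Agent.Helper206.Cover (R3 P1 cross dInc tanProj jP1 dInc_jP1)
open Pool.Agent.Helper206.Rat (SymplecticForm AlmostComplex IsCompatible IsHolomorphic)

noncomputable section

namespace Pool.Agent.W2helper8.TW

attribute [local instance] fact3

/-- the fibre -/
def fib (x : R4) (z : P1) : Mt := (x, z)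

theorem contMDiff_fib (x : R4) : ContMDiff (𝓡 2) IT ∞ (fib x) :=
  contMDiff_const.prodMk contMDiff_id

theorem mfderiv_fib (x : R4) (z : P1) (w : TangentSpace (𝓡 2) z) :
    mfderiv (𝓡 2) IT (fib x) z w = ((0, w) : ET) := by
  have h1 : HasMFDerivAt (𝓡 2) 𝓘(ℝ, R4) (fun _ : P1 => x) z
      (0 : EuclideanSpace ℝ (Fin 2) →L[ℝ] R4) := hasMFDerivAt_const x z
  have h2 : HasMFDerivAt (𝓡 2) (𝓡 2) (fun z : P1 => z) z
      (ContinuousLinearMap.id ℝ (EuclideanSpace ℝ (Fin 2))) := hasMFDerivAt_id z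
  have h3 := h1.prodMk h2
  have h4 := h3.mfderiv
  exact congrArg (fun L : EuclideanSpace ℝ (Fin 2) →L[ℝ] ET => L w) h4

theorem mv_vert (m : Mt) (w : EuclideanSpace ℝ (Fin 2)) :
    mvfderiv IT PsiV m (((0, w) : ET) : TangentSpace IT m) = cb m.1 (tv 0 (dInc m.2 w)) := by
  rw [mvfderiv_Psi, inc, fderiv_PsiE]
  have h0 : alp m.1 0 = 0 := by
    rw [alp, ContinuousLinearMap.map_zero, mul_zero]
  have h1 : (((0, w) : ET) : TangentSpace IT m).1 = (0 : R4) := rfl
  rw [h1, h0, zero_mul, mul_zero, sub_zero, zero_add, QmV_eq]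
  rfl

theorem holomorphic_fib (x : R4) : IsHolomorphic jP1 data.ac (fib x) := by
  refine ⟨contMDiff_fib x, ?_⟩
  intro z w
  apply data.inj (fib x z)
  have e1 : mvfderiv IT PsiV (fib x z) (mfderiv (𝓡 2) IT (fib x) z (jP1 z w))
      = cb x (tv 0 (dInc z (jP1 z w))) := by
    rw [mfderiv_fib]
    exact mv_vert (fib x z) (jP1 z w)
  have e2 : mvfderiv IT PsiV (fib x z) (mfderiv (𝓡 2) IT (fib x) z w)
      = cb x (tv 0 (dInc z w)) := by
    rw [mfderiv_fib]
    exact mv_vert (fib x z) w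
  have e3 := data.J_spec (fib x z) (mfderiv (𝓡 2) IT (fib x) z w)
  have e4 : mvfderiv IT PsiV (fib x z)
      (data.ac.J (fib x z) (mfderiv (𝓡 2) IT (fib x) z w))
      = At (PsiV (fib x z)) (mvfderiv IT PsiV (fib x z) (mfderiv (𝓡 2) IT (fib x) z w)) := e3
  rw [e1, e4, e2, At_apply, PsiV_cb]
  change cb x (tv 0 (dInc z (jP1 z w))) = af (cb x (QmV z)) (cb x (tv 0 (dInc z w)))
  have h1 : af (cb x (QmV z)) (cb x (tv 0 (dInc z w))) = cb x (af (QmV z) (tv 0 (dInc z w))) :=
    af_cg (bstV'_mul x) _ _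
  rw [h1, af_base 0 (norm_P1 z) (Pool.Agent.Helper206.Cover.inner_dInc z w), dInc_jP1]
  have h2 : -act (z : R3) 0 = (0 : R4) := by rw [act_zero_right, neg_zero]
  rw [h2]

/-! ### Invariance -/

/-- conjugation by a group element -/
def RG (g : SOG) : VV →L[ℝ] VV :=
  LinearMap.toContinuousLinearMap
    { toFun := cg (toVV g.1) (toVV (giv g.1))
      map_add' := fun X Y => (cg_add X Y).symm
      map_smul' := fun t X => (cg_smul t X).symm }

theorem RG_apply (g : SOG) (X : VV) : RG g X = cg (toVV g.1) (toVV (giv g.1)) X := rfl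

theorem RG_h (g : SOG) : toVV (giv g.1) * toVV g.1 = 1 := giv_mul g.2.isom
theorem RG_h' (g : SOG) : toVV g.1 * toVV (giv g.1) = 1 := mul_giv g.2.isom

theorem PsiV_smul (g : SOG) (m : Mt) : PsiV (g • m) = RG g (PsiV m) := Psi_smul g m

section Act

variable {G : Type*} [Group G] [MulAction G Mt] (ρ : G → SOG) (hρ : ∀ (g : G) (m : Mt), g • m = ρ g • m)

include hρ in
theorem smooth_act (g : G) : ContMDiff IT IT ∞ (fun m : Mt => g • m) := by
  have : (fun m : Mt => g • m) = tact (ρ g) := by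
    funext m
    rw [hρ]; rfl
  rw [this]
  exact contMDiff_tact (ρ g)

include hρ in
theorem inv_form : InvForm G data.symp.form := by
  refine data.invForm (smooth_act ρ hρ) (fun g => RG (ρ g)) ?_ ?_
  · intro g m
    rw [hρ, PsiV_smul]
  · intro g q a b
    exact bf_cg (RG_h (ρ g)) q a b

include hρ in
theorem inv_endo : InvEndo G data.ac.J := by
  refine data.invEndo (smooth_act ρ hρ) (fun g => RG (ρ g)) ?_ ?_
  · intro g m
    rw [hρ, PsiV_smul]
  · intro g q a
    exact af_cg (RG_h (ρ g)) q a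

include hρ in
theorem inv_tri : InvTri G data.vol.form := by
  refine data.invTri (smooth_act ρ hρ) (fun g => RG (ρ g)) ?_ ?_
  · intro g m
    rw [hρ, PsiV_smul]
  · intro g q a b c
    exact tf_cg (RG_h (ρ g)) (RG_h' (ρ g)) q a b c

end Act

end Pool.Agent.W2helper8.TW
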