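import Mathlib
import Pool.Agent.W2helper8.TW.Act

/-!
# A cocompact arithmetic lattice in the isometry group of hyperbolic four-space: the form

The form over `ℤ[√2]` is the Gram matrix of the compact hyperbolic Coxeter simplex whose diagram
is a pentagon with one edge labelled `4`.
-/

open scoped Matrix
open Matrix

noncomputable section

namespace Pool.Agent.W2helper8.TW

/-- The Gram matrix, with parameter `s` for the square root of two. -/
def BF {R : Type*} [CommRing R] (s : R) : Matrix Ix Ix R :=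
  fromBlocks (Matrix.of fun _ _ => 2) (Matrix.of fun _ j => ![-s, 0, 0, -1] j)
    (Matrix.of fun i _ => ![-s, 0, 0, -1] i)
    !![2, -1, 0, 0; -1, 2, -1, 0; 0, -1, 2, -1; 0, 0, -1, 2]

/-- The inverse of the Gram matrix (when `s * s = 2`). -/
def BI (s : ℝ) : V :=
  fromBlocks (Matrix.of fun _ _ => 5 / 2 - 5 / 2 * s)
    (Matrix.of fun _ j => ![-7 / 2 + 3 / 2 * s, -2 + 1 / 2 * s, -1 / 2 - 1 / 2 * s,
      1 - 3 / 2 * s] j)
    (Matrix.of fun i _ => ![-7 / 2 + 3 / 2 * s, -2 + 1 / 2 * s, -1 / 2 - 1 / 2 * s,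
      1 - 3 / 2 * s] i)
    !![5 / 2 - 5 / 2 * s, 1 - 3 / 2 * s, -1 / 2 - 1 / 2 * s, -2 + 1 / 2 * s;
       1 - 3 / 2 * s, 1 - s, -1 / 2 * s, -1;
       -1 / 2 - 1 / 2 * s, -1 / 2 * s, 1 / 2 - 1 / 2 * s, -1 / 2 * s;
       -2 + 1 / 2 * s, -1, -1 / 2 * s, 1 - s]

theorem BF_transpose {R : Type*} [CommRing R] (s : R) : (BF s)ᵀ = BF s := by
  ext i j
  rcases i with ⟨⟩ | i <;> rcases j with ⟨⟩ | j
  · rfl
  · rfl
  · rfl
  · fin_cases i <;> fin_cases j <;> rfl

theorem BI_mul_BF {s : ℝ} (hs : s * s = 2) : BI s * BF s = 1 := by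
  ext i j
  rcases i with ⟨⟩ | i <;> rcases j with ⟨⟩ | j
  · simp [BI, BF, Matrix.mul_apply, Fintype.sum_sum_type, Fin.sum_univ_four]
    linear_combination (-3 / 2 : ℝ) * hs
  · fin_cases j <;> simp [BI, BF, Matrix.mul_apply, Fintype.sum_sum_type, Fin.sum_univ_four]
    · linear_combination (5 / 2 : ℝ) * hs
    · ring
    · ring
    · ring
  · fin_cases i <;> simp [BI, BF, Matrix.mul_apply, Fintype.sum_sum_type, Fin.sum_univ_four]
    · linear_combination (5 / 2 : ℝ) * hs
    · linear_combination (3 / 2 : ℝ) * hs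
    · linear_combination (1 / 2 : ℝ) * hs
    · linear_combination (-1 / 2 : ℝ) * hs
  · fin_cases i <;> fin_cases j <;>
      simp [BI, BF, Matrix.mul_apply, Fintype.sum_sum_type, Fin.sum_univ_four]
    · linear_combination (-3 / 2 : ℝ) * hs
    · ring
    · ring
    · ring
    · linear_combination (-1 / 2 : ℝ) * hs
    · ring
    · ring
    · ring
    · linear_combination (1 / 2 : ℝ) * hs
    · ring
    · ring
    · ring
    · linear_combination (3 / 2 : ℝ) * hs
    · ring
    · ring
    · ring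

theorem BF_mul_BI {s : ℝ} (hs : s * s = 2) : BF s * BI s = 1 :=
  mul_eq_one_comm.1 (BI_mul_BF hs)

/-- the triangular matrix -/
def Tri (a b c d t s : ℝ) : V :=
  fromBlocks (Matrix.of fun _ _ => t) 0
    (Matrix.of fun i _ => ![-a * s / 2, -b * s / 3, -c * s / 4, -d * (4 + s) / 5] i)
    !![a, -a / 2, 0, 0; 0, b, -2 * b / 3, 0; 0, 0, c, -3 * c / 4; 0, 0, 0, d]

/-- the signature matrix with a sign in the time direction -/
def sg (e : ℝ) : V := fromBlocks (Matrix.of fun _ _ => e) 0 0 1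

theorem sg_neg : sg (-1) = eta := by
  unfold sg eta
  congr 1

theorem sg_one : sg 1 = 1 := by
  unfold sg
  rw [← fromBlocks_one]
  congr 1

theorem Tri_sg {a b c d t s e : ℝ} (ha : a * a = 2) (hb : b * b = 3 / 2) (hc : c * c = 4 / 3)
    (hd : d * d = 5 / 4) (hs : s * s = 2) (ht : e * (t * t) = -(2 / 5 * (1 + s))) :
    (Tri a b c d t s)ᵀ * sg e * Tri a b c d t s = BF s := by
  unfold Tri sg BF
  rw [fromBlocks_transpose, fromBlocks_multiply, fromBlocks_multiply]
  refine fromBlocks_inj.2 ⟨?_, ?_, ?_, ?_⟩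
  · ext i j
    simp only [Matrix.mul_apply, Matrix.add_apply, Matrix.transpose_apply, Matrix.of_apply,
      Matrix.zero_apply, Matrix.one_apply, Finset.univ_unique, Finset.sum_singleton,
      Fin.sum_univ_four, Matrix.cons_val_zero, Matrix.cons_val_one, Matrix.cons_val]
    simp
    linear_combination ht + (s ^ 2 / 4) * ha + (s ^ 2 / 9) * hb + (s ^ 2 / 16) * hc
      + ((4 + s) ^ 2 / 25) * hd + (4 / 5) * hs
  · ext i j
    fin_cases j <;> simp [Matrix.mul_apply, Fin.sum_univ_four]
    · linear_combination (-s / 2) * ha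
    · linear_combination (s / 4) * ha - (s / 3) * hb
    · linear_combination (2 * s / 9) * hb - (s / 4) * hc
    · linear_combination (3 * s / 16) * hc - ((4 + s) / 5) * hd
  · ext i j
    fin_cases i <;> simp [Matrix.mul_apply, Fin.sum_univ_four]
    · linear_combination (-s / 2) * ha
    · linear_combination (s / 4) * ha - (s / 3) * hb
    · linear_combination (2 * s / 9) * hb - (s / 4) * hc
    · linear_combination (3 * s / 16) * hc - ((4 + s) / 5) * hd
  · ext i j
    fin_cases i <;> fin_cases j <;> simp [Matrix.mul_apply, Fin.sum_univ_four]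
    · linear_combination ha
    · linear_combination (-1 / 2) * ha
    · linear_combination (-1 / 2) * ha
    · linear_combination (1 / 4) * ha + hb
    · linear_combination (-2 / 3) * hb
    · linear_combination (-2 / 3) * hb
    · linear_combination (4 / 9) * hb + hc
    · linear_combination (-3 / 4) * hc
    · linear_combination (-3 / 4) * hc
    · linear_combination (9 / 16) * hc + hd

/-! ### The change of basis -/

theorem sqrt_two_mul : √(2 : ℝ) * √2 = 2 := Real.mul_self_sqrt (by norm_num)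

theorem one_lt_sqrt_two : 1 < √(2 : ℝ) := by
  have h := sqrt_two_mul
  have h0 := Real.sqrt_nonneg (2 : ℝ)
  nlinarith

/-- the change of basis from the simple roots to the standard coordinates -/
def TT : V := Tri √2 √(3 / 2) √(4 / 3) √(5 / 4) √(2 / 5 * (1 + √2)) √2

theorem TT_eta : TTᵀ * eta * TT = BF √2 := by
  rw [← sg_neg]
  refine Tri_sg (Real.mul_self_sqrt (by norm_num)) (Real.mul_self_sqrt (by norm_num))
    (Real.mul_self_sqrt (by norm_num)) (Real.mul_self_sqrt (by norm_num)) sqrt_two_mul ?_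
  rw [Real.mul_self_sqrt (by positivity)]
  ring

/-- its inverse -/
def TI : V := BI √2 * TTᵀ * eta

theorem TI_mul_TT : TI * TT = 1 := by
  rw [TI, Matrix.mul_assoc, Matrix.mul_assoc, ← Matrix.mul_assoc TTᵀ, TT_eta,
    BI_mul_BF sqrt_two_mul]

theorem TT_mul_TI : TT * TI = 1 := mul_eq_one_comm.1 TI_mul_TT

/-- the change of basis for the conjugate form -/
def SS : V := Tri √2 √(3 / 2) √(4 / 3) √(5 / 4) √(2 / 5 * (√2 - 1)) (-√2)

theorem SS_spec : SSᵀ * SS = BF (-√2) := by
  have h : SSᵀ * sg 1 * SS = BF (-√2) := by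
    refine Tri_sg (Real.mul_self_sqrt (by norm_num)) (Real.mul_self_sqrt (by norm_num))
      (Real.mul_self_sqrt (by norm_num)) (Real.mul_self_sqrt (by norm_num))
      (by rw [neg_mul_neg, sqrt_two_mul]) ?_
    have := one_lt_sqrt_two
    rw [Real.mul_self_sqrt (mul_nonneg (by norm_num) (by linarith))]
    ring
  rwa [sg_one, Matrix.mul_one] at h

/-- its inverse -/
def SI : V := BI (-√2) * SSᵀ

theorem SI_mul_SS : SI * SS = 1 := by
  rw [SI, Matrix.mul_assoc, SS_spec, BI_mul_BF (by rw [neg_mul_neg, sqrt_two_mul])]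

theorem SS_mul_SI : SS * SI = 1 := mul_eq_one_comm.1 SI_mul_SS

/-! ### The arithmetic form -/

/-- the form over `ℤ[√2]` -/
def BZ : Matrix Ix Ix (ℤ√2) := BF Zsqrtd.sqrtd

/-- the first real embedding -/
def re2 : ℤ√2 →+* ℝ := Zsqrtd.lift ⟨√2, by rw [sqrt_two_mul]; norm_num⟩

/-- the second real embedding -/
def cn2 : ℤ√2 →+* ℝ := Zsqrtd.lift ⟨-√2, by rw [neg_mul_neg, sqrt_two_mul]; norm_num⟩

theorem re2_apply (x : ℤ√2) : re2 x = x.re + x.im * √2 := by
  simp [re2, Zsqrtd.lift]

theorem cn2_apply (x : ℤ√2) : cn2 x = x.re - x.im * √2 := by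
  simp [cn2, Zsqrtd.lift]; ring

theorem BF_map {R S : Type*} [CommRing R] [CommRing S] (f : R →+* S) (s : R) :
    (BF s).map f = BF (f s) := by
  ext i j
  rcases i with ⟨⟩ | i <;> rcases j with ⟨⟩ | j
  · simp [BF, map_ofNat f 2]
  · fin_cases j <;> simp [BF]
  · fin_cases i <;> simp [BF]
  · fin_cases i <;> fin_cases j <;> simp [BF, map_ofNat f 2]

theorem BZ_re : BZ.map re2 = BF √2 := by
  rw [BZ, BF_map, re2_apply]; simp

theorem BZ_cn : BZ.map cn2 = BF (-√2) := by
  rw [BZ, BF_map, cn2_apply]; simp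

/-- arithmetic matrices -/
abbrev MZ : Type := Matrix Ix Ix (ℤ√2)

/-- the real form of an arithmetic matrix, in the standard coordinates -/
def rr (g : MZ) : V := TT * g.map re2 * TI

/-- the conjugate of an arithmetic matrix, in orthonormal coordinates -/
def kk (g : MZ) : V := SS * g.map cn2 * SI

theorem rr_mul (g h : MZ) : rr (g * h) = rr g * rr h := by
  unfold rr
  rw [Matrix.map_mul]
  calc TT * (g.map re2 * h.map re2) * TI = TT * g.map re2 * 1 * h.map re2 * TI := by
        simp only [Matrix.mul_assoc, Matrix.one_mul]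
    _ = TT * g.map re2 * (TI * TT) * h.map re2 * TI := by rw [TI_mul_TT]
    _ = _ := by simp only [Matrix.mul_assoc]

theorem kk_mul (g h : MZ) : kk (g * h) = kk g * kk h := by
  unfold kk
  rw [Matrix.map_mul]
  calc SS * (g.map cn2 * h.map cn2) * SI = SS * g.map cn2 * 1 * h.map cn2 * SI := by
        simp only [Matrix.mul_assoc, Matrix.one_mul]
    _ = SS * g.map cn2 * (SI * SS) * h.map cn2 * SI := by rw [SI_mul_SS]
    _ = _ := by simp only [Matrix.mul_assoc]

theorem rr_one : rr 1 = 1 := by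
  unfold rr
  rw [Matrix.map_one _ (map_zero _) (map_one _), Matrix.mul_one, TT_mul_TI]

theorem rr_recover (g : MZ) : TI * rr g * TT = g.map re2 := by
  unfold rr
  calc TI * (TT * g.map re2 * TI) * TT = (TI * TT) * g.map re2 * (TI * TT) := by
        simp only [Matrix.mul_assoc]
    _ = _ := by rw [TI_mul_TT, Matrix.one_mul, Matrix.mul_one]

theorem kk_recover (g : MZ) : SI * kk g * SS = g.map cn2 := by
  unfold kk
  calc SI * (SS * g.map cn2 * SI) * SS = (SI * SS) * g.map cn2 * (SI * SS) := by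
        simp only [Matrix.mul_assoc]
    _ = _ := by rw [SI_mul_SS, Matrix.one_mul, Matrix.mul_one]

theorem re2_injective : Function.Injective re2 := by
  refine Zsqrtd.lift_injective _ ?_
  intro n hn
  have : (2 : ℤ) = n * n := hn
  have h1 : n.natAbs * n.natAbs = 2 := by
    have := congrArg Int.natAbs this
    rw [Int.natAbs_mul] at this
    exact this.symm
  have h2 : n.natAbs < 2 := by nlinarith
  interval_cases n.natAbs <;> omega

theorem rr_injective : Function.Injective rr := by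
  intro g h e
  have h1 : g.map re2 = h.map re2 := by rw [← rr_recover, ← rr_recover, e]
  ext1 i j
  exact re2_injective (congrFun (congrFun h1 i) j)

theorem trace_rr (g : MZ) : (rr g).trace = re2 g.trace := by
  rw [rr, Matrix.mul_assoc, Matrix.trace_mul_comm, Matrix.mul_assoc, TI_mul_TT, Matrix.mul_one]
  simp [Matrix.trace]

theorem trace_kk (g : MZ) : (kk g).trace = cn2 g.trace := by
  rw [kk, Matrix.mul_assoc, Matrix.trace_mul_comm, Matrix.mul_assoc, SI_mul_SS, Matrix.mul_one]
  simp [Matrix.trace]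

theorem TI_eta : TIᵀ * BF √2 * TI = eta := by
  rw [← TT_eta]
  calc TIᵀ * (TTᵀ * eta * TT) * TI = (TT * TI)ᵀ * eta * (TT * TI) := by
        rw [transpose_mul]; simp only [Matrix.mul_assoc]
    _ = eta := by rw [TT_mul_TI]; simp

theorem SI_spec : SIᵀ * BF (-√2) * SI = 1 := by
  rw [← SS_spec]
  calc SIᵀ * (SSᵀ * SS) * SI = (SS * SI)ᵀ * (SS * SI) := by
        rw [transpose_mul]; simp only [Matrix.mul_assoc]
    _ = 1 := by rw [SS_mul_SI]; simp

/-- the arithmetic isometries -/
def IsZ (g : MZ) : Prop := gᵀ * BZ * g = BZ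

theorem IsZ.rr_isom {g : MZ} (hg : IsZ g) : IsIsom (rr g) := by
  have h1 : (g.map re2)ᵀ * BF √2 * g.map re2 = BF √2 := by
    rw [← BZ_re, ← Matrix.transpose_map, ← Matrix.map_mul, ← Matrix.map_mul, hg]
  unfold IsIsom rr
  calc (TT * g.map re2 * TI)ᵀ * eta * (TT * g.map re2 * TI)
      = TIᵀ * ((g.map re2)ᵀ * (TTᵀ * eta * TT) * g.map re2) * TI := by
        rw [transpose_mul, transpose_mul]; simp only [Matrix.mul_assoc]
    _ = eta := by rw [TT_eta, h1, TI_eta]

theorem IsZ.kk_orth {g : MZ} (hg : IsZ g) : (kk g)ᵀ * kk g = 1 := by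
  have h1 : (g.map cn2)ᵀ * BF (-√2) * g.map cn2 = BF (-√2) := by
    rw [← BZ_cn, ← Matrix.transpose_map, ← Matrix.map_mul, ← Matrix.map_mul, hg]
  unfold kk
  calc (SS * g.map cn2 * SI)ᵀ * (SS * g.map cn2 * SI)
      = SIᵀ * ((g.map cn2)ᵀ * (SSᵀ * SS) * g.map cn2) * SI := by
        rw [transpose_mul, transpose_mul]; simp only [Matrix.mul_assoc]
    _ = 1 := by rw [SS_spec, h1, SI_spec]

theorem IsZ.mul {g h : MZ} (hg : IsZ g) (hh : IsZ h) : IsZ (g * h) := by
  unfold IsZ at *
  rw [transpose_mul]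
  calc hᵀ * gᵀ * BZ * (g * h) = hᵀ * (gᵀ * BZ * g) * h := by simp only [Matrix.mul_assoc]
    _ = BZ := by rw [hg, hh]

end Pool.Agent.W2helper8.TW
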