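import Mathlib
import Pool.Agent.W2helper8.TW.Lat0

/-!
# Discreteness of the arithmetic group
-/

open scoped Matrix
open Matrix

noncomputable section

namespace Pool.Agent.W2helper8.TW

theorem isom_entry {h : V} (hh : IsIsom h) (i j : Ix) : |h i j| ≤ 1 + |h o o| := by
  have hc := isom_col hh
  have hr := isom_row hh
  have hcol : ∀ i : Fin 4, h (Sum.inr i) o ^ 2 ≤ h o o ^ 2 := by
    intro i
    have h1 : h (Sum.inr i) o ^ 2 ≤ ‖col h‖ ^ 2 := by
      rw [EuclideanSpace.norm_sq_eq]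
      have := Finset.single_le_sum (f := fun i => ‖(col h) i‖ ^ 2)
        (fun i _ => by positivity) (Finset.mem_univ i)
      simpa [col_apply, sq_abs] using this
    nlinarith
  have hrow : ∀ i : Fin 4, h o (Sum.inr i) ^ 2 ≤ h o o ^ 2 := by
    intro i
    have h1 : h o (Sum.inr i) ^ 2 ≤ ‖col hᵀ‖ ^ 2 := by
      rw [EuclideanSpace.norm_sq_eq]
      have := Finset.single_le_sum (f := fun i => ‖(col hᵀ) i‖ ^ 2)
        (fun i _ => by positivity) (Finset.mem_univ i)
      simpa [col_apply, sq_abs] using this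
    nlinarith
  have habs : ∀ a b : ℝ, a ^ 2 ≤ b ^ 2 → |a| ≤ 1 + |b| := by
    intro a b hab
    have := sq_le_sq.1 hab
    linarith
  rcases i with ⟨⟩ | i <;> rcases j with ⟨⟩ | j
  · exact le_add_of_nonneg_left zero_le_one
  · exact habs _ _ (hrow j)
  · exact habs _ _ (hcol i)
  · have h1 := congrFun (congrFun hh (Sum.inr j)) (Sum.inr j)
    have h2 : -(h o (Sum.inr j)) ^ 2 + ∑ k : Fin 4, h (Sum.inr k) (Sum.inr j) ^ 2 = 1 := by
      simp only [Matrix.mul_apply, Fintype.sum_sum_type, eta, Matrix.fromBlocks_apply₁₁,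
        Matrix.fromBlocks_apply₁₂, Matrix.fromBlocks_apply₂₁, Matrix.fromBlocks_apply₂₂,
        Matrix.transpose_apply, Finset.univ_unique, Finset.sum_singleton, Fin.sum_univ_four,
        Matrix.one_apply, Matrix.neg_apply, Matrix.zero_apply] at h1
      simp at h1
      rw [Fin.sum_univ_four]
      have e : h (Sum.inl PUnit.unit) (Sum.inr j) = h o (Sum.inr j) := rfl
      rw [e] at h1
      linarith
    have h3 : h (Sum.inr i) (Sum.inr j) ^ 2 ≤ ∑ k : Fin 4, h (Sum.inr k) (Sum.inr j) ^ 2 :=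
      Finset.single_le_sum (f := fun k => h (Sum.inr k) (Sum.inr j) ^ 2)
        (fun i _ => by positivity) (Finset.mem_univ i)
    have h4 := hrow j
    have h5 : h (Sum.inr i) (Sum.inr j) ^ 2 ≤ (1 + |h o o|) ^ 2 := by
      have := sq_abs (h o o)
      nlinarith [abs_nonneg (h o o)]
    exact abs_le_of_sq_le_sq h5 (by positivity)

theorem orth_entry {k : V} (hk : kᵀ * k = 1) (i j : Ix) : |k i j| ≤ 1 := by
  have h1 := congrFun (congrFun hk j) j
  have h2 : ∑ l : Ix, k l j ^ 2 = 1 := by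
    rw [Matrix.mul_apply, Matrix.one_apply_eq] at h1
    rw [← h1]
    refine Finset.sum_congr rfl fun l _ => ?_
    rw [Matrix.transpose_apply]; ring
  have h3 : k i j ^ 2 ≤ ∑ l : Ix, k l j ^ 2 :=
    Finset.single_le_sum (f := fun l => k l j ^ 2) (fun i _ => by positivity) (Finset.mem_univ i)
  have h4 : k i j ^ 2 ≤ 1 ^ 2 := by rw [one_pow]; linarith
  exact abs_le_of_sq_le_sq h4 zero_le_one

theorem conj_entry (A B : V) : ∃ K : ℝ, 0 ≤ K ∧ ∀ (M : V) (c : ℝ), 0 ≤ c → (∀ i j, |M i j| ≤ c) →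
    ∀ i j, |(A * M * B) i j| ≤ K * c := by
  refine ⟨(∑ i : Ix, ∑ k : Ix, |A i k|) * (∑ l : Ix, ∑ j : Ix, |B l j|), by positivity, ?_⟩
  intro M c hc hM i j
  rw [Matrix.mul_apply]
  have h1 : ∀ l : Ix, |(A * M) i l| ≤ (∑ i : Ix, ∑ k : Ix, |A i k|) * c := by
    intro l
    rw [Matrix.mul_apply]
    calc |∑ k, A i k * M k l| ≤ ∑ k, |A i k * M k l| := Finset.abs_sum_le_sum_abs _ _
      _ ≤ ∑ k, |A i k| * c := by
          refine Finset.sum_le_sum fun k _ => ?_
          rw [abs_mul]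
          exact mul_le_mul_of_nonneg_left (hM k l) (abs_nonneg _)
      _ = (∑ k, |A i k|) * c := by rw [Finset.sum_mul]
      _ ≤ _ := by
          refine mul_le_mul_of_nonneg_right ?_ hc
          exact Finset.single_le_sum (f := fun i => ∑ k : Ix, |A i k|)
            (fun i _ => by positivity) (Finset.mem_univ i)
  calc |∑ l, (A * M) i l * B l j| ≤ ∑ l, |(A * M) i l * B l j| := Finset.abs_sum_le_sum_abs _ _
    _ ≤ ∑ l, ((∑ i : Ix, ∑ k : Ix, |A i k|) * c) * (∑ j : Ix, |B l j|) := by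
        refine Finset.sum_le_sum fun l _ => ?_
        rw [abs_mul]
        refine mul_le_mul (h1 l) ?_ (abs_nonneg _) (by positivity)
        exact Finset.single_le_sum (f := fun j => |B l j|)
          (fun i _ => by positivity) (Finset.mem_univ j)
    _ = _ := by rw [← Finset.mul_sum]; ring

theorem fin_ring (C : ℝ) : {x : ℤ√2 | |re2 x| ≤ C ∧ |cn2 x| ≤ C}.Finite := by
  have h1 : {p : ℤ × ℤ | |(p.1 : ℝ)| ≤ C ∧ |(p.2 : ℝ)| ≤ C}.Finite := by
    have h2 : {n : ℤ | |(n : ℝ)| ≤ C}.Finite := by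
      refine (Set.finite_Icc (-⌊C⌋) ⌊C⌋).subset ?_
      intro n hn
      have hn' : |(n : ℝ)| ≤ C := hn
      have hn' := abs_le.1 hn'
      constructor
      · have : -(n : ℝ) ≤ C := by linarith
        have h3 : -n ≤ ⌊C⌋ := Int.le_floor.2 (by push_cast; exact this)
        linarith
      · exact Int.le_floor.2 hn'.2
    exact (h2.prod h2).subset fun p hp => ⟨hp.1, hp.2⟩
  have h3 : Function.Injective (fun x : ℤ√2 => (x.re, x.im)) := by
    intro x y h
    have := Prod.mk.inj h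
    exact Zsqrtd.ext this.1 this.2
  refine (h1.preimage h3.injOn).subset ?_
  rintro x ⟨hx1, hx2⟩
  rw [re2_apply] at hx1
  rw [cn2_apply] at hx2
  have a1 := abs_le.1 hx1
  have a2 := abs_le.1 hx2
  have hs := one_lt_sqrt_two
  have b1 : |(x.re : ℝ)| ≤ C := abs_le.2 ⟨by linarith, by linarith⟩
  have b2 : |(x.im : ℝ) * √2| ≤ C := abs_le.2 ⟨by linarith, by linarith⟩
  refine ⟨b1, ?_⟩
  rw [abs_mul, abs_of_pos (by linarith : 0 < √(2 : ℝ))] at b2
  change |(x.im : ℝ)| ≤ C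
  nlinarith [abs_nonneg (x.im : ℝ)]

theorem fin_bounded (C : ℝ) : {g : MZ | IsZ g ∧ |rr g o o| ≤ C}.Finite := by
  obtain ⟨K1, hK1, h1⟩ := conj_entry TI TT
  obtain ⟨K2, hK2, h2⟩ := conj_entry SI SS
  set D : ℝ := max (K1 * (1 + |C|)) (K2 * 1) with hD
  have hf := fin_ring D
  have h3 : {g : Ix → Ix → ℤ√2 | ∀ i, g i ∈ {r : Ix → ℤ√2 | ∀ j, r j ∈
      {x : ℤ√2 | |re2 x| ≤ D ∧ |cn2 x| ≤ D}}}.Finite :=
    Set.Finite.pi' fun _ => Set.Finite.pi' fun _ => hf
  refine h3.subset ?_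
  rintro g ⟨hg, hC⟩ i j
  have hC' : |rr g o o| ≤ |C| := hC.trans (le_abs_self C)
  constructor
  · have e : re2 (g i j) = (TI * rr g * TT) i j := by rw [rr_recover]; rfl
    rw [e]
    refine (h1 (rr g) (1 + |C|) (by positivity) ?_ i j).trans (le_max_left _ _)
    intro i j
    exact (isom_entry hg.rr_isom i j).trans (by linarith)
  · have e : cn2 (g i j) = (SI * kk g * SS) i j := by rw [kk_recover]; rfl
    rw [e]
    exact (h2 (kk g) 1 zero_le_one (orth_entry hg.kk_orth) i j).trans (le_max_right _ _)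

end Pool.Agent.W2helper8.TW
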