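import Mathlib
import Pool.Agent.W2helper8.TW.Lat0

/-!
# The action of orthochronous isometries on the hyperboloid
-/

open scoped Matrix
open Matrix

noncomputable section

namespace Pool.Agent.W2helper8.TW

/-- the point of the hyperboloid -/
def hv (x : R4) : Ix → ℝ := Sum.elim (fun _ => t0 x) x

theorem hv_o (x : R4) : hv x o = t0 x := rfl
theorem hv_r (x : R4) (i : Fin 4) : hv x (Sum.inr i) = x i := rfl

theorem bst_col (x : R4) (j : Ix) : bst x j o = hv x j := by
  rcases j with ⟨⟩ | j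
  · simp [bst, hv]
  · simp [bst, hv]

theorem mul_bst_col (h : V) (x : R4) (j : Ix) : (h * bst x) j o = (h *ᵥ hv x) j := by
  rw [Matrix.mul_apply, Matrix.mulVec, dotProduct]
  exact Finset.sum_congr rfl fun k _ => by rw [bst_col]

theorem isom_oo_eq {g : V} (hg : IsIsom g) (hp : 0 < g o o) : g o o = t0 (col g) := by
  have h := isom_col hg
  rw [t0, ← h, Real.sqrt_mul_self hp.le]

theorem mulVec_hv {h : V} (hh : IsIsom h) (hp : 0 < h o o) (x : R4) :
    h *ᵥ hv x = hv (mov h x) := by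
  have h1 : IsIsom (h * bst x) := hh.mul (bst_isom x)
  have h2 : 0 < (h * bst x) o o := hh.pos_mul (bst_isom x) hp (bst_so x).pos
  ext j
  rw [← mul_bst_col]
  rcases j with ⟨⟩ | j
  · exact isom_oo_eq h1 h2
  · rfl

theorem hv_injective : Function.Injective hv := by
  intro x y h
  ext i
  exact congrFun h (Sum.inr i)

theorem mov_mul {g h : V} (hg : IsIsom g) (pg : 0 < g o o) (hh : IsIsom h) (ph : 0 < h o o)
    (x : R4) : mov (g * h) x = mov g (mov h x) := by
  apply hv_injective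
  rw [← mulVec_hv (hg.mul hh) (hg.pos_mul hh pg ph), ← mulVec_hv hg pg, ← mulVec_hv hh ph,
    Matrix.mulVec_mulVec]

theorem isom_one : IsIsom (1 : V) := by simp [IsIsom]

theorem mov_one (x : R4) : mov 1 x = x := by
  rw [mov, Matrix.one_mul, col_bst]

/-- an isometry moving `x` a bounded amount is bounded -/
theorem oo_bound {h : V} (hh : IsIsom h) (hp : 0 < h o o) (x : R4) :
    h o o ≤ t0 (mov h x) * (t0 x + ‖x‖) := by
  have h1 := congrFun (mulVec_hv hh hp x) o
  rw [hv_o] at h1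
  have h2 : (h *ᵥ hv x) o = h o o * t0 x + inner ℝ x (col hᵀ) := by
    simp [Matrix.mulVec, dotProduct, Fintype.sum_sum_type, PiLp.inner_apply, Fin.sum_univ_four,
      col_apply, hv]
  have h3 : |inner ℝ x (col hᵀ)| ≤ ‖x‖ * ‖col hᵀ‖ := abs_real_inner_le_norm _ _
  have h4 := (abs_le.1 h3).1
  have h5 := isom_row hh
  have h6 : ‖col hᵀ‖ ≤ h o o := by nlinarith [norm_nonneg (col hᵀ)]
  have h7 : h o o * (t0 x - ‖x‖) ≤ t0 (mov h x) := by
    rw [← h1, h2]
    nlinarith [norm_nonneg x, norm_nonneg (col hᵀ)]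
  have h8 : (t0 x - ‖x‖) * (t0 x + ‖x‖) = 1 := by
    have := t0_sq x
    ring_nf
    nlinarith
  have h9 : 0 < t0 x + ‖x‖ := add_pos_of_pos_of_nonneg (t0_pos x) (norm_nonneg x)
  calc h o o = h o o * (t0 x - ‖x‖) * (t0 x + ‖x‖) := by rw [mul_assoc, h8, mul_one]
    _ ≤ _ := mul_le_mul_of_nonneg_right h7 h9.le

theorem t0_mono {x : R4} {R : ℝ} (hx : ‖x‖ ≤ R) : t0 x ≤ 1 + R := by
  have h0 := norm_nonneg x
  rw [t0]
  refine Real.sqrt_le_iff.2 ⟨by linarith, by nlinarith⟩

end Pool.Agent.W2helper8.TW
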