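import Mathlib
import Pool.Agent.W2helper8.TW.LatV
import Pool.Agent.W2helper8.TW.LatF

/-!
# Cocompactness of the reflection group
-/

open scoped Matrix
open Matrix

noncomputable section

namespace Pool.Agent.W2helper8.TW

/-- the coordinates in the basis of simple roots -/
def cf (x : R4) : Ix → ℝ := TI *ᵥ hv x

/-- the sum of the coordinates -/
def ff (x : R4) : ℝ := ∑ j, cf x j

theorem BI_transpose (s : ℝ) : (BI s)ᵀ = BI s := by
  ext i j
  rcases i with ⟨⟩ | i <;> rcases j with ⟨⟩ | j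
  · rfl
  · rfl
  · rfl
  · fin_cases i <;> fin_cases j <;> rfl

theorem sqrt_two_lb : (1.41 : ℝ) < √2 := by
  have h := sqrt_two_mul
  have h0 := Real.sqrt_nonneg (2 : ℝ)
  nlinarith

theorem sqrt_two_ub : √(2 : ℝ) < 1.5 := by
  have h := sqrt_two_mul
  have h0 := Real.sqrt_nonneg (2 : ℝ)
  nlinarith

theorem BI_entry (i j : Ix) : BI √2 i j ≤ -(1 / 5) := by
  have h1 := sqrt_two_lb
  have h2 := sqrt_two_ub
  rcases i with ⟨⟩ | i <;> rcases j with ⟨⟩ | j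
  · simp [BI]; linarith
  · fin_cases j <;> simp [BI] <;> linarith
  · fin_cases i <;> simp [BI] <;> linarith
  · fin_cases i <;> fin_cases j <;> simp [BI] <;> linarith

/-- the vector of the linear functional -/
def wv : Ix → ℝ := (fun _ => 1) ᵥ* TI

theorem ff_eq (x : R4) : ff x = wv ⬝ᵥ hv x := by
  rw [wv, ← Matrix.dotProduct_mulVec, ff, cf]
  simp [dotProduct]

theorem wv_eq : wv = eta *ᵥ (TT *ᵥ (BI √2 *ᵥ fun _ => 1)) := by
  rw [wv, TI, ← Matrix.mulVec_transpose, transpose_mul, transpose_mul, BI_transpose,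
    transpose_transpose, eta_transpose, Matrix.mulVec_mulVec, Matrix.mulVec_mulVec]
  simp only [Matrix.mul_assoc]

theorem qv_neg (i : Ix) : (BI √2 *ᵥ fun _ => (1 : ℝ)) i < 0 := by
  rw [Matrix.mulVec, dotProduct]
  have : ∑ j : Ix, BI √2 i j * 1 ≤ ∑ _j : Ix, (-(1 / 5) : ℝ) :=
    Finset.sum_le_sum fun j _ => by rw [mul_one]; exact BI_entry i j
  refine this.trans_lt ?_
  simp [Fintype.card_sum]

theorem TT_o (v : Ix → ℝ) : (TT *ᵥ v) o = √(2 / 5 * (1 + √2)) * v o := by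
  simp [TT, Tri, Matrix.mulVec, dotProduct, Fintype.sum_sum_type]

theorem eta_mulVec_o (v : Ix → ℝ) : (eta *ᵥ v) o = -v o := by
  simp [eta, Matrix.mulVec, dotProduct, Fintype.sum_sum_type]

theorem eta_mulVec_r (v : Ix → ℝ) (i : Fin 4) : (eta *ᵥ v) (Sum.inr i) = v (Sum.inr i) := by
  simp [eta, Matrix.mulVec, dotProduct, Fintype.sum_sum_type, Matrix.one_apply]

theorem wv_o_pos : 0 < wv o := by
  rw [wv_eq, eta_mulVec_o, TT_o]
  have h1 := qv_neg o
  have h2 : 0 < √(2 / 5 * (1 + √2)) := Real.sqrt_pos.2 (by positivity)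
  nlinarith

theorem form_TT (v : Ix → ℝ) :
    (TT *ᵥ v) ⬝ᵥ (eta *ᵥ (TT *ᵥ v)) = v ⬝ᵥ (BF √2 *ᵥ v) := by
  rw [← TT_eta, Matrix.dotProduct_mulVec, Matrix.vecMul_mulVec, ← Matrix.dotProduct_mulVec,
    Matrix.mulVec_mulVec]

theorem eta_form (v : Ix → ℝ) : v ⬝ᵥ (eta *ᵥ v) = -v o ^ 2 + ∑ i : Fin 4, v (Sum.inr i) ^ 2 := by
  rw [dotProduct, Fintype.sum_sum_type]
  simp only [Finset.univ_unique, Finset.sum_singleton, eta_mulVec_r]
  have e : (eta *ᵥ v) (Sum.inl default) = -v o := eta_mulVec_o v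
  have e' : v (Sum.inl default) = v o := rfl
  rw [e, e']
  congr 1
  · ring
  · exact Finset.sum_congr rfl fun i _ => by ring

theorem hv_form (x : R4) : hv x ⬝ᵥ (eta *ᵥ hv x) = -1 := by
  rw [eta_form, hv_o]
  have h1 := t0_sq x
  rw [EuclideanSpace.norm_sq_eq] at h1
  simp only [hv_r, Real.norm_eq_abs, sq_abs] at *
  linarith

/-- the spatial part of the functional -/
def wr : R4 := WithLp.toLp 2 fun i => wv (Sum.inr i)

theorem wr_sq : ‖wr‖ ^ 2 < wv o ^ 2 := by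
  have h1 := form_TT (BI √2 *ᵥ fun _ => 1)
  rw [eta_form] at h1
  have h2 : (BI √2 *ᵥ fun _ => (1 : ℝ)) ⬝ᵥ (BF √2 *ᵥ (BI √2 *ᵥ fun _ => 1))
      = ∑ i : Ix, (BI √2 *ᵥ fun _ => (1 : ℝ)) i := by
    rw [Matrix.mulVec_mulVec, BF_mul_BI sqrt_two_mul, Matrix.one_mulVec]
    simp [dotProduct]
  have h3 : ∑ i : Ix, (BI √2 *ᵥ fun _ => (1 : ℝ)) i < 0 :=
    Finset.sum_neg (fun i _ => qv_neg i) ⟨o, Finset.mem_univ _⟩
  have h4 : wv o = -(TT *ᵥ (BI √2 *ᵥ fun _ => 1)) o := by rw [wv_eq, eta_mulVec_o]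
  have h5 : ∀ i : Fin 4, wv (Sum.inr i) = (TT *ᵥ (BI √2 *ᵥ fun _ => 1)) (Sum.inr i) := fun i => by
    rw [wv_eq, eta_mulVec_r]
  rw [EuclideanSpace.norm_sq_eq, h4]
  simp only [wr, h5, Real.norm_eq_abs, sq_abs]
  rw [h2] at h1
  nlinarith

theorem exists_kappa : ∃ κ : ℝ, 0 < κ ∧ ∀ x : R4, κ * t0 x ≤ ff x := by
  refine ⟨wv o - ‖wr‖, ?_, ?_⟩
  · have h1 := wr_sq
    have h2 := wv_o_pos
    nlinarith [norm_nonneg wr]
  · intro x
    have h1 : ff x = wv o * t0 x + inner ℝ x wr := by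
      rw [ff_eq, dotProduct, Fintype.sum_sum_type]
      simp only [Finset.univ_unique, Finset.sum_singleton, hv_r]
      simp [PiLp.inner_apply, wr]
      left; rfl
    have h2 := (abs_le.1 (abs_real_inner_le_norm x wr)).1
    have h3 : ‖x‖ ≤ t0 x := by
      have := t0_sq x
      have := t0_pos x
      nlinarith [norm_nonneg x]
    rw [h1]
    nlinarith [norm_nonneg wr, norm_nonneg x]

/-! ### The reflections -/

/-- the row of the form -/
def bz (i : Ix) : Ix → ℤ√2 := fun j => BZ i j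

/-- the reflection in a simple root -/
def rf (i : Ix) : MZ := 1 - vecMulVec (Pi.single i 1) (bz i)

theorem BZ_transpose : BZᵀ = BZ := BF_transpose _

theorem BZ_symm (i j : Ix) : BZ i j = BZ j i := congrFun (congrFun BZ_transpose j) i

theorem BZ_diag (i : Ix) : BZ i i = 2 := by
  rcases i with ⟨⟩ | i
  · rfl
  · fin_cases i <;> rfl

theorem BZ_single (i : Ix) : BZ *ᵥ (Pi.single i 1) = bz i := by
  ext1 j
  rw [Matrix.mulVec_single_one]
  exact BZ_symm j i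

theorem single_BZ (i : Ix) : (Pi.single i 1) ᵥ* BZ = bz i := by
  ext1 j
  rw [Matrix.single_one_vecMul]
  rfl

theorem rf_IsZ (i : Ix) : IsZ (rf i) := by
  unfold IsZ rf
  rw [transpose_sub, transpose_one, transpose_vecMulVec, Matrix.sub_mul, Matrix.one_mul,
    vecMulVec_mul, single_BZ, Matrix.mul_sub, Matrix.mul_one, Matrix.sub_mul, mul_vecMulVec,
    BZ_single, vecMulVec_mul_vecMulVec]
  have : bz i ⬝ᵥ Pi.single i 1 = 2 := by
    rw [dotProduct_single_one]; exact BZ_diag i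
  rw [this]
  ext1 a b
  simp only [Matrix.sub_apply, vecMulVec_apply, Pi.smul_apply, smul_eq_mul]
  ring

theorem BZ_row_re (i : Ix) : (fun j => re2 (bz i j)) = fun j => BF √2 i j := by
  ext j
  rw [← BZ_re]; rfl

theorem rf_map (i : Ix) : (rf i).map re2 = 1 - vecMulVec (Pi.single i 1) (BF √2 i) := by
  have h1 : ((rf i).map re2) = (1 : MZ).map re2
      - (vecMulVec (Pi.single i 1) (bz i)).map re2 := by
    rw [rf, Matrix.map_sub _ (map_sub re2)]
  rw [h1, Matrix.map_one _ (map_zero _) (map_one _)]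
  congr 1
  ext a b
  rw [Matrix.map_apply, vecMulVec_apply, vecMulVec_apply, map_mul]
  congr 1
  · by_cases h : a = i
    · subst h; simp
    · simp [h]
  · exact congrFun (BZ_row_re i) b

/-- the image of a simple root -/
def ut (i : Ix) : Ix → ℝ := TT *ᵥ Pi.single i 1

theorem BF_row (i : Ix) : (BF √2 i) ᵥ* TI = eta *ᵥ ut i := by
  have h1 : BF √2 i = (Pi.single i 1) ᵥ* BF √2 := by
    rw [Matrix.single_one_vecMul]; rfl
  rw [h1, ← TT_eta, Matrix.vecMul_vecMul, Matrix.mul_assoc, TT_mul_TI, Matrix.mul_one,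
    ← Matrix.mulVec_transpose, transpose_mul, eta_transpose, transpose_transpose, ut,
    Matrix.mulVec_mulVec]

theorem rr_rf (i : Ix) : rr (rf i) = 1 - vecMulVec (ut i) (eta *ᵥ ut i) := by
  rw [rr, rf_map, Matrix.mul_sub, Matrix.mul_one, Matrix.sub_mul, TT_mul_TI, mul_vecMulVec,
    vecMulVec_mul, BF_row]
  rfl

theorem rr_rf_pos (i : Ix) : 0 < rr (rf i) o o := by
  rw [rr_rf, Matrix.sub_apply, Matrix.one_apply_eq, vecMulVec_apply, eta_mulVec_o]
  nlinarith [sq_nonneg (ut i o)]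

theorem cf_mov {g : MZ} (hg : IsZ g) (hp : 0 < rr g o o) (x : R4) :
    cf (mov (rr g) x) = g.map re2 *ᵥ cf x := by
  rw [cf, ← mulVec_hv hg.rr_isom hp, cf, rr, Matrix.mulVec_mulVec, Matrix.mulVec_mulVec]
  rw [← Matrix.mul_assoc, ← Matrix.mul_assoc, TI_mul_TT, Matrix.one_mul]

theorem ff_rf (i : Ix) (y : R4) : ff (mov (rr (rf i)) y) = ff y - (BF √2 *ᵥ cf y) i := by
  rw [ff, cf_mov (rf_IsZ i) (rr_rf_pos i), rf_map, Matrix.sub_mulVec, Matrix.one_mulVec,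
    ff]
  simp only [Pi.sub_apply, Finset.sum_sub_distrib]
  congr 1
  have h1 : ∀ j : Ix, (vecMulVec (Pi.single i (1 : ℝ)) (BF √2 i) *ᵥ cf y) j
      = (Pi.single i (1 : ℝ) : Ix → ℝ) j * (BF √2 *ᵥ cf y) i := by
    intro j
    rw [Matrix.mulVec, Matrix.mulVec, dotProduct, dotProduct, Finset.mul_sum]
    refine Finset.sum_congr rfl fun k _ => ?_
    rw [vecMulVec_apply]; ring
  simp only [h1]
  rw [← Finset.sum_mul]
  simp

/-! ### The greedy argument -/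

theorem IsZ_one : IsZ (1 : MZ) := by simp [IsZ]

theorem exists_min (hfin : ∀ C : ℝ, {g : MZ | IsZ g ∧ |rr g o o| ≤ C}.Finite) (x : R4) :
    ∃ g : MZ, IsZ g ∧ 0 < rr g o o ∧ ∀ i, (BF √2 *ᵥ cf (mov (rr g) x)) i ≤ 0 := by
  obtain ⟨κ, hκ, hk⟩ := exists_kappa
  set S : Set MZ := {g | IsZ g ∧ 0 < rr g o o ∧ ff (mov (rr g) x) ≤ ff x} with hS
  have hSf : S.Finite := by
    refine (hfin (ff x / κ * (t0 x + ‖x‖))).subset ?_
    rintro g ⟨hg, hp, hf⟩
    refine ⟨hg, ?_⟩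
    rw [abs_of_pos hp]
    refine (oo_bound hg.rr_isom hp x).trans ?_
    refine mul_le_mul_of_nonneg_right ?_ (add_nonneg (t0_pos x).le (norm_nonneg x))
    rw [le_div_iff₀ hκ, mul_comm]
    exact (hk _).trans hf
  have hSn : S.Nonempty := by
    refine ⟨1, IsZ_one, ?_, ?_⟩
    · rw [rr_one]; simp
    · rw [rr_one, mov_one]
  obtain ⟨g, ⟨hg, hp, hf⟩, hmin⟩ := Set.exists_min_image S (fun g => ff (mov (rr g) x)) hSf hSn
  refine ⟨g, hg, hp, fun i => ?_⟩
  by_contra hcon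
  push Not at hcon
  have h1 : mov (rr (rf i * g)) x = mov (rr (rf i)) (mov (rr g) x) := by
    rw [rr_mul]
    exact mov_mul (rf_IsZ i).rr_isom (rr_rf_pos i) hg.rr_isom hp x
  have h2 : ff (mov (rr (rf i * g)) x) < ff (mov (rr g) x) := by
    rw [h1, ff_rf]; linarith
  have h3 : rf i * g ∈ S := by
    refine ⟨(rf_IsZ i).mul hg, ?_, h2.le.trans hf⟩
    rw [rr_mul]
    exact (rf_IsZ i).rr_isom.pos_mul hg.rr_isom (rr_rf_pos i) hp
  exact absurd (hmin _ h3) (not_le.2 h2)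

theorem exists_beta : ∃ R : ℝ, ∀ y : R4, (∀ i, (BF √2 *ᵥ cf y) i ≤ 0) → ff y ≤ R := by
  refine ⟨∑ j : Ix, ∑ i : Ix, |BI √2 j i| * 3, ?_⟩
  intro y hy
  set b : Ix → ℝ := BF √2 *ᵥ cf y with hb
  have hc : cf y = BI √2 *ᵥ b := by
    rw [hb, Matrix.mulVec_mulVec, BI_mul_BF sqrt_two_mul, Matrix.one_mulVec]
  have hq : b ⬝ᵥ (BI √2 *ᵥ b) = -1 := by
    have h1 := form_TT (cf y)
    have h2 : TT *ᵥ cf y = hv y := by
      rw [cf, Matrix.mulVec_mulVec, TT_mul_TI, Matrix.one_mulVec]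
    rw [h2, hv_form] at h1
    rw [← hc, dotProduct_comm]
    exact h1.symm
  have hs : (∑ i : Ix, b i) ^ 2 ≤ 5 := by
    have h1 : b ⬝ᵥ (BI √2 *ᵥ b) ≤ ∑ i : Ix, ∑ j : Ix, -(1 / 5) * (b i * b j) := by
      rw [dotProduct]
      refine Finset.sum_le_sum fun i _ => ?_
      rw [Matrix.mulVec, dotProduct, Finset.mul_sum]
      refine Finset.sum_le_sum fun j _ => ?_
      have h2 : 0 ≤ b i * b j := mul_nonneg_of_nonpos_of_nonpos (hy i) (hy j)
      have h3 := BI_entry i j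
      nlinarith
    have h2 : ∑ i : Ix, ∑ j : Ix, -(1 / 5) * (b i * b j) = -(1 / 5) * (∑ i : Ix, b i) ^ 2 := by
      rw [sq, Finset.sum_mul_sum, Finset.mul_sum]
      exact Finset.sum_congr rfl fun i _ => by rw [Finset.mul_sum]
    rw [hq, h2] at h1
    linarith
  have hs' : -3 ≤ ∑ i : Ix, b i := by nlinarith
  have hb3 : ∀ i, |b i| ≤ 3 := by
    intro i
    rw [abs_of_nonpos (hy i)]
    have h1 : ∑ j : Ix, b j ≤ b i := by
      have := Finset.single_le_sum (f := fun j => -b j) (fun j _ => neg_nonneg.2 (hy j))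
        (Finset.mem_univ i)
      rw [Finset.sum_neg_distrib] at this
      linarith
    linarith
  rw [ff, hc]
  refine Finset.sum_le_sum fun j _ => ?_
  rw [Matrix.mulVec, dotProduct]
  refine Finset.sum_le_sum fun i _ => ?_
  calc BI √2 j i * b i ≤ |BI √2 j i * b i| := le_abs_self _
    _ = |BI √2 j i| * |b i| := abs_mul _ _
    _ ≤ _ := mul_le_mul_of_nonneg_left (hb3 i) (abs_nonneg _)

theorem exists_bound (hfin : ∀ C : ℝ, {g : MZ | IsZ g ∧ |rr g o o| ≤ C}.Finite) :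
    ∃ R : ℝ, ∀ x : R4, ∃ g : MZ, IsZ g ∧ 0 < rr g o o ∧ ‖mov (rr g) x‖ ≤ R := by
  obtain ⟨κ, hκ, hk⟩ := exists_kappa
  obtain ⟨R, hR⟩ := exists_beta
  refine ⟨R / κ, fun x => ?_⟩
  obtain ⟨g, hg, hp, hi⟩ := exists_min hfin x
  refine ⟨g, hg, hp, ?_⟩
  set y := mov (rr g) x
  have h1 : ‖y‖ ≤ t0 y := by
    have := t0_sq y
    have := t0_pos y
    nlinarith [norm_nonneg y]
  rw [le_div_iff₀ hκ, mul_comm]
  exact (mul_le_mul_of_nonneg_left h1 hκ.le).trans ((hk y).trans (hR y hi))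

end Pool.Agent.W2helper8.TW
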