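import Mathlib
import Pool.Agent.W2helper8.TW.LatF
import Pool.Agent.W2helper8.TW.LatV
import Pool.Agent.W2helper8.TW.Twist

/-!
# The congruence subgroups
-/

open scoped Matrix
open Matrix

noncomputable section

namespace Pool.Agent.W2helper8.TW

/-- the quotient ring -/
abbrev Qn (n : ℕ) : Type := ℤ√2 ⧸ Ideal.span {(n : ℤ√2)}

/-- the reduction map -/
abbrev qn (n : ℕ) : ℤ√2 →+* Qn n := Ideal.Quotient.mk (Ideal.span {(n : ℤ√2)})

instance finite_Qn (n : ℕ) [NeZero n] : Finite (Qn n) := by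
  refine Finite.of_surjective
    (fun p : ZMod n × ZMod n => qn n ⟨(p.1.val : ℤ), (p.2.val : ℤ)⟩) ?_
  intro q
  obtain ⟨x, rfl⟩ := Ideal.Quotient.mk_surjective q
  refine ⟨((x.re : ZMod n), (x.im : ZMod n)), ?_⟩
  refine Ideal.Quotient.eq.2 ?_
  rw [Ideal.mem_span_singleton]
  have h : ∀ z : ℤ, (n : ℤ) ∣ (((z : ZMod n).val : ℤ) - z) := by
    intro z
    rw [← ZMod.intCast_eq_intCast_iff_dvd_sub]
    simp
  obtain ⟨a, ha⟩ := h x.re
  obtain ⟨b, hb⟩ := h x.im
  refine ⟨⟨a, b⟩, ?_⟩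
  apply Zsqrtd.ext
  · simpa using ha
  · simpa using hb

theorem det_BZ_ne : BZ.det ≠ 0 := by
  intro h
  have h1 : (BF √2).det = 0 := by
    rw [← BZ_re]
    have := RingHom.map_det re2 BZ
    rw [h, map_zero] at this
    exact this.symm
  have h2 := congrArg Matrix.det (BI_mul_BF sqrt_two_mul)
  rw [det_mul, h1, mul_zero, det_one] at h2
  exact zero_ne_one h2

instance : IsDomain (ℤ√2) := by
  have : NoZeroDivisors (ℤ√2) := by
    refine ⟨?_⟩
    intro a b h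
    have h1 : re2 a * re2 b = 0 := by rw [← map_mul, h, map_zero]
    rcases mul_eq_zero.1 h1 with h | h
    · left; exact re2_injective (by rw [h, map_zero])
    · right; exact re2_injective (by rw [h, map_zero])
  exact NoZeroDivisors.to_isDomain _

theorem IsZ.det_sq {g : MZ} (hg : IsZ g) : g.det * g.det = 1 := by
  have h := congrArg Matrix.det hg
  rw [det_mul, det_mul, det_transpose] at h
  have h2 : (g.det * g.det - 1) * BZ.det = 0 := by linear_combination h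
  rcases mul_eq_zero.1 h2 with h | h
  · linear_combination h
  · exact absurd h det_BZ_ne

theorem IsZ.exists_unit {g : MZ} (hg : IsZ g) : ∃ u : MZˣ, u.1 = g := by
  have h : IsUnit g := (Matrix.isUnit_iff_isUnit_det g).2 (IsUnit.of_mul_eq_one _ hg.det_sq)
  exact h

theorem IsZ.inv {u : MZˣ} (hu : IsZ u.1) : IsZ (u⁻¹).1 := by
  unfold IsZ at *
  have h1 : u.1 * (u⁻¹).1 = 1 := u.mul_inv
  calc ((u⁻¹).1)ᵀ * BZ * (u⁻¹).1 = ((u⁻¹).1)ᵀ * (u.1ᵀ * BZ * u.1) * (u⁻¹).1 := by rw [hu]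
    _ = (u.1 * (u⁻¹).1)ᵀ * BZ * (u.1 * (u⁻¹).1) := by
        rw [transpose_mul]; simp only [Matrix.mul_assoc]
    _ = BZ := by rw [h1]; simp

theorem giv_oo (g : V) : giv g o o = g o o := by
  simp [giv, eta, Matrix.mul_apply, Fintype.sum_sum_type]

theorem rr_inv {u : MZˣ} (hu : IsZ u.1) : rr (u⁻¹).1 = giv (rr u.1) := by
  have h1 : rr (u⁻¹).1 * rr u.1 = 1 := by
    rw [← rr_mul, u.inv_mul, rr_one]
  calc rr (u⁻¹).1 = rr (u⁻¹).1 * (rr u.1 * giv (rr u.1)) := by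
        rw [mul_giv hu.rr_isom, Matrix.mul_one]
    _ = _ := by rw [← Matrix.mul_assoc, h1, Matrix.one_mul]

/-- the orthochronous arithmetic group -/
def GZ : Subgroup MZˣ where
  carrier := {u | IsZ u.1 ∧ 0 < rr u.1 o o}
  mul_mem' := by
    rintro a b ⟨ha, pa⟩ ⟨hb, pb⟩
    refine ⟨ha.mul hb, ?_⟩
    rw [Units.val_mul, rr_mul]
    exact ha.rr_isom.pos_mul hb.rr_isom pa pb
  one_mem' := by
    refine ⟨?_, ?_⟩
    · simp [IsZ]
    · rw [Units.val_one, rr_one]; simp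
  inv_mem' := by
    rintro a ⟨ha, pa⟩
    refine ⟨ha.inv, ?_⟩
    rw [rr_inv ha, giv_oo]
    exact pa

/-- the congruence subgroup -/
def Gam (n : ℕ) : Subgroup MZˣ where
  carrier := {u | u ∈ GZ ∧ u.1.map (qn n) = 1}
  mul_mem' := by
    rintro a b ⟨ha, pa⟩ ⟨hb, pb⟩
    refine ⟨GZ.mul_mem ha hb, ?_⟩
    rw [Units.val_mul, Matrix.map_mul, pa, pb, Matrix.one_mul]
  one_mem' := by
    refine ⟨GZ.one_mem, ?_⟩
    rw [Units.val_one, Matrix.map_one _ (map_zero _) (map_one _)]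
  inv_mem' := by
    rintro a ⟨ha, pa⟩
    refine ⟨GZ.inv_mem ha, ?_⟩
    have h : (a.1 * (a⁻¹).1).map (qn n) = 1 := by
      rw [a.mul_inv, Matrix.map_one _ (map_zero _) (map_one _)]
    rwa [Matrix.map_mul, pa, Matrix.one_mul] at h

theorem Gam_dvd {n : ℕ} {u : MZˣ} (hu : u ∈ Gam n) (i : Ix) : (n : ℤ√2) ∣ u.1 i i - 1 := by
  have h := congrFun (congrFun hu.2 i) i
  rw [Matrix.map_apply, Matrix.one_apply_eq] at h
  have h2 : qn n (u.1 i i) = qn n 1 := by rw [h, map_one]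
  rw [← Ideal.mem_span_singleton]
  exact Ideal.Quotient.eq.1 h2

theorem det_map_TT (M : V) : (TT * M * TI).det = M.det := by
  rw [det_mul, det_mul]
  have h := congrArg Matrix.det TT_mul_TI
  rw [det_mul, det_one] at h
  linear_combination M.det * h

theorem Gam_det {n : ℕ} (hn : 3 ≤ n) {u : MZˣ} (hu : u ∈ Gam n) : (rr u.1).det = 1 := by
  have h1 : (rr u.1).det = re2 u.1.det := by
    rw [rr, det_map_TT]
    exact (RingHom.map_det re2 u.1).symm
  have h2 : qn n u.1.det = 1 := by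
    have := RingHom.map_det (qn n) u.1
    rw [this]
    have h3 : (qn n).mapMatrix u.1 = u.1.map (qn n) := rfl
    rw [h3, hu.2, det_one]
  rcases mul_self_eq_one_iff.1 hu.1.1.det_sq with h | h
  · rw [h1, h, map_one]
  · exfalso
    rw [h] at h2
    have h3 : qn n (-1) = qn n 1 := by rw [h2, map_one]
    have h4 := Ideal.Quotient.eq.1 h3
    rw [Ideal.mem_span_singleton] at h4
    obtain ⟨a, ha⟩ := h4
    have h5 := congrArg Zsqrtd.re ha
    simp at h5
    have h6 : (n : ℤ) ∣ 2 := ⟨-a.re, by linarith⟩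
    have h7 := Int.le_of_dvd (by norm_num) h6
    omega

/-- the representation of the congruence subgroup -/
def rho {n : ℕ} (hn : 3 ≤ n) : Gam n →* SOG where
  toFun u := ⟨rr u.1.1, ⟨u.2.1.1.rr_isom, u.2.1.2, Gam_det hn u.2⟩⟩
  map_one' := Subtype.ext rr_one
  map_mul' u v := Subtype.ext (rr_mul u.1.1 v.1.1)

theorem rho_coe {n : ℕ} (hn : 3 ≤ n) (u : Gam n) : (rho hn u).1 = rr u.1.1 := rfl

end Pool.Agent.W2helper8.TW
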