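import Mathlib
import Pool.Agent.W2helper8.TW.LatG

/-!
# The congruence subgroups act freely
-/

open scoped Matrix
open Matrix

noncomputable section

namespace Pool.Agent.W2helper8.TW

theorem cn2_injective : Function.Injective cn2 := by
  refine Zsqrtd.lift_injective _ ?_
  intro n hn
  have : (2 : ℤ) = n * n := hn
  have h1 : n.natAbs * n.natAbs = 2 := by
    have := congrArg Int.natAbs this
    rw [Int.natAbs_mul] at this
    exact this.symm
  have h2 : n.natAbs < 2 := by nlinarith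
  interval_cases n.natAbs <;> omega

theorem orth4_entry {k : M4} (hk : kᵀ * k = 1) (i j : Fin 4) : |k i j| ≤ 1 := by
  have h1 := congrFun (congrFun hk j) j
  have h2 : ∑ l : Fin 4, k l j ^ 2 = 1 := by
    rw [Matrix.mul_apply, Matrix.one_apply_eq] at h1
    rw [← h1]
    refine Finset.sum_congr rfl fun l _ => ?_
    rw [Matrix.transpose_apply]; ring
  have h3 : k i j ^ 2 ≤ ∑ l : Fin 4, k l j ^ 2 :=
    Finset.single_le_sum (f := fun l => k l j ^ 2) (fun i _ => by positivity) (Finset.mem_univ i)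
  have h4 : k i j ^ 2 ≤ 1 ^ 2 := by rw [one_pow]; linarith
  exact abs_le_of_sq_le_sq h4 zero_le_one

theorem orth4_eq_one {k : M4} (hk : kᵀ * k = 1) (ht : k.trace = 4) : k = 1 := by
  have h1 : ((k - 1)ᴴ * (k - 1)).trace = 0 := by
    rw [conjTranspose_eq_transpose_of_trivial, transpose_sub, transpose_one, Matrix.sub_mul,
      Matrix.mul_sub, hk, Matrix.one_mul, Matrix.mul_one, Matrix.trace_sub, Matrix.trace_sub,
      Matrix.trace_sub, Matrix.trace_transpose, ht]
    simp
  have h2 := trace_conjTranspose_mul_self_eq_zero_iff.1 h1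
  exact sub_eq_zero.1 h2

theorem zsqrt_small {n : ℕ} (hn : 11 ≤ n) {a : ℤ√2} (h1 : |n * re2 a| ≤ 8)
    (h2 : |n * cn2 a| ≤ 10) : a = 0 := by
  have hN : re2 a * cn2 a = ((a.re ^ 2 - 2 * a.im ^ 2 : ℤ) : ℝ) := by
    rw [re2_apply, cn2_apply]
    push_cast
    linear_combination (-(a.im : ℝ) ^ 2) * sqrt_two_mul
  have h3 : |(n : ℝ) * re2 a| * |(n : ℝ) * cn2 a| ≤ 8 * 10 :=
    mul_le_mul h1 h2 (abs_nonneg _) (by norm_num)
  rw [← abs_mul] at h3
  have h4 : (n : ℝ) * re2 a * (n * cn2 a) = n ^ 2 * (re2 a * cn2 a) := by ring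
  rw [h4, abs_mul, abs_of_nonneg (by positivity : (0 : ℝ) ≤ (n : ℝ) ^ 2), hN] at h3
  have hn' : (11 : ℝ) ≤ n := by exact_mod_cast hn
  have h5 : a.re ^ 2 - 2 * a.im ^ 2 = 0 := by
    by_contra hne
    have h6 : (1 : ℝ) ≤ |((a.re ^ 2 - 2 * a.im ^ 2 : ℤ) : ℝ)| := by
      rw [← Int.cast_abs]
      exact_mod_cast Int.one_le_abs hne
    nlinarith
  rw [h5, Int.cast_zero] at hN
  rcases mul_eq_zero.1 hN with h | h
  · exact re2_injective (by rw [h, map_zero])
  · exact cn2_injective (by rw [h, map_zero])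

theorem congr_free {n : ℕ} (hn : 11 ≤ n) {g : MZ} (hg : IsZ g) (hpos : 0 < rr g o o)
    (hd : (rr g).det = 1) (hc : ∀ i, (n : ℤ√2) ∣ g i i - 1) {x : R4}
    (hx : mov (rr g) x = x) : g = 1 := by
  have hso : IsSO (rr g) := ⟨hg.rr_isom, hpos, hd⟩
  obtain ⟨h1, h2, -⟩ := rot_spec hso x
  have t1 : (rr g).trace = 1 + (rb (rr g) x).trace := by
    have e1 : (rot (rr g) x).trace = (rr g).trace := by
      rw [rot, hx, Matrix.trace_mul_comm, Matrix.mul_assoc, bst_mul_bst', Matrix.mul_one]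
    rw [← e1, h1]
    simp [Matrix.trace, Fintype.sum_sum_type]
  have t2 : |(rb (rr g) x).trace| ≤ 4 := by
    rw [Matrix.trace, Fin.sum_univ_four]
    simp only [Matrix.diag_apply]
    have a0 := abs_le.1 (orth4_entry h2 0 0)
    have a1 := abs_le.1 (orth4_entry h2 1 1)
    have a2 := abs_le.1 (orth4_entry h2 2 2)
    have a3 := abs_le.1 (orth4_entry h2 3 3)
    exact abs_le.2 ⟨by linarith, by linarith⟩
  have t3 : |(kk g).trace| ≤ 5 := by
    rw [Matrix.trace]
    calc |∑ i, (kk g).diag i| ≤ ∑ i, |(kk g).diag i| := Finset.abs_sum_le_sum_abs _ _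
      _ ≤ ∑ _i : Ix, (1 : ℝ) := Finset.sum_le_sum fun i _ => orth_entry hg.kk_orth i i
      _ = 5 := by simp [Fintype.card_sum]
  rw [trace_rr] at t1
  rw [trace_kk] at t3
  have h5 : (n : ℤ√2) ∣ g.trace - 5 := by
    have e : g.trace - 5 = ∑ i : Ix, (g i i - 1) := by
      rw [Finset.sum_sub_distrib, Matrix.trace]
      simp [Fintype.card_sum]
    rw [e]
    exact Finset.dvd_sum fun i _ => hc i
  obtain ⟨a, ha⟩ := h5
  have r1 : re2 g.trace - 5 = n * re2 a := by
    have := congrArg re2 ha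
    rw [map_sub, map_mul, map_natCast, map_ofNat] at this
    exact this
  have r2 : cn2 g.trace - 5 = n * cn2 a := by
    have := congrArg cn2 ha
    rw [map_sub, map_mul, map_natCast, map_ofNat] at this
    exact this
  have t2' := abs_le.1 t2
  have t3' := abs_le.1 t3
  have ha0 : a = 0 := by
    refine zsqrt_small hn ?_ ?_
    · rw [← r1, t1]
      exact abs_le.2 ⟨by linarith, by linarith⟩
    · rw [← r2]
      exact abs_le.2 ⟨by linarith, by linarith⟩
  rw [ha0, map_zero, mul_zero] at r1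
  have hk : rb (rr g) x = 1 := orth4_eq_one h2 (by linarith)
  have hr : rot (rr g) x = 1 := by
    rw [h1, hk, fromBlocks_one]
  have hb := bst_rot (g := rr g) x
  rw [hr, hx, Matrix.mul_one] at hb
  have hrr : rr g = 1 := by
    calc rr g = rr g * bst x * bst' x := by rw [Matrix.mul_assoc, bst_mul_bst', Matrix.mul_one]
      _ = 1 := by rw [← hb, bst_mul_bst']
  exact rr_injective (by rw [hrr, rr_one])

end Pool.Agent.W2helper8.TW
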