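import Mathlib
import Pool.Agent.W2helper8.TW.LatE
import Pool.Agent.W2helper8.TW.LatC
import Pool.Agent.W2helper8.TW.Fibre

/-!
# A cocompact lattice acting freely on hyperbolic four-space and on its twistor space
-/

open scoped Matrix Manifold ContDiff Topology
open Matrix
open Pool.Agent.Helper206.Cover (R3 P1)

noncomputable section

namespace Pool.Agent.W2helper8.TW

attribute [local instance] fact3

theorem mov_bound {h : V} (hh : IsIsom h) (hp : 0 < h o o) (x : R4) :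
    ‖mov h x‖ ≤ h o o * (t0 x + ‖x‖) := by
  have h1 := congrFun (mulVec_hv hh hp x) o
  rw [hv_o] at h1
  have h2 : (h *ᵥ hv x) o = h o o * t0 x + inner ℝ x (col hᵀ) := by
    simp [Matrix.mulVec, dotProduct, Fintype.sum_sum_type, PiLp.inner_apply, Fin.sum_univ_four,
      col_apply, hv]
  have h3 : |inner ℝ x (col hᵀ)| ≤ ‖x‖ * ‖col hᵀ‖ := abs_real_inner_le_norm _ _
  have h4 := (abs_le.1 h3).2
  have h5 := isom_row hh
  have h6 : ‖col hᵀ‖ ≤ h o o := by nlinarith [norm_nonneg (col hᵀ)]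
  have h7 : ‖mov h x‖ ≤ t0 (mov h x) := by
    have := t0_sq (mov h x)
    have := t0_pos (mov h x)
    nlinarith [norm_nonneg (mov h x)]
  refine h7.trans ?_
  rw [← h1, h2, mul_add]
  nlinarith [norm_nonneg x, norm_nonneg (col hᵀ)]

theorem exists_bound_congr (n : ℕ) [NeZero n] :
    ∃ R : ℝ, ∀ x : R4, ∃ u ∈ Gam n, ‖mov (rr u.1) x‖ ≤ R := by
  classical
  obtain ⟨R0, hR0⟩ := exists_bound fin_bounded
  have hR0' : 0 ≤ R0 := by
    obtain ⟨g, -, -, h⟩ := hR0 0
    exact (norm_nonneg _).trans h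
  set H : Matrix Ix Ix (Qn n) → MZˣ := fun M =>
    if h : ∃ u : MZˣ, u ∈ GZ ∧ u.1.map (qn n) = M then h.choose else 1 with hH
  have hH1 : ∀ M, H M ∈ GZ := by
    intro M
    by_cases h : ∃ u : MZˣ, u ∈ GZ ∧ u.1.map (qn n) = M
    · rw [hH]; simp only [dif_pos h]; exact h.choose_spec.1
    · rw [hH]; simp only [dif_neg h]; exact GZ.one_mem
  have hH2 : ∀ u : MZˣ, u ∈ GZ → (H (u.1.map (qn n))).1.map (qn n) = u.1.map (qn n) := by
    intro u hu
    have h : ∃ v : MZˣ, v ∈ GZ ∧ v.1.map (qn n) = u.1.map (qn n) := ⟨u, hu, rfl⟩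
    have e : H (u.1.map (qn n)) = h.choose := by rw [hH]; simp only [dif_pos h]
    rw [e]
    exact h.choose_spec.2
  obtain ⟨B, hB⟩ := (Set.finite_range fun M : Matrix Ix Ix (Qn n) =>
    rr ((H M)⁻¹).1 o o).bddAbove
  refine ⟨B * (1 + R0 + R0), fun x => ?_⟩
  obtain ⟨g, hg, hp, hb⟩ := hR0 x
  obtain ⟨u, rfl⟩ := hg.exists_unit
  have hu : u ∈ GZ := ⟨hg, hp⟩
  set w := H (u.1.map (qn n)) with hw
  have hw1 : w⁻¹ ∈ GZ := GZ.inv_mem (hH1 _)
  have hw2 : w.1.map (qn n) = u.1.map (qn n) := hH2 u hu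
  refine ⟨w⁻¹ * u, ⟨GZ.mul_mem hw1 hu, ?_⟩, ?_⟩
  · rw [Units.val_mul, Matrix.map_mul, ← hw2, ← Matrix.map_mul, w.inv_mul,
      Matrix.map_one _ (map_zero _) (map_one _)]
  · rw [Units.val_mul, rr_mul, mov_mul hw1.1.rr_isom hw1.2 hg.rr_isom hp]
    have h1 := mov_bound hw1.1.rr_isom hw1.2 (mov (rr u.1) x)
    refine h1.trans ?_
    have h2 : rr (w⁻¹).1 o o ≤ B := hB ⟨_, rfl⟩
    have h3 := t0_mono hb
    have h4 := t0_pos (mov (rr u.1) x)
    refine mul_le_mul h2 (by linarith) (by positivity) (hw1.2.le.trans h2)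

/-! ### The lattice -/

/-- The lattice: the principal congruence subgroup of level eleven. -/
def Gm : Type := Gam 11

instance : Group Gm := inferInstanceAs (Group (Gam 11))

/-- the representation of the lattice -/
def rhoG : Gm →* SOG := rho (n := 11) (by norm_num)

instance : MulAction Gm Mt := MulAction.compHom Mt rhoG

theorem Gm_smul (g : Gm) (m : Mt) : g • m = rhoG g • m := rfl

/-- the matrix of an element of the lattice -/
def mg (g : Gm) : MZ := (g : Gam 11).1.1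

theorem mg_IsZ (g : Gm) : IsZ (mg g) := (g : Gam 11).2.1.1
theorem mg_pos (g : Gm) : 0 < rr (mg g) o o := (g : Gam 11).2.1.2
theorem mg_det (g : Gm) : (rr (mg g)).det = 1 := Gam_det (n := 11) (by norm_num) (g : Gam 11).2
theorem mg_dvd (g : Gm) (i : Ix) : ((11 : ℕ) : ℤ√2) ∣ mg g i i - 1 := Gam_dvd (g : Gam 11).2 i
theorem mg_injective : Function.Injective mg := fun _ _ h => Subtype.ext (Units.ext h)
theorem mg_one : mg 1 = 1 := rfl

theorem Gm_fst (g : Gm) (m : Mt) : (g • m).1 = mov (rr (mg g)) m.1 := rfl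

theorem Gm_free {g : Gm} {m : Mt} (h : (g • m).1 = m.1) : g = 1 := by
  rw [Gm_fst] at h
  apply mg_injective
  rw [mg_one]
  exact congr_free le_rfl (mg_IsZ g) (mg_pos g) (mg_det g) (mg_dvd g) h

instance : IsCancelSMul Gm Mt := by
  refine isCancelSMul_iff_eq_one_of_smul_eq.mpr ?_
  intro g m h
  exact Gm_free (congrArg Prod.fst h)

theorem smooth_Gm (g : Gm) : ContMDiff IT IT ∞ (fun m : Mt => g • m) :=
  smooth_act rhoG Gm_smul g

instance : ContinuousConstSMul Gm Mt := ⟨fun g => (smooth_Gm g).continuous⟩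

instance : ProperlyDiscontinuousSMul Gm Mt := by
  refine ⟨?_⟩
  intro K L hK hL
  obtain ⟨R, hR⟩ : ∃ R : ℝ, ∀ m ∈ K ∪ L, ‖m.1‖ ≤ R := by
    have h1 : IsCompact (Prod.fst '' (K ∪ L)) := (hK.union hL).image continuous_fst
    obtain ⟨R, hR⟩ := h1.isBounded.exists_norm_le
    exact ⟨R, fun m hm => hR _ ⟨m, hm, rfl⟩⟩
  have h2 := (fin_bounded ((1 + R) * (1 + R + R))).preimage (mg_injective.injOn)
  refine h2.subset ?_
  rintro g ⟨_, ⟨m, hm, rfl⟩, hmL⟩
  refine ⟨mg_IsZ g, ?_⟩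
  rw [abs_of_pos (mg_pos g)]
  have h3 := oo_bound (mg_IsZ g).rr_isom (mg_pos g) m.1
  rw [← Gm_fst] at h3
  refine h3.trans ?_
  have h4 := hR m (Or.inl hm)
  have h5 := hR _ (Or.inr hmL)
  have h6 := t0_mono h4
  have h7 := t0_mono h5
  have h8 := t0_pos m.1
  have h9 := t0_pos (g • m).1
  have h10 : (g • m).1 = ((fun x => g • x) m).1 := rfl
  refine mul_le_mul h7 (by linarith) (by positivity) (h9.le.trans h7)

instance : IsCov Gm Mt := ⟨isQuotientCoveringMap_quotientMk_of_properlyDiscontinuousSMul⟩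

/-- The twistor space. -/
abbrev Xt : Type := Quo Gm Mt

instance : T2Space Xt :=
  inferInstanceAs (T2Space (Quotient (MulAction.orbitRel Gm Mt)))

instance : SecondCountableTopology Xt :=
  ContinuousConstSMul.secondCountableTopology (Γ := Gm) (T := Mt)

theorem connected_P1 : ConnectedSpace P1 := by
  have h0 : 1 < Module.rank ℝ R3 := by
    rw [← Module.finrank_eq_rank]
    have : Module.finrank ℝ R3 = 3 := by simp
    rw [this]
    norm_num
  have h1 : IsConnected (Metric.sphere (0 : R3) 1) :=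
    isConnected_sphere h0 0 zero_le_one
  exact isConnected_iff_connectedSpace.1 h1

instance : ConnectedSpace Xt := by
  have := connected_P1
  have h1 : ConnectedSpace Mt := inferInstance
  exact (proj_surj Gm (M := Mt)).connectedSpace (continuous_proj Gm)

instance : CompactSpace Xt := by
  obtain ⟨R, hR⟩ := exists_bound_congr 11
  have h1 : IsCompact ((Metric.closedBall (0 : R4) R) ×ˢ (Set.univ : Set P1)) :=
    (isCompact_closedBall 0 R).prod isCompact_univ
  have h2 := h1.image (continuous_proj Gm (M := Mt))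
  have h3 : proj Gm Mt '' ((Metric.closedBall (0 : R4) R) ×ˢ (Set.univ : Set P1)) = Set.univ := by
    rw [Set.eq_univ_iff_forall]
    intro q
    obtain ⟨m, rfl⟩ := proj_surj Gm q
    obtain ⟨u, hu, hb⟩ := hR m.1
    let g : Gm := (⟨u, hu⟩ : Gam 11)
    refine ⟨g • m, ⟨?_, Set.mem_univ _⟩, proj_smul Gm g m⟩
    rw [mem_closedBall_zero_iff]
    exact hb
  rw [h3] at h2
  exact ⟨h2⟩

end Pool.Agent.W2helper8.TW
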