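import Mathlib
import Pool.Agent.W2helper8.TW.LatH

/-!
# The twistor space of a compact hyperbolic four-manifold
-/

open scoped Matrix Manifold ContDiff Topology
open Matrix
open Pool.Agent.Helper206.Cover (R3 P1 cross dInc tanProj jP1 dInc_jP1)
open Pool.Agent.Helper206.Rat (SymplecticForm AlmostComplex IsCompatible IsHolomorphic
  RationalCurve IsUniruled)

noncomputable section

namespace Pool.Agent.W2helper8.TW

attribute [local instance] fact3

instance : IsManifold IT ∞ Xt := isManifold_quo IT Gm smooth_Gm

/-- The symplectic form. -/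
def OmX : SymplecticForm IT Xt := dSymp smooth_Gm data.symp (inv_form rhoG Gm_smul)

/-- The almost complex structure. -/
def JX : AlmostComplex IT Xt := dAC smooth_Gm data.ac (inv_endo rhoG Gm_smul)

theorem compatible_X : IsCompatible OmX JX :=
  dAC_compatible smooth_Gm data.symp (inv_form rhoG Gm_smul) data.ac (inv_endo rhoG Gm_smul)
    data.compatible

/-- The complex volume form. -/
def VX : ComplexVolume JX :=
  dVol smooth_Gm data.ac (inv_endo rhoG Gm_smul) data.vol (inv_tri rhoG Gm_smul)

/-- The sphere over a point of the hyperbolic manifold. -/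
def crv (x : R4) : P1 → Xt := proj Gm Mt ∘ fib x

theorem holomorphic_crv (x : R4) : IsHolomorphic jP1 JX (crv x) :=
  holomorphic_proj smooth_Gm data.ac (inv_endo rhoG Gm_smul) (holomorphic_fib x)

theorem crv_injective (x : R4) : Function.Injective (crv x) := by
  intro z w h
  obtain ⟨g, hg'⟩ := proj_eq (G := Gm) (h : proj Gm Mt (x, z) = proj Gm Mt (x, w))
  have hg : g • ((x, w) : Mt) = (x, z) := hg'
  have h1 : (g • ((x, w) : Mt)).1 = ((x, w) : Mt).1 := by rw [hg]
  have h2 : g = 1 := Gm_free h1
  rw [h2, one_smul] at hg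
  exact (congrArg Prod.snd hg).symm

theorem isTree_one : (⊥ : SimpleGraph (Fin 1)).IsTree := by
  rw [SimpleGraph.isTree_iff_connected_and_card]
  refine ⟨?_, ?_⟩
  · have : Nonempty (Fin 1) := ⟨0⟩
    refine ⟨?_⟩
    intro a b
    rw [Subsingleton.elim a b]
  · simp

/-- a point of the sphere -/
def z0 : P1 := connected_P1.toNonempty.some

theorem neg_z0 : -z0 ≠ z0 := by
  intro h
  have h2 : -(z0 : R3) = (z0 : R3) := congrArg Subtype.val h
  have h3 := congrArg (fun v : R3 => inner ℝ v (z0 : R3)) h2
  simp only [inner_neg_left, norm_P1] at h3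
  norm_num at h3

/-- The sphere over a point of the hyperbolic manifold, as a rational curve. -/
def rcrv (x : R4) : RationalCurve jP1 JX where
  n := 1
  graph := ⊥
  isTree := isTree_one
  node := fun _ _ => z0
  node_ne := fun _ _ _ h => absurd h (by simp)
  u := fun _ => crv x
  holomorphic := fun _ => holomorphic_crv x
  node_eq := fun _ _ h => absurd h (by simp)
  nonconstant := ⟨0, -z0, z0, fun e => neg_z0 (crv_injective x e)⟩

theorem uniruled_X : IsUniruled jP1 OmX := by
  refine ⟨JX, compatible_X, fun q => ?_⟩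
  obtain ⟨⟨x, z⟩, rfl⟩ := proj_surj Gm q
  exact ⟨rcrv x, Set.mem_iUnion.2 ⟨(0 : Fin 1), z, rfl⟩⟩

theorem finrank_ET : Module.finrank ℝ ET = 6 := by
  rw [Module.finrank_prod]; simp

end Pool.Agent.W2helper8.TW
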