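import Mathlib
import Pool.Agent.W2helper8.TW.Defs

/-!
# Tensors pulled back by an immersion in a vector space: coordinate expressions
-/

open scoped Manifold ContDiff Topology
open Set
open Pool.Agent.Helper206.Cover (BilinField EndoField formInChart endoInChart)
open Pool.Agent.Helper206.Rat (SymplecticForm AlmostComplex IsCompatible IsHolomorphic)

noncomputable section

namespace Pool.Agent.W2helper8.TW

section Calc

variable {E : Type*} [NormedAddCommGroup E] [NormedSpace ℝ E]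
  {V : Type*} [NormedAddCommGroup V] [NormedSpace ℝ V]

/-- the pull back of an ambient form -/
def pull (B : V → V →L[ℝ] V →L[ℝ] ℝ) (f : E → V) (z : E) : E →L[ℝ] E →L[ℝ] ℝ :=
  (B (f z)).bilinearComp (fderiv ℝ f z) (fderiv ℝ f z)

theorem pull_apply (B : V → V →L[ℝ] V →L[ℝ] ℝ) (f : E → V) (z : E) (a b : E) :
    pull B f z a b = B (f z) (fderiv ℝ f z a) (fderiv ℝ f z b) := rfl

theorem contDiffOn_pull [FiniteDimensional ℝ E] {B : V → V →L[ℝ] V →L[ℝ] ℝ}
    (hB : ContDiff ℝ ∞ B) {f : E → V}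
    {s : Set E} (hs : IsOpen s) (hf : ContDiffOn ℝ ∞ f s) : ContDiffOn ℝ ∞ (pull B f) s := by
  have hf' : ContDiffOn ℝ ∞ (fderiv ℝ f) s := hf.fderiv_of_isOpen hs (by simp)
  have h1 : ContDiffOn ℝ ∞ (fun z => B (f z)) s := hB.comp_contDiffOn hf
  refine contDiffOn_clm_apply.2 fun a => contDiffOn_clm_apply.2 fun b => ?_
  exact (h1.clm_apply (hf'.clm_apply contDiffOn_const)).clm_apply (hf'.clm_apply contDiffOn_const)

theorem closed_pull [FiniteDimensional ℝ E] {B : V → V →L[ℝ] V →L[ℝ] ℝ} (hB : ContDiff ℝ ∞ B)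
    (halt : ∀ q a, B q a a = 0) {f : E → V} {s : Set E} (hs : IsOpen s)
    (hf : ContDiffOn ℝ ∞ f s) {z : E} (hz : z ∈ s)
    (hcl : ∀ a b c : E, fderiv ℝ B (f z) (fderiv ℝ f z a) (fderiv ℝ f z b) (fderiv ℝ f z c)
      + fderiv ℝ B (f z) (fderiv ℝ f z b) (fderiv ℝ f z c) (fderiv ℝ f z a)
      + fderiv ℝ B (f z) (fderiv ℝ f z c) (fderiv ℝ f z a) (fderiv ℝ f z b) = 0) (a b c : E) :
    fderiv ℝ (pull B f) z a b c + fderiv ℝ (pull B f) z b c a
      + fderiv ℝ (pull B f) z c a b = 0 := by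
  have hanti : ∀ q a b, B q a b = -B q b a := by
    intro q a b
    have h := halt q (a + b)
    simp only [map_add, add_apply, halt] at h
    linarith
  have hfz : ContDiffAt ℝ ∞ f z := hf.contDiffAt (hs.mem_nhds hz)
  have hf' : ContDiffOn ℝ ∞ (fderiv ℝ f) s := hf.fderiv_of_isOpen hs (by simp)
  have hd1 : HasFDerivAt f (fderiv ℝ f z) z :=
    (hfz.differentiableAt (by simp)).hasFDerivAt
  have hd2 : HasFDerivAt (fderiv ℝ f) (fderiv ℝ (fderiv ℝ f) z) z :=
    ((hf'.contDiffAt (hs.mem_nhds hz)).differentiableAt (by simp)).hasFDerivAt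
  have hdB : HasFDerivAt B (fderiv ℝ B (f z)) (f z) :=
    (hB.contDiffAt.differentiableAt (by simp)).hasFDerivAt
  have hdBf : HasFDerivAt (fun y => B (f y)) ((fderiv ℝ B (f z)).comp (fderiv ℝ f z)) z :=
    HasFDerivAt.comp (g := B) z hdB hd1
  have hsym : ∀ v w, fderiv ℝ (fderiv ℝ f) z v w = fderiv ℝ (fderiv ℝ f) z w v := by
    have := hfz.isSymmSndFDerivAt (by
      rw [minSmoothness_of_isRCLikeNormedField]
      exact WithTop.coe_le_coe.2 (le_top : (2 : ℕ∞) ≤ ⊤))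
    intro v w
    exact this v w
  have hP : HasFDerivAt (pull B f) (fderiv ℝ (pull B f) z) z :=
    (((contDiffOn_pull hB hs hf).contDiffAt (hs.mem_nhds hz)).differentiableAt
      (by simp)).hasFDerivAt
  have key : ∀ a b c : E, fderiv ℝ (pull B f) z a b c
      = fderiv ℝ B (f z) (fderiv ℝ f z a) (fderiv ℝ f z b) (fderiv ℝ f z c)
        + B (f z) (fderiv ℝ (fderiv ℝ f) z a b) (fderiv ℝ f z c)
        + B (f z) (fderiv ℝ f z b) (fderiv ℝ (fderiv ℝ f) z a c) := by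
    intro a b c
    have e1 : HasFDerivAt (fun y => pull B f y b c)
        ((ContinuousLinearMap.apply ℝ ℝ c).comp
          ((ContinuousLinearMap.apply ℝ (E →L[ℝ] ℝ) b).comp (fderiv ℝ (pull B f) z))) z := by
      have e1 : HasFDerivAt (fun y => pull B f y b)
          ((ContinuousLinearMap.apply ℝ (E →L[ℝ] ℝ) b).comp (fderiv ℝ (pull B f) z)) z :=
        HasFDerivAt.comp (g := fun L : E →L[ℝ] E →L[ℝ] ℝ => L b) z
          (ContinuousLinearMap.apply ℝ (E →L[ℝ] ℝ) b).hasFDerivAt hP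
      exact HasFDerivAt.comp (g := fun L : E →L[ℝ] ℝ => L c) z
          (ContinuousLinearMap.apply ℝ ℝ c).hasFDerivAt e1
    have e2 : ∀ b : E, HasFDerivAt (fun y => fderiv ℝ f y b)
        ((ContinuousLinearMap.apply ℝ V b).comp (fderiv ℝ (fderiv ℝ f) z)) z := by
      intro b
      exact HasFDerivAt.comp (g := fun L : E →L[ℝ] V => L b) z
        (ContinuousLinearMap.apply ℝ V b).hasFDerivAt hd2
    have e3 := (hdBf.clm_apply (e2 b)).clm_apply (e2 c)
    have e4 := e1.unique e3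
    have e5 := congrArg (fun L : E →L[ℝ] ℝ => L a) e4
    simp at e5
    rw [e5]
    ring
  rw [key a b c, key b c a, key c a b]
  have h0 := hcl a b c
  rw [hanti (f z) (fderiv ℝ (fderiv ℝ f) z a b) (fderiv ℝ f z c),
    hanti (f z) (fderiv ℝ (fderiv ℝ f) z b c) (fderiv ℝ f z a),
    hanti (f z) (fderiv ℝ (fderiv ℝ f) z c a) (fderiv ℝ f z b), hsym a b, hsym b c, hsym c a]
  linarith

/-- A solution of a linear equation with injective coefficient depends smoothly on parameters. -/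
theorem contDiffOn_of_inj [FiniteDimensional ℝ E] [FiniteDimensional ℝ V] {s : Set E}
    (hs : IsOpen s) {D : E → E →L[ℝ] V} {A : E → E →L[ℝ] V} {j : E → E →L[ℝ] E}
    (hD : ContDiffOn ℝ ∞ D s) (hA : ContDiffOn ℝ ∞ A s)
    (hinj : ∀ z ∈ s, Function.Injective (D z)) (hj : ∀ z ∈ s, (D z).comp (j z) = A z) :
    ContDiffOn ℝ ∞ j s := by
  intro z₀ hz₀
  obtain ⟨L, hL⟩ := (D z₀).toLinearMap.exists_leftInverse_of_injective
    (LinearMap.ker_eq_bot.2 (hinj z₀ hz₀))
  let L' : V →L[ℝ] E := LinearMap.toContinuousLinearMap L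
  have hLD : L'.comp (D z₀) = 1 := by
    ext v
    exact congrArg (fun T => T v) hL
  have hDz : ContDiffAt ℝ ∞ D z₀ := hD.contDiffAt (hs.mem_nhds hz₀)
  have hAz : ContDiffAt ℝ ∞ A z₀ := hA.contDiffAt (hs.mem_nhds hz₀)
  have h1 : ContDiffAt ℝ ∞ (fun z => L'.comp (D z)) z₀ := contDiffAt_const.clm_comp hDz
  have h2 : ContDiffAt ℝ ∞ (fun z => L'.comp (A z)) z₀ := contDiffAt_const.clm_comp hAz
  have h3 : ContDiffAt ℝ ∞ (Ring.inverse : (E →L[ℝ] E) → (E →L[ℝ] E)) (L'.comp (D z₀)) := by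
    rw [hLD]
    exact contDiffAt_ringInverse ℝ (1 : (E →L[ℝ] E)ˣ)
  have h4 : ContDiffAt ℝ ∞ (fun z => Ring.inverse (L'.comp (D z))) z₀ :=
    ContDiffAt.comp (g := (Ring.inverse : (E →L[ℝ] E) → (E →L[ℝ] E))) z₀ h3 h1
  have h5 : ContDiffAt ℝ ∞ (fun z => (Ring.inverse (L'.comp (D z))).comp (L'.comp (A z))) z₀ :=
    h4.clm_comp h2
  have hunit : ∀ᶠ z in 𝓝 z₀, IsUnit (L'.comp (D z)) := by
    have ho : IsOpen {x : E →L[ℝ] E | IsUnit x} := Units.isOpen
    have : L'.comp (D z₀) ∈ {x : E →L[ℝ] E | IsUnit x} := by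
      rw [hLD]; exact isUnit_one
    exact h1.continuousAt.preimage_mem_nhds (ho.mem_nhds this)
  refine (h5.congr_of_eventuallyEq ?_).contDiffWithinAt
  filter_upwards [hunit, hs.mem_nhds hz₀] with z hz hzs
  rw [← hj z hzs, ← ContinuousLinearMap.comp_assoc, ← ContinuousLinearMap.comp_assoc]
  have : (Ring.inverse (L'.comp (D z))).comp (L'.comp (D z)) = 1 :=
    Ring.inverse_mul_cancel _ hz
  rw [ContinuousLinearMap.comp_assoc (Ring.inverse (L'.comp (D z))), this]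
  rfl

end Calc

end Pool.Agent.W2helper8.TW
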